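import Pool.Agent.Helper35.LX.Clo

/-! LX-8: the identities `Ids φ` force a common zero of the `φ p`, up to one exception.  See `Clo.lean` for the identities. -/

set_option autoImplicit false

namespace Pool.Agent.Helper35.LX

open MvPolynomial
open scoped BigOperators
open Pool.Agent.Helper71.FL (w12 pf ct Dec Closed dd)
open Pool.Agent.Helper71.FC
open Pool.Agent.Helper93 (lsub lmap OF pb)

/-- two linear forms in three variables have a common zero -/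
theorem exists_u (w w' : Fin 3 → ℂ) : ∃ u : Fin 3 → ℂ, u ≠ 0 ∧ ∑ i, w i * u i = 0 ∧
    ∑ i, w' i * u i = 0 := by
  let L : (Fin 3 → ℂ) →ₗ[ℂ] (Fin 2 → ℂ) :=
    { toFun := fun u => ![∑ i, w i * u i, ∑ i, w' i * u i]
      map_add' := by
        intro u v
        funext k
        fin_cases k <;> simp [mul_add, Finset.sum_add_distrib]
      map_smul' := by
        intro c u
        funext k
        fin_cases k
        · show ∑ i, w i * (c * u i) = c * ∑ i, w i * u i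
          rw [Finset.mul_sum]
          apply Finset.sum_congr rfl
          intro i _
          ring
        · show ∑ i, w' i * (c * u i) = c * ∑ i, w' i * u i
          rw [Finset.mul_sum]
          apply Finset.sum_congr rfl
          intro i _
          ring }
  have h : LinearMap.ker L ≠ ⊥ := by
    apply LinearMap.ker_ne_bot_of_finrank_lt
    simp
  obtain ⟨u, hu, hu0⟩ := (Submodule.ne_bot_iff _).1 h
  have h1 : L u = 0 := LinearMap.mem_ker.1 hu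
  exact ⟨u, hu0, congrFun h1 0, congrFun h1 1⟩

/-- rank at most two on the first three coordinates gives a common zero -/
theorem cone_of {φ : Fin 8 → Fin 5 → ℂ} (w w' : Fin 3 → ℂ) (γ δ : Fin 8 → ℂ)
    (h : ∀ p, φ p 0 = γ p * w 0 + δ p * w' 0 ∧ φ p 1 = γ p * w 1 + δ p * w' 1 ∧
      φ p 2 = γ p * w 2 + δ p * w' 2) :
    ∃ u : Fin 5 → ℂ, u ≠ 0 ∧ ∀ p, ∑ i, φ p i * u i = 0 := by
  obtain ⟨u, hu, h1, h2⟩ := exists_u w w'
  refine ⟨![u 0, u 1, u 2, 0, 0], ?_, ?_⟩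
  · intro h0
    apply hu
    funext i
    fin_cases i
    · exact congrFun h0 0
    · exact congrFun h0 1
    · exact congrFun h0 2
  · intro p
    obtain ⟨a0, a1, a2⟩ := h p
    simp only [Fin.sum_univ_three] at h1 h2
    simp only [Fin.sum_univ_five]
    simp
    rw [a0, a1, a2]
    linear_combination γ p * h1 + δ p * h2

/-- a vector with vanishing cross products with a non zero vector is a multiple -/
theorem mul_of_cross {w v : Fin 3 → ℂ} (hw : w ≠ 0) (h01 : w 0 * v 1 = w 1 * v 0)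
    (h02 : w 0 * v 2 = w 2 * v 0) (h12 : w 1 * v 2 = w 2 * v 1) : ∃ c : ℂ, ∀ i, v i = c * w i := by
  have hi : w 0 ≠ 0 ∨ w 1 ≠ 0 ∨ w 2 ≠ 0 := by
    by_contra hcon
    push Not at hcon
    apply hw
    funext i
    fin_cases i
    · exact hcon.1
    · exact hcon.2.1
    · exact hcon.2.2
  rcases hi with h0 | h0 | h0
  · refine ⟨v 0 / w 0, fun i => ?_⟩
    fin_cases i
    · simp only [Fin.zero_eta]; field_simp
    · simp only [Fin.mk_one]; field_simp; linear_combination h01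
    · show v 2 = v 0 / w 0 * w 2
      field_simp; linear_combination h02
  · refine ⟨v 1 / w 1, fun i => ?_⟩
    fin_cases i
    · simp only [Fin.zero_eta]; field_simp; linear_combination -h01
    · simp only [Fin.mk_one]; field_simp
    · show v 2 = v 1 / w 1 * w 2
      field_simp; linear_combination h12
  · refine ⟨v 2 / w 2, fun i => ?_⟩
    fin_cases i
    · simp only [Fin.zero_eta]; field_simp; linear_combination -h02
    · simp only [Fin.mk_one]; field_simp; linear_combination -h12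
    · show v 2 = v 2 / w 2 * w 2
      field_simp

/-- the elimination -/
theorem core {a0 b0 a4 a5 b4 b5 : ℂ} {U W : Fin 3 → ℂ}
    (hE4 : ∀ j, b0 * W j = (a4 * b0 - b4 * a0) * U j)
    (hE5 : ∀ j, a0 * W j = (b5 * a0 - a5 * b0) * U j)
    (hE45 : ∀ j, (a4 * b5 - a5 * b4) * U j = (a4 + b5) * W j) (m n : Fin 3) :
    a0 * U m * W n = 0 ∧ b0 * U m * W n = 0 := by
  by_cases hU : U m = 0
  · rw [hU]; constructor <;> ring
  by_cases h0 : a0 = 0 ∧ b0 = 0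
  · rw [h0.1, h0.2]; constructor <;> ring
  set Xx := a4 * b0 - b4 * a0 with hX
  set Y := b5 * a0 - a5 * b0 with hY
  have e1 : a0 * Xx = b0 * Y := by
    have : (a0 * Xx) * U m = (b0 * Y) * U m := by
      linear_combination -a0 * hE4 m + b0 * hE5 m
    exact mul_right_cancel₀ hU this
  have e2 : b4 * Y = a4 * Xx := by
    have h1 : (a4 * b5 - a5 * b4) * b0 * U m = (a4 + b5) * Xx * U m := by
      linear_combination b0 * hE45 m + (a4 + b5) * hE4 m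
    have h2 := mul_right_cancel₀ hU h1
    have h3 : (a4 * b5 - a5 * b4) * b0 = b5 * Xx + b4 * Y := by rw [hX, hY]; ring
    linear_combination h2 - h3
  have e3 : a5 * Xx = b5 * Y := by
    have h1 : (a4 * b5 - a5 * b4) * a0 * U m = (a4 + b5) * Y * U m := by
      linear_combination a0 * hE45 m + (a4 + b5) * hE5 m
    have h2 := mul_right_cancel₀ hU h1
    have h3 : (a4 * b5 - a5 * b4) * a0 = a5 * Xx + a4 * Y := by rw [hX, hY]; ring
    linear_combination h2 - h3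
  have x0 : Xx = 0 := by
    have : Xx ^ 2 = 0 := by
      have h1 : Xx ^ 2 = Xx * (a4 * b0 - b4 * a0) := by rw [← hX]; ring
      rw [h1]
      linear_combination -b0 * e2 - b4 * e1
    exact pow_eq_zero_iff (two_ne_zero) |>.1 this
  have y0 : Y = 0 := by
    have : Y ^ 2 = 0 := by
      have h1 : Y ^ 2 = Y * (b5 * a0 - a5 * b0) := by rw [← hY]; ring
      rw [h1]
      linear_combination -a0 * e3 + a5 * e1
    exact pow_eq_zero_iff (two_ne_zero) |>.1 this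
  have ha : a0 * W n = 0 := by rw [hE5 n, y0, zero_mul]
  have hb : b0 * W n = 0 := by rw [hE4 n, x0, zero_mul]
  constructor
  · linear_combination U m * ha
  · linear_combination U m * hb


/-- the values of the coordinate covectors -/
theorem ev_val (m i : Fin 5) : ev m i = if i = m then 1 else 0 := rfl

theorem step0 {φ : Fin 8 → Fin 5 → ℂ} (H : Ids φ) :
    (φ 0 0 * φ 1 1 = φ 0 1 * φ 1 0 ∧ φ 0 0 * φ 1 2 = φ 0 2 * φ 1 0 ∧ φ 0 1 * φ 1 2 = φ 0 2 * φ 1 1) ∧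
    (φ 0 0 * φ 2 1 = φ 0 1 * φ 2 0 ∧ φ 0 0 * φ 2 2 = φ 0 2 * φ 2 0 ∧ φ 0 1 * φ 2 2 = φ 0 2 * φ 2 1) ∧
    (φ 1 0 * φ 2 1 = φ 1 1 * φ 2 0 ∧ φ 1 0 * φ 2 2 = φ 1 2 * φ 2 0 ∧
      φ 1 1 * φ 2 2 = φ 1 2 * φ 2 1) := by
  have h1 := id_q1q1 H 0 1 2
  have h2 := id_q1q2 H 0 1 2
  have h3 := id_q1q3 H 0 1 2
  have h4 := id_q2q2 H 0 1 2
  have h5 := id_q2q3 H 0 1 2
  have h6 := id_q3q3 H 0 1 2
  simp [d3, ev_val] at h1 h2 h3 h4 h5 h6
  -- the vectors of minors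
  obtain ⟨p0, hp0⟩ : ∃ p, p = φ 0 1 * φ 1 2 - φ 0 2 * φ 1 1 := ⟨_, rfl⟩
  obtain ⟨p1, hp1⟩ : ∃ p, p = φ 0 2 * φ 1 0 - φ 0 0 * φ 1 2 := ⟨_, rfl⟩
  obtain ⟨p2, hp2⟩ : ∃ p, p = φ 0 0 * φ 1 1 - φ 0 1 * φ 1 0 := ⟨_, rfl⟩
  obtain ⟨q0, hq0⟩ : ∃ p, p = φ 0 1 * φ 2 2 - φ 0 2 * φ 2 1 := ⟨_, rfl⟩
  obtain ⟨q1, hq1⟩ : ∃ p, p = φ 0 2 * φ 2 0 - φ 0 0 * φ 2 2 := ⟨_, rfl⟩
  obtain ⟨q2, hq2⟩ : ∃ p, p = φ 0 0 * φ 2 1 - φ 0 1 * φ 2 0 := ⟨_, rfl⟩
  obtain ⟨r0, hr0⟩ : ∃ p, p = φ 1 1 * φ 2 2 - φ 1 2 * φ 2 1 := ⟨_, rfl⟩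
  obtain ⟨r1, hr1⟩ : ∃ p, p = φ 1 2 * φ 2 0 - φ 1 0 * φ 2 2 := ⟨_, rfl⟩
  obtain ⟨r2, hr2⟩ : ∃ p, p = φ 1 0 * φ 2 1 - φ 1 1 * φ 2 0 := ⟨_, rfl⟩
  have e1 : p2 = 0 := by rw [hp2]; linear_combination h1
  have e2 : q2 = 2 * p1 := by rw [hq2, hp1]; linear_combination h2
  have e3 : 2 * p0 + q1 + 2 * r2 = 0 := by rw [hp0, hq1, hr2]; linear_combination h3
  have e4 : p0 + 3 * q1 + r2 = 0 := by rw [hp0, hq1, hr2]; linear_combination -h4
  have e5 : q0 = 2 * r1 := by rw [hq0, hr1]; linear_combination h5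
  have e6 : r0 = 0 := by rw [hr0]; linear_combination h6
  have e7 : q1 = 0 := by linear_combination (2 / 5 : ℂ) * e4 - (1 / 5 : ℂ) * e3
  have e8 : r2 = -p0 := by linear_combination e4 - 3 * e7
  obtain ⟨D, hD⟩ : ∃ D, D = φ 0 0 * r0 + φ 0 1 * r1 + φ 0 2 * r2 := ⟨_, rfl⟩
  have k0 : D ^ 2 = p0 * (q1 * r2 - q2 * r1) - p1 * (q0 * r2 - q2 * r0) + p2 * (q0 * r1 - q1 * r0) := by
    rw [hD, hp0, hp1, hp2, hq0, hq1, hq2, hr0, hr1, hr2]; ring
  have k1 : D = 0 := by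
    have : D ^ 2 = 0 := by
      rw [k0, e1, e2, e5, e6, e7, e8]; ring
    exact pow_eq_zero_iff (two_ne_zero) |>.1 this
  have l1 : p0 * r2 - p2 * r0 = -(D * φ 1 1) := by
    rw [hD, hp0, hp2, hr0, hr1, hr2]; ring
  have l2 : p1 * q2 - p2 * q1 = D * φ 0 0 := by
    rw [hD, hp1, hp2, hq1, hq2, hr0, hr1, hr2]; ring
  have l3 : q0 * r1 - q1 * r0 = D * φ 2 2 := by
    rw [hD, hq0, hq1, hr0, hr1, hr2]; ring
  have m0 : p0 = 0 := by
    have : p0 ^ 2 = 0 := by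
      rw [k1, e1, e6, e8] at l1; linear_combination -l1
    exact pow_eq_zero_iff (two_ne_zero) |>.1 this
  have m1 : p1 = 0 := by
    have : p1 ^ 2 = 0 := by
      rw [k1, e1, e2, e7] at l2; linear_combination (1 / 2 : ℂ) * l2
    exact pow_eq_zero_iff (two_ne_zero) |>.1 this
  have m2 : r1 = 0 := by
    have : r1 ^ 2 = 0 := by
      rw [k1, e5, e6, e7] at l3; linear_combination (1 / 2 : ℂ) * l3
    exact pow_eq_zero_iff (two_ne_zero) |>.1 this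
  rw [m1] at e2
  rw [m2] at e5
  rw [m0] at e8
  refine ⟨⟨?_, ?_, ?_⟩, ⟨?_, ?_, ?_⟩, ⟨?_, ?_, ?_⟩⟩
  · linear_combination e1 - hp2
  · linear_combination hp1 - m1
  · linear_combination m0 - hp0
  · linear_combination e2 - hq2
  · linear_combination hq1 - e7
  · linear_combination e5 - hq0
  · linear_combination e8 - hr2
  · linear_combination hr1 - m2
  · linear_combination e6 - hr0

/-- rank one -/
theorem rank1 {v0 v1 v2 : Fin 3 → ℂ}
    (h01 : v0 0 * v1 1 = v0 1 * v1 0 ∧ v0 0 * v1 2 = v0 2 * v1 0 ∧ v0 1 * v1 2 = v0 2 * v1 1)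
    (h02 : v0 0 * v2 1 = v0 1 * v2 0 ∧ v0 0 * v2 2 = v0 2 * v2 0 ∧ v0 1 * v2 2 = v0 2 * v2 1)
    (h12 : v1 0 * v2 1 = v1 1 * v2 0 ∧ v1 0 * v2 2 = v1 2 * v2 0 ∧ v1 1 * v2 2 = v1 2 * v2 1)
    (h0 : ¬ (v0 = 0 ∧ v1 = 0 ∧ v2 = 0)) :
    ∃ (w : Fin 3 → ℂ) (c0 c1 c2 : ℂ), w ≠ 0 ∧ ¬ (c0 = 0 ∧ c1 = 0 ∧ c2 = 0) ∧
      (∀ i, v0 i = c0 * w i) ∧ (∀ i, v1 i = c1 * w i) ∧ ∀ i, v2 i = c2 * w i := by
  by_cases z0 : v0 = 0
  · by_cases z1 : v1 = 0
    · have z2 : v2 ≠ 0 := fun z2 => h0 ⟨z0, z1, z2⟩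
      refine ⟨v2, 0, 0, 1, z2, fun h => one_ne_zero h.2.2, ?_, ?_, ?_⟩
      · intro i; rw [z0]; simp
      · intro i; rw [z1]; simp
      · intro i; ring
    · obtain ⟨c, hc⟩ := mul_of_cross z1 h12.1 h12.2.1 h12.2.2
      refine ⟨v1, 0, 1, c, z1, fun h => one_ne_zero h.2.1, ?_, ?_, hc⟩
      · intro i; rw [z0]; simp
      · intro i; ring
  · obtain ⟨c, hc⟩ := mul_of_cross z0 h01.1 h01.2.1 h01.2.2
    obtain ⟨c', hc'⟩ := mul_of_cross z0 h02.1 h02.2.1 h02.2.2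
    refine ⟨v0, 1, c, c', z0, fun h => one_ne_zero h.1, ?_, hc, hc'⟩
    intro i; ring

/-- a product of polynomial functions which vanishes -/
theorem poly3 (p q r : Polynomial ℂ) (h : ∀ s, p.eval s * q.eval s * r.eval s = 0) (hp : p ≠ 0)
    (hq : q ≠ 0) (s : ℂ) : r.eval s = 0 := by
  have h1 : p * q * r = 0 := by
    apply Polynomial.funext
    intro s
    rw [Polynomial.eval_mul, Polynomial.eval_mul, h, Polynomial.eval_zero]
  have h2 := (mul_eq_zero.1 h1).resolve_left (mul_ne_zero hp hq)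
  rw [h2, Polynomial.eval_zero]

set_option maxHeartbeats 4000000 in
theorem caseA {φ : Fin 8 → Fin 5 → ℂ} (H : Ids φ) {w : Fin 3 → ℂ} {c0 c1 c2 : ℂ} (hw : w ≠ 0)
    (hc : ¬ (c0 = 0 ∧ c1 = 0 ∧ c2 = 0))
    (h0 : φ 0 0 = c0 * w 0 ∧ φ 0 1 = c0 * w 1 ∧ φ 0 2 = c0 * w 2)
    (h1 : φ 1 0 = c1 * w 0 ∧ φ 1 1 = c1 * w 1 ∧ φ 1 2 = c1 * w 2)
    (h2 : φ 2 0 = c2 * w 0 ∧ φ 2 1 = c2 * w 1 ∧ φ 2 2 = c2 * w 2) :
    ∃ u : Fin 5 → ℂ, u ≠ 0 ∧ ∀ p, ∑ i, φ p i * u i = 0 := by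
  obtain ⟨h00, h01, h02⟩ := h0
  obtain ⟨h10, h11, h12⟩ := h1
  obtain ⟨h20, h21, h22⟩ := h2
  -- polynomials
  let X' : Polynomial ℂ := Polynomial.X
  let K : ℂ → Polynomial ℂ := fun c => Polynomial.C c
  let pa : Polynomial ℂ := X' * K c0 + K c1
  let pb : Polynomial ℂ := X' * K c1 + K c2
  let pU : Fin 3 → Polynomial ℂ := ![K (w 1) * X' ^ 2 + K 2 * K (w 2) * X', K (w 2) - K (w 0) * X' ^ 2,
    -(K 2 * K (w 0) * X') - K (w 1)]
  let g : Fin 3 → Polynomial ℂ := ![X' ^ 3 * K (φ 6 0) - X' ^ 2 * K (φ 5 0) + X' * K (φ 4 0) - K (φ 3 0),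
    X' ^ 3 * K (φ 6 1) - X' ^ 2 * K (φ 5 1) + X' * K (φ 4 1) - K (φ 3 1),
    X' ^ 3 * K (φ 6 2) - X' ^ 2 * K (φ 5 2) + X' * K (φ 4 2) - K (φ 3 2)]
  let pW : Fin 3 → Polynomial ℂ := ![K (w 1) * g 2 - K (w 2) * g 1, K (w 2) * g 0 - K (w 0) * g 2,
    K (w 0) * g 1 - K (w 1) * g 0]
  have hE : ∀ s m n, Polynomial.eval s pa * Polynomial.eval s (pU m) * Polynomial.eval s (pW n) = 0 ∧
      Polynomial.eval s pb * Polynomial.eval s (pU m) * Polynomial.eval s (pW n) = 0 := by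
    intro s m n
    have a123 := cmu H s 1 1 2 3
    have a203 := cmu H s 1 2 0 3
    have a013 := cmu H s 1 0 1 3
    have a124 := cmu H s 1 1 2 4
    have a204 := cmu H s 1 2 0 4
    have a014 := cmu H s 1 0 1 4
    have a034 := cmu H s 1 0 3 4
    have a134 := cmu H s 1 1 3 4
    have a234 := cmu H s 1 2 3 4
    simp [d3, ev_val, h00, h01, h02, h10, h11, h12, h20, h21, h22] at a123 a203 a013 a124 a204 a014 a034 a134 a234
    apply core (a4 := s * φ 0 3 + φ 1 3) (a5 := s * φ 0 4 + φ 1 4) (b4 := s * φ 1 3 + φ 2 3)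
      (b5 := s * φ 1 4 + φ 2 4) (U := fun m => Polynomial.eval s (pU m))
      (W := fun n => Polynomial.eval s (pW n))
    · intro j
      fin_cases j
      · simp [pa, pb, pU, pW, g, K, X']
        linear_combination -a123
      · simp [pa, pb, pU, pW, g, K, X']
        linear_combination -a203
      · simp [pa, pb, pU, pW, g, K, X']
        linear_combination -a013
    · intro j
      fin_cases j
      · simp [pa, pb, pU, pW, g, K, X']
        linear_combination a124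
      · simp [pa, pb, pU, pW, g, K, X']
        linear_combination a204
      · simp [pa, pb, pU, pW, g, K, X']
        linear_combination a014
    · intro j
      fin_cases j
      · simp [pU, pW, g, K, X']
        linear_combination w 1 * a234 - w 2 * a134
      · simp [pU, pW, g, K, X']
        linear_combination w 2 * a034 - w 0 * a234
      · simp [pU, pW, g, K, X']
        linear_combination w 0 * a134 - w 1 * a034
  have hU : ∃ m, pU m ≠ 0 := by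
    by_contra hcon
    push Not at hcon
    have z0 := hcon 0
    have z1 := hcon 1
    apply hw
    have y1 := congrArg (Polynomial.eval 1) z0
    have y2 := congrArg (Polynomial.eval (-1)) z0
    have y3 := congrArg (Polynomial.eval 0) z1
    have y4 := congrArg (Polynomial.eval 1) z1
    simp [pU, K, X'] at y1 y2 y3 y4
    funext i
    fin_cases i
    · show w 0 = 0
      linear_combination y3 - y4
    · show w 1 = 0
      linear_combination (1 / 2 : ℂ) * y1 + (1 / 2 : ℂ) * y2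
    · exact y3
  obtain ⟨m, hm⟩ := hU
  have hab : pa ≠ 0 ∨ pb ≠ 0 := by
    by_contra hcon
    push Not at hcon
    obtain ⟨z0, z1⟩ := hcon
    have y1 := congrArg (Polynomial.eval 0) z0
    have y2 := congrArg (Polynomial.eval 1) z0
    have y3 := congrArg (Polynomial.eval 0) z1
    simp [pa, pb, K, X'] at y1 y2 y3
    apply hc
    refine ⟨?_, y1, y3⟩
    linear_combination y2 - y1
  have hW : ∀ n s, Polynomial.eval s (pW n) = 0 := by
    intro n s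
    rcases hab with h | h
    · exact poly3 pa (pU m) (pW n) (fun s => (hE s m n).1) h hm s
    · exact poly3 pb (pU m) (pW n) (fun s => (hE s m n).2) h hm s
  have ext : ∀ x3 x2 x1 x0 : ℂ, (∀ s : ℂ, s ^ 3 * x3 - s ^ 2 * x2 + s * x1 - x0 = 0) →
      x3 = 0 ∧ x2 = 0 ∧ x1 = 0 ∧ x0 = 0 := by
    intro x3 x2 x1 x0 h
    have e0 := h 0
    have e1 := h 1
    have e2 := h (-1)
    have e3 := h 2
    norm_num at e0 e1 e2 e3
    refine ⟨?_, ?_, ?_, ?_⟩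
    · linear_combination (1 / 6 : ℂ) * e3 - (1 / 2 : ℂ) * e1 - (1 / 6 : ℂ) * e2 - (1 / 2 : ℂ) * e0
    · linear_combination -(1 / 2 : ℂ) * e1 - (1 / 2 : ℂ) * e2 - e0
    · linear_combination -(1 / 6 : ℂ) * e3 + e1 - (1 / 3 : ℂ) * e2 + (1 / 2 : ℂ) * e0
    · linear_combination e0
  have k0 := ext (w 1 * φ 6 2 - w 2 * φ 6 1) (w 1 * φ 5 2 - w 2 * φ 5 1)
    (w 1 * φ 4 2 - w 2 * φ 4 1) (w 1 * φ 3 2 - w 2 * φ 3 1) (by
      intro s
      have h := hW 0 s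
      simp [pW, g, K, X'] at h
      linear_combination h)
  have k1 := ext (w 2 * φ 6 0 - w 0 * φ 6 2) (w 2 * φ 5 0 - w 0 * φ 5 2)
    (w 2 * φ 4 0 - w 0 * φ 4 2) (w 2 * φ 3 0 - w 0 * φ 3 2) (by
      intro s
      have h := hW 1 s
      simp [pW, g, K, X'] at h
      linear_combination h)
  have k2 := ext (w 0 * φ 6 1 - w 1 * φ 6 0) (w 0 * φ 5 1 - w 1 * φ 5 0)
    (w 0 * φ 4 1 - w 1 * φ 4 0) (w 0 * φ 3 1 - w 1 * φ 3 0) (by
      intro s
      have h := hW 2 s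
      simp [pW, g, K, X'] at h
      linear_combination h)
  obtain ⟨a6, a5, a4, a3⟩ := k0
  obtain ⟨b6, b5, b4, b3⟩ := k1
  obtain ⟨d6, d5, d4, d3'⟩ := k2
  obtain ⟨γ3, g3⟩ := mul_of_cross (v := ![φ 3 0, φ 3 1, φ 3 2]) hw
    (by show w 0 * φ 3 1 = w 1 * φ 3 0; linear_combination d3')
    (by show w 0 * φ 3 2 = w 2 * φ 3 0; linear_combination -b3)
    (by show w 1 * φ 3 2 = w 2 * φ 3 1; linear_combination a3)
  obtain ⟨γ4, g4⟩ := mul_of_cross (v := ![φ 4 0, φ 4 1, φ 4 2]) hw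
    (by show w 0 * φ 4 1 = w 1 * φ 4 0; linear_combination d4)
    (by show w 0 * φ 4 2 = w 2 * φ 4 0; linear_combination -b4)
    (by show w 1 * φ 4 2 = w 2 * φ 4 1; linear_combination a4)
  obtain ⟨γ5, g5⟩ := mul_of_cross (v := ![φ 5 0, φ 5 1, φ 5 2]) hw
    (by show w 0 * φ 5 1 = w 1 * φ 5 0; linear_combination d5)
    (by show w 0 * φ 5 2 = w 2 * φ 5 0; linear_combination -b5)
    (by show w 1 * φ 5 2 = w 2 * φ 5 1; linear_combination a5)
  obtain ⟨γ6, g6⟩ := mul_of_cross (v := ![φ 6 0, φ 6 1, φ 6 2]) hw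
    (by show w 0 * φ 6 1 = w 1 * φ 6 0; linear_combination d6)
    (by show w 0 * φ 6 2 = w 2 * φ 6 0; linear_combination -b6)
    (by show w 1 * φ 6 2 = w 2 * φ 6 1; linear_combination a6)
  apply cone_of w ![φ 7 0, φ 7 1, φ 7 2] ![c0, c1, c2, γ3, γ4, γ5, γ6, 0] ![0, 0, 0, 0, 0, 0, 0, 1]
  intro p
  fin_cases p
  · simp [h00, h01, h02]
  · simp [h10, h11, h12]
  · simp [h20, h21, h22]
  · have t0 : φ 3 0 = γ3 * w 0 := g3 0
    have t1 : φ 3 1 = γ3 * w 1 := g3 1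
    have t2 : φ 3 2 = γ3 * w 2 := g3 2
    simp [t0, t1, t2]
  · have t0 : φ 4 0 = γ4 * w 0 := g4 0
    have t1 : φ 4 1 = γ4 * w 1 := g4 1
    have t2 : φ 4 2 = γ4 * w 2 := g4 2
    simp [t0, t1, t2]
  · have t0 : φ 5 0 = γ5 * w 0 := g5 0
    have t1 : φ 5 1 = γ5 * w 1 := g5 1
    have t2 : φ 5 2 = γ5 * w 2 := g5 2
    simp [t0, t1, t2]
  · have t0 : φ 6 0 = γ6 * w 0 := g6 0
    have t1 : φ 6 1 = γ6 * w 1 := g6 1
    have t2 : φ 6 2 = γ6 * w 2 := g6 2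
    simp [t0, t1, t2]
  · simp

theorem ext5 (x0 x1 x2 x3 x4 x5 : ℂ) (h : ∀ s : ℂ,
    x0 + s * x1 + s ^ 2 * x2 + s ^ 3 * x3 + s ^ 4 * x4 + s ^ 5 * x5 = 0) :
    x0 = 0 ∧ x1 = 0 ∧ x2 = 0 ∧ x3 = 0 ∧ x4 = 0 ∧ x5 = 0 := by
  have e0 := h 0
  have e1 := h 1
  have e2 := h (-1)
  have e3 := h 2
  have e4 := h (-2)
  have e5 := h 3
  refine ⟨?_, ?_, ?_, ?_, ?_, ?_⟩
  · linear_combination e0
  · linear_combination (-1/3 : ℂ) * e0 + (1 : ℂ) * e1 + (-1/2 : ℂ) * e2 + (-1/4 : ℂ) * e3 + (1/20 : ℂ) * e4 + (1/30 : ℂ) * e5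
  · linear_combination (-5/4 : ℂ) * e0 + (2/3 : ℂ) * e1 + (2/3 : ℂ) * e2 + (-1/24 : ℂ) * e3 + (-1/24 : ℂ) * e4
  · linear_combination (5/12 : ℂ) * e0 + (-7/12 : ℂ) * e1 + (-1/24 : ℂ) * e2 + (7/24 : ℂ) * e3 + (-1/24 : ℂ) * e4 + (-1/24 : ℂ) * e5
  · linear_combination (1/4 : ℂ) * e0 + (-1/6 : ℂ) * e1 + (-1/6 : ℂ) * e2 + (1/24 : ℂ) * e3 + (1/24 : ℂ) * e4
  · linear_combination (-1/12 : ℂ) * e0 + (1/12 : ℂ) * e1 + (1/24 : ℂ) * e2 + (-1/24 : ℂ) * e3 + (-1/120 : ℂ) * e4 + (1/120 : ℂ) * e5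

end Pool.Agent.Helper35.LX
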