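import Pool.Agent.Helper35.LX.AlgA

/-! LX-8b: the identities `Ids φ` force a common zero of the `φ p`, up to one exception: `alg1`, `alg2`. -/

set_option autoImplicit false

namespace Pool.Agent.Helper35.LX

open MvPolynomial
open scoped BigOperators
open Pool.Agent.Helper71.FL (w12 pf ct Dec Closed dd)
open Pool.Agent.Helper71.FC
open Pool.Agent.Helper93 (lsub lmap OF pb)

set_option maxHeartbeats 4000000 in
/-- the general statement -/
theorem alg1 {φ : Fin 8 → Fin 5 → ℂ} (H : Ids φ)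
    (hnc : ¬ ∃ u : Fin 5 → ℂ, u ≠ 0 ∧ ∀ p, ∑ i, φ p i * u i = 0) :
    (φ 0 0 = 0 ∧ φ 0 1 = 0 ∧ φ 0 2 = 0) ∧ (φ 1 0 = 0 ∧ φ 1 1 = 0 ∧ φ 1 2 = 0) ∧
    (φ 2 0 = 0 ∧ φ 2 1 = 0 ∧ φ 2 2 = 0) ∧ φ 1 4 = - φ 0 3 ∧ φ 2 4 = - φ 1 3 ∧
    φ 0 3 ^ 2 + φ 0 4 * φ 1 3 = 0 ∧ φ 0 3 * φ 1 3 + φ 0 4 * φ 2 3 = 0 ∧
    φ 1 3 ^ 2 = φ 0 3 * φ 2 3 := by
  obtain ⟨⟨s1, s2, s3⟩, ⟨s4, s5, s6⟩, ⟨s7, s8, s9⟩⟩ := step0 H
  by_cases hz : (![φ 0 0, φ 0 1, φ 0 2] = 0 ∧ ![φ 1 0, φ 1 1, φ 1 2] = 0 ∧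
    ![φ 2 0, φ 2 1, φ 2 2] = 0)
  · obtain ⟨z0, z1, z2⟩ := hz
    have h00 : φ 0 0 = 0 := congrFun z0 0
    have h01 : φ 0 1 = 0 := congrFun z0 1
    have h02 : φ 0 2 = 0 := congrFun z0 2
    have h10 : φ 1 0 = 0 := congrFun z1 0
    have h11 : φ 1 1 = 0 := congrFun z1 1
    have h12 : φ 1 2 = 0 := congrFun z1 2
    have h20 : φ 2 0 = 0 := congrFun z2 0
    have h21 : φ 2 1 = 0 := congrFun z2 1
    have h22 : φ 2 2 = 0 := congrFun z2 2
    refine ⟨⟨h00, h01, h02⟩, ⟨h10, h11, h12⟩, ⟨h20, h21, h22⟩, ?_⟩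
    have key : ∀ s : ℂ,
        ((s * φ 0 3 + φ 1 3) * (s * φ 1 4 + φ 2 4) - (s * φ 0 4 + φ 1 4) * (s * φ 1 3 + φ 2 3)) =
          (s * (φ 0 3 + φ 1 4) + (φ 1 3 + φ 2 4)) *
            (s ^ 3 * φ 6 0 - s ^ 2 * φ 5 0 + s * φ 4 0 - φ 3 0) ∧
        ((s * φ 0 3 + φ 1 3) * (s * φ 1 4 + φ 2 4) - (s * φ 0 4 + φ 1 4) * (s * φ 1 3 + φ 2 3)) *
          (-(2 * s)) = (s * (φ 0 3 + φ 1 4) + (φ 1 3 + φ 2 4)) *
            (s ^ 3 * φ 6 1 - s ^ 2 * φ 5 1 + s * φ 4 1 - φ 3 1) ∧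
        ((s * φ 0 3 + φ 1 3) * (s * φ 1 4 + φ 2 4) - (s * φ 0 4 + φ 1 4) * (s * φ 1 3 + φ 2 3)) *
          s ^ 2 = (s * (φ 0 3 + φ 1 4) + (φ 1 3 + φ 2 4)) *
            (s ^ 3 * φ 6 2 - s ^ 2 * φ 5 2 + s * φ 4 2 - φ 3 2) := by
      intro s
      have a034 := cmu H s 1 0 3 4
      have a134 := cmu H s 1 1 3 4
      have a234 := cmu H s 1 2 3 4
      simp [d3, ev_val, h00, h01, h02, h10, h11, h12, h20, h21, h22] at a034 a134 a234
      refine ⟨?_, ?_, ?_⟩
      · linear_combination a034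
      · linear_combination a134
      · linear_combination a234
    by_cases hm : φ 0 3 + φ 1 4 = 0 ∧ φ 1 3 + φ 2 4 = 0
    · obtain ⟨m1, m2⟩ := hm
      have e1 : φ 1 4 = - φ 0 3 := by linear_combination m1
      have e2 : φ 2 4 = - φ 1 3 := by linear_combination m2
      have k0 := (key 0).1
      have k1 := (key 1).1
      have k2 := (key (-1)).1
      rw [m1, m2, e1, e2] at k0 k1 k2
      refine ⟨e1, e2, ?_, ?_, ?_⟩
      · linear_combination -(1 / 2 : ℂ) * k1 - (1 / 2 : ℂ) * k2 + k0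
      · linear_combination -(1 / 2 : ℂ) * k1 + (1 / 2 : ℂ) * k2
      · linear_combination -k0
    · exfalso
      obtain ⟨pm, hpm⟩ : ∃ pm : Polynomial ℂ, pm = Polynomial.X * Polynomial.C (φ 0 3 + φ 1 4) +
        Polynomial.C (φ 1 3 + φ 2 4) := ⟨_, rfl⟩
      have hpe : ∀ s, Polynomial.eval s pm = s * (φ 0 3 + φ 1 4) + (φ 1 3 + φ 2 4) := by
        intro s; rw [hpm]; simp
      have hp0 : pm ≠ 0 := by
        intro h0
        apply hm
        have y0 := hpe 0
        have y1 := hpe 1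
        rw [h0] at y0 y1
        simp only [Polynomial.eval_zero] at y0 y1
        have y2 : φ 1 3 + φ 2 4 = 0 := by linear_combination -y0
        exact ⟨by linear_combination -y1 - y2, y2⟩
      have q1 : ∀ s : ℂ, (s ^ 3 * φ 6 1 - s ^ 2 * φ 5 1 + s * φ 4 1 - φ 3 1) +
          2 * s * (s ^ 3 * φ 6 0 - s ^ 2 * φ 5 0 + s * φ 4 0 - φ 3 0) = 0 := by
        intro s
        have h := poly3 pm 1
          ((Polynomial.X ^ 3 * Polynomial.C (φ 6 1) - Polynomial.X ^ 2 * Polynomial.C (φ 5 1) +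
            Polynomial.X * Polynomial.C (φ 4 1) - Polynomial.C (φ 3 1)) + 2 * Polynomial.X *
            (Polynomial.X ^ 3 * Polynomial.C (φ 6 0) - Polynomial.X ^ 2 * Polynomial.C (φ 5 0) +
            Polynomial.X * Polynomial.C (φ 4 0) - Polynomial.C (φ 3 0))) (by
            intro s
            rw [hpe s]
            simp only [Polynomial.eval_one, Polynomial.eval_add, Polynomial.eval_sub,
              Polynomial.eval_mul, Polynomial.eval_pow, Polynomial.eval_X, Polynomial.eval_C,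
              Polynomial.eval_ofNat]
            linear_combination -2 * s * (key s).1 - (key s).2.1) hp0 one_ne_zero s
        simp at h
        linear_combination h
      have q2 : ∀ s : ℂ, (s ^ 3 * φ 6 2 - s ^ 2 * φ 5 2 + s * φ 4 2 - φ 3 2) -
          s ^ 2 * (s ^ 3 * φ 6 0 - s ^ 2 * φ 5 0 + s * φ 4 0 - φ 3 0) = 0 := by
        intro s
        have h := poly3 pm 1
          ((Polynomial.X ^ 3 * Polynomial.C (φ 6 2) - Polynomial.X ^ 2 * Polynomial.C (φ 5 2) +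
            Polynomial.X * Polynomial.C (φ 4 2) - Polynomial.C (φ 3 2)) - Polynomial.X ^ 2 *
            (Polynomial.X ^ 3 * Polynomial.C (φ 6 0) - Polynomial.X ^ 2 * Polynomial.C (φ 5 0) +
            Polynomial.X * Polynomial.C (φ 4 0) - Polynomial.C (φ 3 0))) (by
            intro s
            rw [hpe s]
            simp only [Polynomial.eval_one, Polynomial.eval_add, Polynomial.eval_sub,
              Polynomial.eval_mul, Polynomial.eval_pow, Polynomial.eval_X, Polynomial.eval_C]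
            linear_combination s ^ 2 * (key s).1 - (key s).2.2) hp0 one_ne_zero s
        simp at h
        linear_combination h
      obtain ⟨x0, x1, x2, x3, x4, -⟩ := ext5 (-φ 3 1) (φ 4 1 - 2 * φ 3 0) (-φ 5 1 + 2 * φ 4 0)
        (φ 6 1 - 2 * φ 5 0) (2 * φ 6 0) 0 (by intro s; linear_combination q1 s)
      obtain ⟨y0, y1, y2, y3, y4, y5⟩ := ext5 (-φ 3 2) (φ 4 2) (-φ 5 2 + φ 3 0)
        (φ 6 2 - φ 4 0) (φ 5 0) (-φ 6 0) (by intro s; linear_combination q2 s)
      have z60 : φ 6 0 = 0 := by linear_combination -y5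
      have z61 : φ 6 1 = 0 := by linear_combination x3 + 2 * y4
      have z31 : φ 3 1 = 0 := by linear_combination -x0
      have z32 : φ 3 2 = 0 := by linear_combination -y0
      have z51 : φ 5 1 = 2 * φ 4 0 := by linear_combination -x2
      have z41 : φ 4 1 = 2 * φ 3 0 := by linear_combination x1
      have z62 : φ 6 2 = φ 4 0 := by linear_combination y3
      have z52 : φ 5 2 = φ 3 0 := by linear_combination -y2
      have t5 := id_q2l5 H 0 2 4
      have t4 := id_q2l4 H 0 2 3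
      simp [d3, ev_val, h00, h01, h02, h10, h11, h12, h20, h21, h22, z60, z61, z31, z32, z51, z41,
        z62, z52, y4, y1] at t5 t4
      have u1 : φ 4 0 = 0 := t5
      have u2 : φ 3 0 = 0 := t4
      rw [u1] at z51 z62
      rw [u2] at z41 z52
      rw [mul_zero] at z51 z41
      apply hnc
      apply cone_of 0 ![φ 7 0, φ 7 1, φ 7 2] 0 ![0, 0, 0, 0, 0, 0, 0, 1]
      intro p
      fin_cases p
      · simp [h00, h01, h02]
      · simp [h10, h11, h12]
      · simp [h20, h21, h22]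
      · simp [u2, z31, z32]
      · simp [u1, z41, y1]
      · simp [y4, z51, z52]
      · simp [z60, z61, z62]
      · simp
  · exfalso
    obtain ⟨w, c0, c1, c2, hw, hc, f0, f1, f2⟩ := rank1 (v0 := ![φ 0 0, φ 0 1, φ 0 2])
      (v1 := ![φ 1 0, φ 1 1, φ 1 2]) (v2 := ![φ 2 0, φ 2 1, φ 2 2]) ⟨s1, s2, s3⟩ ⟨s4, s5, s6⟩
      ⟨s7, s8, s9⟩ hz
    exact hnc (caseA H hw hc ⟨f0 0, f0 1, f0 2⟩ ⟨f1 0, f1 1, f1 2⟩ ⟨f2 0, f2 1, f2 2⟩)

/-- vanishing cross product -/
def CZ (v w : Fin 3 → ℂ) : Prop :=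
  v 0 * w 1 = v 1 * w 0 ∧ v 0 * w 2 = v 2 * w 0 ∧ v 1 * w 2 = v 2 * w 1

theorem CZ.symm {v w : Fin 3 → ℂ} (h : CZ v w) : CZ w v :=
  ⟨by linear_combination -h.1, by linear_combination -h.2.1, by linear_combination -h.2.2⟩

theorem CZ.mul {v w : Fin 3 → ℂ} (h : CZ v w) (hv : v ≠ 0) : ∃ c : ℂ, ∀ i, w i = c * v i :=
  mul_of_cross hv h.1 h.2.1 h.2.2

theorem rank4 {v0 v1 v2 v3 : Fin 3 → ℂ} (h01 : CZ v0 v1) (h02 : CZ v0 v2) (h03 : CZ v0 v3)
    (h12 : CZ v1 v2) (h13 : CZ v1 v3) (h23 : CZ v2 v3) :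
    ∃ (w : Fin 3 → ℂ) (c0 c1 c2 c3 : ℂ), (∀ i, v0 i = c0 * w i) ∧ (∀ i, v1 i = c1 * w i) ∧
      (∀ i, v2 i = c2 * w i) ∧ ∀ i, v3 i = c3 * w i := by
  by_cases z0 : v0 = 0
  · by_cases z1 : v1 = 0
    · by_cases z2 : v2 = 0
      · exact ⟨v3, 0, 0, 0, 1, fun i => by rw [z0]; simp, fun i => by rw [z1]; simp,
          fun i => by rw [z2]; simp, fun i => by ring⟩
      · obtain ⟨c, hc⟩ := h23.mul z2
        exact ⟨v2, 0, 0, 1, c, fun i => by rw [z0]; simp, fun i => by rw [z1]; simp,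
          fun i => by ring, hc⟩
    · obtain ⟨c, hc⟩ := h12.mul z1
      obtain ⟨c', hc'⟩ := h13.mul z1
      exact ⟨v1, 0, 1, c, c', fun i => by rw [z0]; simp, fun i => by ring, hc, hc'⟩
  · obtain ⟨c, hc⟩ := h01.mul z0
    obtain ⟨c', hc'⟩ := h02.mul z0
    obtain ⟨c'', hc''⟩ := h03.mul z0
    exact ⟨v0, 1, c, c', c'', fun i => by ring, hc, hc', hc''⟩

theorem zero_of_CZ {v a b : Fin 3 → ℂ} (ha : CZ v a) (hb : CZ v b) (h : ¬ CZ a b) : v = 0 := by
  by_contra hv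
  obtain ⟨c, hc⟩ := ha.mul hv
  obtain ⟨c', hc'⟩ := hb.mul hv
  apply h
  refine ⟨?_, ?_, ?_⟩ <;> rw [hc, hc, hc', hc'] <;> ring

set_option maxHeartbeats 4000000 in
/-- the exceptional case -/
theorem alg2 {φ : Fin 8 → Fin 5 → ℂ} (H : Ids φ) (h1 : ∀ i, φ 1 i = 0) (h2 : ∀ i, φ 2 i = 0)
    (h0 : ∀ i, i ≠ 4 → φ 0 i = 0) : ∃ u : Fin 5 → ℂ, u ≠ 0 ∧ ∀ p, ∑ i, φ p i * u i = 0 := by
  have h00 := h0 0 (by decide)
  have h01 := h0 1 (by decide)
  have h02 := h0 2 (by decide)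
  have h03 := h0 3 (by decide)
  let g : Fin 8 → Fin 3 → ℂ := fun p => ![φ p 0, φ p 1, φ p 2]
  have c36 : CZ (g 3) (g 6) := by
    have a := id_q1l4 H 0 1 3
    have b := id_q1l4 H 0 2 3
    have c := id_q1l4 H 1 2 3
    simp [d3, ev_val, h00, h01, h02, h03, h1, h2] at a b c
    refine ⟨?_, ?_, ?_⟩ <;> show _ * _ = _ * _ <;> simp only [g] <;> simp
    · linear_combination a
    · linear_combination b
    · linear_combination c
  have c46 : CZ (g 4) (g 6) := by
    have a := id_q1l5 H 0 1 3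
    have b := id_q1l5 H 0 2 3
    have c := id_q1l5 H 1 2 3
    simp [d3, ev_val, h00, h01, h02, h03, h1, h2] at a b c
    refine ⟨?_, ?_, ?_⟩ <;> show _ * _ = _ * _ <;> simp only [g] <;> simp
    · linear_combination a
    · linear_combination b
    · linear_combination c
  have c35 : CZ (g 3) (g 5) := by
    have a := id_q2l4 H 0 1 3
    have b := id_q2l4 H 0 2 3
    have c := id_q2l4 H 1 2 3
    simp [d3, ev_val, h00, h01, h02, h03, h1, h2] at a b c
    refine ⟨?_, ?_, ?_⟩ <;> show _ * _ = _ * _ <;> simp only [g] <;> simp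
    · linear_combination a
    · linear_combination b
    · linear_combination c
  have c34 : CZ (g 3) (g 4) := by
    have a := id_q3l4 H 0 1 3
    have b := id_q3l4 H 0 2 3
    have c := id_q3l4 H 1 2 3
    simp [d3, ev_val, h00, h01, h02, h03, h1, h2] at a b c
    refine ⟨?_, ?_, ?_⟩ <;> show _ * _ = _ * _ <;> simp only [g] <;> simp
    · linear_combination a
    · linear_combination b
    · linear_combination c
  have c45 : CZ (g 4) (g 5) := by
    have a := id_q2l5 H 0 1 3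
    have b := id_q2l5 H 0 2 3
    have c := id_q2l5 H 1 2 3
    obtain ⟨a', b', c'⟩ := c36
    simp [d3, ev_val, h00, h01, h02, h03, h1, h2] at a b c
    simp [g] at a' b' c'
    refine ⟨?_, ?_, ?_⟩ <;> show _ * _ = _ * _ <;> simp only [g] <;> simp
    · linear_combination -a - a'
    · linear_combination -b - b'
    · linear_combination -c - c'
  by_cases c56 : CZ (g 5) (g 6)
  · obtain ⟨w, γ3, γ4, γ5, γ6, g3, g4, g5, g6⟩ := rank4 c34 c35 c36 c45 c46 c56
    apply cone_of w ![φ 7 0, φ 7 1, φ 7 2] ![0, 0, 0, γ3, γ4, γ5, γ6, 0] ![0, 0, 0, 0, 0, 0, 0, 1]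
    intro p
    fin_cases p
    · simp [h00, h01, h02]
    · simp [h1]
    · simp [h2]
    · have t0 : φ 3 0 = γ3 * w 0 := g3 0
      have t1 : φ 3 1 = γ3 * w 1 := g3 1
      have t2 : φ 3 2 = γ3 * w 2 := g3 2
      simp [t0, t1, t2]
    · have t0 : φ 4 0 = γ4 * w 0 := g4 0
      have t1 : φ 4 1 = γ4 * w 1 := g4 1
      have t2 : φ 4 2 = γ4 * w 2 := g4 2
      simp [t0, t1, t2]
    · have t0 : φ 5 0 = γ5 * w 0 := g5 0
      have t1 : φ 5 1 = γ5 * w 1 := g5 1
      have t2 : φ 5 2 = γ5 * w 2 := g5 2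
      simp [t0, t1, t2]
    · have t0 : φ 6 0 = γ6 * w 0 := g6 0
      have t1 : φ 6 1 = γ6 * w 1 := g6 1
      have t2 : φ 6 2 = γ6 * w 2 := g6 2
      simp [t0, t1, t2]
    · simp
  · have z3 := zero_of_CZ c35 c36 c56
    have z4 := zero_of_CZ c45 c46 c56
    have h30 : φ 3 0 = 0 := congrFun z3 0
    have h31 : φ 3 1 = 0 := congrFun z3 1
    have h32 : φ 3 2 = 0 := congrFun z3 2
    have h40 : φ 4 0 = 0 := congrFun z4 0
    have h41 : φ 4 1 = 0 := congrFun z4 1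
    have h42 : φ 4 2 = 0 := congrFun z4 2
    have b01 := id_q2l5 H 0 1 4
    have b02 := id_q2l5 H 0 2 4
    have d01 := id_q1l5 H 0 1 4
    have d02 := id_q1l5 H 0 2 4
    have d12 := id_q1l5 H 1 2 4
    have l12 := id_l5l5 H 1 2 3
    have l02 := id_l5l5 H 0 2 3
    simp [d3, ev_val, h00, h01, h02, h03, h1, h2, h30, h31, h32, h40, h41, h42] at b01 b02 d01 d02 d12 l12 l02
    have hκ : φ 0 4 ≠ 0 := by
      intro hk
      rw [hk] at d01 d02 d12
      apply c56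
      refine ⟨?_, ?_, ?_⟩ <;> show _ * _ = _ * _ <;> simp only [g] <;> simp
      · linear_combination (1 / 2 : ℂ) * d01
      · linear_combination (1 / 2 : ℂ) * d02
      · linear_combination (1 / 2 : ℂ) * d12
    have h51 : φ 5 1 = 0 := b01.resolve_left hκ
    have h52 : φ 5 2 = 0 := b02.resolve_left hκ
    have h50 : φ 5 0 ≠ 0 := by
      intro h50
      apply c56
      refine ⟨?_, ?_, ?_⟩ <;> show _ * _ = _ * _ <;> simp only [g] <;> simp [h50, h51, h52]
    rw [h51, h52] at l12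
    rw [h52] at l02
    rw [h52] at d02
    rw [h51] at d01
    have h61 : φ 6 1 ≠ 0 := by
      intro h61
      rw [h61] at d01
      have : φ 0 4 * φ 5 0 = 0 := by linear_combination -d01
      rcases mul_eq_zero.1 this with h | h
      · exact hκ h
      · exact h50 h
    have hne : φ 5 0 - φ 0 4 ≠ 0 := by
      intro h
      have : φ 0 4 * φ 5 0 = 0 := by linear_combination -d01 + 2 * φ 6 1 * h
      rcases mul_eq_zero.1 this with h | h
      · exact hκ h
      · exact h50 h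
    have h62 : φ 6 2 = 0 := by
      have : (φ 5 0 - φ 0 4) * φ 6 2 = 0 := by linear_combination (1 / 2 : ℂ) * d02
      exact (mul_eq_zero.1 this).resolve_left hne
    rw [h62] at l12 l02
    have h33 : φ 3 3 = 0 := by
      have : φ 3 3 * φ 6 1 = 0 := by linear_combination l12
      exact (mul_eq_zero.1 this).resolve_right h61
    rw [h33] at l02
    have h72 : φ 7 2 = 0 := by
      have : φ 5 0 * φ 7 2 = 0 := by linear_combination l02
      exact (mul_eq_zero.1 this).resolve_left h50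
    refine ⟨Pi.single 2 1, ?_, ?_⟩
    · intro h
      have := congrFun h 2
      simp at this
    · intro p
      rw [Finset.sum_eq_single 2]
      · rw [Pi.single_eq_same, mul_one]
        fin_cases p
        · exact h02
        · exact h1 2
        · exact h2 2
        · exact h32
        · exact h42
        · exact h52
        · exact h62
        · exact h72
      · intro j _ hj
        rw [Pi.single_eq_of_ne hj, mul_zero]
      · intro h
        exact absurd (Finset.mem_univ _) h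

end Pool.Agent.Helper35.LX
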