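import Pool.Agent.Helper35.LX.Defs

/-! LX-7: the identities given by `d θ = 0` (generated by a small program, checked by `ring`). -/

set_option autoImplicit false

namespace Pool.Agent.Helper35.LX

open MvPolynomial
open scoped BigOperators
open Pool.Agent.Helper71.FL (w12 pf ct Dec Closed dd)
open Pool.Agent.Helper71.FC
open Pool.Agent.Helper93 (lsub lmap OF pb)

/-- coordinate covectors -/
def ev (m i : Fin 5) : ℂ := if i = m then 1 else 0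

/-- wedge product of three covectors -/
def d3 (a b c : Fin 5 → ℂ) (i j k : Fin 5) : ℂ :=
  a i * (b j * c k - b k * c j) - a j * (b i * c k - b k * c i) + a k * (b i * c j - b j * c i)

/-- directional derivatives of the `DP p r` -/
def dD (x E : Fin 5 → ℂ) : Fin 8 → Fin 8 → ℂ :=
  ![![0,
      2 * x 0 * x 2 * E 0 + x 0 ^ 2 * E 2 - x 1 ^ 2 * E 0 - 2 * x 0 * x 1 * E 1,
      x 1 * x 2 * E 0 + x 0 * x 2 * E 1 + x 0 * x 1 * E 2 - 3 * x 1 ^ 2 * E 1,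
      -(x 2 * x 3 * E 0) - x 0 * x 3 * E 2 - x 0 * x 2 * E 3 + 2 * x 1 * x 3 * E 1 + x 1 ^ 2 * E 3 - x 2 * x 4 * E 1 - x 1 * x 4 * E 2 - x 1 * x 2 * E 4,
      2 * x 1 * x 4 * E 1 + x 1 ^ 2 * E 4,
      -(x 1 * x 4 * E 0) - x 0 * x 4 * E 1 - x 0 * x 1 * E 4,
      2 * x 0 * x 4 * E 0 + x 0 ^ 2 * E 4,
      x 3 * x 4 * E 0 + x 0 * x 4 * E 3 + x 0 * x 3 * E 4 + x 4 ^ 2 * E 1 + 2 * x 1 * x 4 * E 4],
    ![-(2 * x 0 * x 2 * E 0 + x 0 ^ 2 * E 2 - x 1 ^ 2 * E 0 - 2 * x 0 * x 1 * E 1),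
      0,
      x 2 ^ 2 * E 0 + 2 * x 0 * x 2 * E 2 - 2 * x 1 * x 2 * E 1 - x 1 ^ 2 * E 2,
      x 2 * x 3 * E 1 + x 1 * x 3 * E 2 + x 1 * x 2 * E 3 - 2 * x 2 * x 4 * E 2 - x 2 ^ 2 * E 4,
      -(x 2 * x 3 * E 0) - x 0 * x 3 * E 2 - x 0 * x 2 * E 3 + x 2 * x 4 * E 1 + x 1 * x 4 * E 2 + x 1 * x 2 * E 4,
      x 1 * x 3 * E 0 + x 0 * x 3 * E 1 + x 0 * x 1 * E 3 - x 2 * x 4 * E 0 - x 0 * x 4 * E 2 - x 0 * x 2 * E 4,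
      -(2 * x 0 * x 3 * E 0) - x 0 ^ 2 * E 3 + x 1 * x 4 * E 0 + x 0 * x 4 * E 1 + x 0 * x 1 * E 4,
      -(x 3 ^ 2 * E 0) - 2 * x 0 * x 3 * E 3 + x 4 ^ 2 * E 2 + 2 * x 2 * x 4 * E 4],
    ![-(x 1 * x 2 * E 0 + x 0 * x 2 * E 1 + x 0 * x 1 * E 2 - 3 * x 1 ^ 2 * E 1),
      -(x 2 ^ 2 * E 0 + 2 * x 0 * x 2 * E 2 - 2 * x 1 * x 2 * E 1 - x 1 ^ 2 * E 2),
      0,
      2 * x 2 * x 3 * E 2 + x 2 ^ 2 * E 3,
      -(x 2 * x 3 * E 1) - x 1 * x 3 * E 2 - x 1 * x 2 * E 3,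
      2 * x 1 * x 3 * E 1 + x 1 ^ 2 * E 3,
      -(x 1 * x 3 * E 0) - x 0 * x 3 * E 1 - x 0 * x 1 * E 3 - x 2 * x 4 * E 0 - x 0 * x 4 * E 2 - x 0 * x 2 * E 4 + 2 * x 1 * x 4 * E 1 + x 1 ^ 2 * E 4,
      -(x 3 ^ 2 * E 1) - 2 * x 1 * x 3 * E 3 - x 3 * x 4 * E 2 - x 2 * x 4 * E 3 - x 2 * x 3 * E 4],
    ![-(-(x 2 * x 3 * E 0) - x 0 * x 3 * E 2 - x 0 * x 2 * E 3 + 2 * x 1 * x 3 * E 1 + x 1 ^ 2 * E 3 - x 2 * x 4 * E 1 - x 1 * x 4 * E 2 - x 1 * x 2 * E 4),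
      -(x 2 * x 3 * E 1 + x 1 * x 3 * E 2 + x 1 * x 2 * E 3 - 2 * x 2 * x 4 * E 2 - x 2 ^ 2 * E 4),
      -(2 * x 2 * x 3 * E 2 + x 2 ^ 2 * E 3),
      0,
      x 3 ^ 2 * E 2 + 2 * x 2 * x 3 * E 3,
      -(x 3 ^ 2 * E 1) - 2 * x 1 * x 3 * E 3 + x 3 * x 4 * E 2 + x 2 * x 4 * E 3 + x 2 * x 3 * E 4,
      x 3 ^ 2 * E 0 + 2 * x 0 * x 3 * E 3 - x 3 * x 4 * E 1 - x 1 * x 4 * E 3 - x 1 * x 3 * E 4 + x 4 ^ 2 * E 2 + 2 * x 2 * x 4 * E 4,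
      3 * x 3 ^ 2 * E 3],
    ![-(2 * x 1 * x 4 * E 1 + x 1 ^ 2 * E 4),
      -(-(x 2 * x 3 * E 0) - x 0 * x 3 * E 2 - x 0 * x 2 * E 3 + x 2 * x 4 * E 1 + x 1 * x 4 * E 2 + x 1 * x 2 * E 4),
      -(-(x 2 * x 3 * E 1) - x 1 * x 3 * E 2 - x 1 * x 2 * E 3),
      -(x 3 ^ 2 * E 2 + 2 * x 2 * x 3 * E 3),
      0,
      -(x 3 * x 4 * E 1) - x 1 * x 4 * E 3 - x 1 * x 3 * E 4,
      x 3 * x 4 * E 0 + x 0 * x 4 * E 3 + x 0 * x 3 * E 4 - x 4 ^ 2 * E 1 - 2 * x 1 * x 4 * E 4,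
      2 * x 3 * x 4 * E 3 + x 3 ^ 2 * E 4],
    ![-(-(x 1 * x 4 * E 0) - x 0 * x 4 * E 1 - x 0 * x 1 * E 4),
      -(x 1 * x 3 * E 0 + x 0 * x 3 * E 1 + x 0 * x 1 * E 3 - x 2 * x 4 * E 0 - x 0 * x 4 * E 2 - x 0 * x 2 * E 4),
      -(2 * x 1 * x 3 * E 1 + x 1 ^ 2 * E 3),
      -(-(x 3 ^ 2 * E 1) - 2 * x 1 * x 3 * E 3 + x 3 * x 4 * E 2 + x 2 * x 4 * E 3 + x 2 * x 3 * E 4),
      -(-(x 3 * x 4 * E 1) - x 1 * x 4 * E 3 - x 1 * x 3 * E 4),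
      0,
      x 4 ^ 2 * E 0 + 2 * x 0 * x 4 * E 4,
      x 4 ^ 2 * E 3 + 2 * x 3 * x 4 * E 4],
    ![-(2 * x 0 * x 4 * E 0 + x 0 ^ 2 * E 4),
      -(-(2 * x 0 * x 3 * E 0) - x 0 ^ 2 * E 3 + x 1 * x 4 * E 0 + x 0 * x 4 * E 1 + x 0 * x 1 * E 4),
      -(-(x 1 * x 3 * E 0) - x 0 * x 3 * E 1 - x 0 * x 1 * E 3 - x 2 * x 4 * E 0 - x 0 * x 4 * E 2 - x 0 * x 2 * E 4 + 2 * x 1 * x 4 * E 1 + x 1 ^ 2 * E 4),
      -(x 3 ^ 2 * E 0 + 2 * x 0 * x 3 * E 3 - x 3 * x 4 * E 1 - x 1 * x 4 * E 3 - x 1 * x 3 * E 4 + x 4 ^ 2 * E 2 + 2 * x 2 * x 4 * E 4),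
      -(x 3 * x 4 * E 0 + x 0 * x 4 * E 3 + x 0 * x 3 * E 4 - x 4 ^ 2 * E 1 - 2 * x 1 * x 4 * E 4),
      -(x 4 ^ 2 * E 0 + 2 * x 0 * x 4 * E 4),
      0,
      3 * x 4 ^ 2 * E 4],
    ![-(x 3 * x 4 * E 0 + x 0 * x 4 * E 3 + x 0 * x 3 * E 4 + x 4 ^ 2 * E 1 + 2 * x 1 * x 4 * E 4),
      -(-(x 3 ^ 2 * E 0) - 2 * x 0 * x 3 * E 3 + x 4 ^ 2 * E 2 + 2 * x 2 * x 4 * E 4),
      -(-(x 3 ^ 2 * E 1) - 2 * x 1 * x 3 * E 3 - x 3 * x 4 * E 2 - x 2 * x 4 * E 3 - x 2 * x 3 * E 4),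
      -(3 * x 3 ^ 2 * E 3),
      -(2 * x 3 * x 4 * E 3 + x 3 ^ 2 * E 4),
      -(x 4 ^ 2 * E 3 + 2 * x 3 * x 4 * E 4),
      -(3 * x 4 ^ 2 * E 4),
      0]]

theorem eS (x : Fin 5 → ℂ) (i a : Fin 5) :
    eval x ((Pi.single i 1 : Fin 5 → MvPolynomial (Fin 5) ℂ) a) = ev a i := by
  rw [Pi.single_apply]
  unfold ev
  by_cases h : i = a
  · rw [if_pos h.symm, if_pos h, map_one]
  · rw [if_neg (fun h' => h h'.symm), if_neg h, map_zero]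

set_option maxHeartbeats 4000000 in
theorem eval_pderiv_DP (x : Fin 5 → ℂ) (i : Fin 5) (p r : Fin 8) :
    eval x (pderiv i (DP p r)) = dD x (fun m => ev m i) p r := by
  fin_cases p <;> fin_cases r
  · show eval x (pderiv i (0 : MvPolynomial (Fin 5) ℂ)) = 0
    rw [map_zero, map_zero]
  · show eval x (pderiv i (X 0 ^ 2 * X 2 - X 0 * X 1 ^ 2 : MvPolynomial (Fin 5) ℂ)) =
      2 * x 0 * x 2 * ev 0 i + x 0 ^ 2 * ev 2 i - x 1 ^ 2 * ev 0 i - 2 * x 0 * x 1 * ev 1 i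
    simp [eS]; ring
  · show eval x (pderiv i (X 0 * X 1 * X 2 - X 1 ^ 3 : MvPolynomial (Fin 5) ℂ)) =
      x 1 * x 2 * ev 0 i + x 0 * x 2 * ev 1 i + x 0 * x 1 * ev 2 i - 3 * x 1 ^ 2 * ev 1 i
    simp [eS]; ring
  · show eval x (pderiv i (X 1 ^ 2 * X 3 - X 0 * X 2 * X 3 - X 1 * X 2 * X 4 : MvPolynomial (Fin 5) ℂ)) =
      -(x 2 * x 3 * ev 0 i) - x 0 * x 3 * ev 2 i - x 0 * x 2 * ev 3 i + 2 * x 1 * x 3 * ev 1 i + x 1 ^ 2 * ev 3 i - x 2 * x 4 * ev 1 i - x 1 * x 4 * ev 2 i - x 1 * x 2 * ev 4 i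
    simp [eS]; ring
  · show eval x (pderiv i (X 1 ^ 2 * X 4 : MvPolynomial (Fin 5) ℂ)) =
      2 * x 1 * x 4 * ev 1 i + x 1 ^ 2 * ev 4 i
    simp [eS]; ring
  · show eval x (pderiv i (-(X 0 * X 1 * X 4) : MvPolynomial (Fin 5) ℂ)) =
      -(x 1 * x 4 * ev 0 i) - x 0 * x 4 * ev 1 i - x 0 * x 1 * ev 4 i
    simp [eS]; ring
  · show eval x (pderiv i (X 0 ^ 2 * X 4 : MvPolynomial (Fin 5) ℂ)) =
      2 * x 0 * x 4 * ev 0 i + x 0 ^ 2 * ev 4 i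
    simp [eS]; ring
  · show eval x (pderiv i (X 0 * X 3 * X 4 + X 1 * X 4 ^ 2 : MvPolynomial (Fin 5) ℂ)) =
      x 3 * x 4 * ev 0 i + x 0 * x 4 * ev 3 i + x 0 * x 3 * ev 4 i + x 4 ^ 2 * ev 1 i + 2 * x 1 * x 4 * ev 4 i
    simp [eS]; ring
  · show eval x (pderiv i (-(X 0 ^ 2 * X 2 - X 0 * X 1 ^ 2) : MvPolynomial (Fin 5) ℂ)) =
      -(2 * x 0 * x 2 * ev 0 i + x 0 ^ 2 * ev 2 i - x 1 ^ 2 * ev 0 i - 2 * x 0 * x 1 * ev 1 i)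
    simp [eS]; ring
  · show eval x (pderiv i (0 : MvPolynomial (Fin 5) ℂ)) = 0
    rw [map_zero, map_zero]
  · show eval x (pderiv i (X 0 * X 2 ^ 2 - X 1 ^ 2 * X 2 : MvPolynomial (Fin 5) ℂ)) =
      x 2 ^ 2 * ev 0 i + 2 * x 0 * x 2 * ev 2 i - 2 * x 1 * x 2 * ev 1 i - x 1 ^ 2 * ev 2 i
    simp [eS]; ring
  · show eval x (pderiv i (X 1 * X 2 * X 3 - X 2 ^ 2 * X 4 : MvPolynomial (Fin 5) ℂ)) =
      x 2 * x 3 * ev 1 i + x 1 * x 3 * ev 2 i + x 1 * x 2 * ev 3 i - 2 * x 2 * x 4 * ev 2 i - x 2 ^ 2 * ev 4 i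
    simp [eS]; ring
  · show eval x (pderiv i (X 1 * X 2 * X 4 - X 0 * X 2 * X 3 : MvPolynomial (Fin 5) ℂ)) =
      -(x 2 * x 3 * ev 0 i) - x 0 * x 3 * ev 2 i - x 0 * x 2 * ev 3 i + x 2 * x 4 * ev 1 i + x 1 * x 4 * ev 2 i + x 1 * x 2 * ev 4 i
    simp [eS]; ring
  · show eval x (pderiv i (X 0 * X 1 * X 3 - X 0 * X 2 * X 4 : MvPolynomial (Fin 5) ℂ)) =
      x 1 * x 3 * ev 0 i + x 0 * x 3 * ev 1 i + x 0 * x 1 * ev 3 i - x 2 * x 4 * ev 0 i - x 0 * x 4 * ev 2 i - x 0 * x 2 * ev 4 i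
    simp [eS]; ring
  · show eval x (pderiv i (X 0 * X 1 * X 4 - X 0 ^ 2 * X 3 : MvPolynomial (Fin 5) ℂ)) =
      -(2 * x 0 * x 3 * ev 0 i) - x 0 ^ 2 * ev 3 i + x 1 * x 4 * ev 0 i + x 0 * x 4 * ev 1 i + x 0 * x 1 * ev 4 i
    simp [eS]; ring
  · show eval x (pderiv i (X 2 * X 4 ^ 2 - X 0 * X 3 ^ 2 : MvPolynomial (Fin 5) ℂ)) =
      -(x 3 ^ 2 * ev 0 i) - 2 * x 0 * x 3 * ev 3 i + x 4 ^ 2 * ev 2 i + 2 * x 2 * x 4 * ev 4 i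
    simp [eS]; ring
  · show eval x (pderiv i (-(X 0 * X 1 * X 2 - X 1 ^ 3) : MvPolynomial (Fin 5) ℂ)) =
      -(x 1 * x 2 * ev 0 i + x 0 * x 2 * ev 1 i + x 0 * x 1 * ev 2 i - 3 * x 1 ^ 2 * ev 1 i)
    simp [eS]; ring
  · show eval x (pderiv i (-(X 0 * X 2 ^ 2 - X 1 ^ 2 * X 2) : MvPolynomial (Fin 5) ℂ)) =
      -(x 2 ^ 2 * ev 0 i + 2 * x 0 * x 2 * ev 2 i - 2 * x 1 * x 2 * ev 1 i - x 1 ^ 2 * ev 2 i)
    simp [eS]; ring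
  · show eval x (pderiv i (0 : MvPolynomial (Fin 5) ℂ)) = 0
    rw [map_zero, map_zero]
  · show eval x (pderiv i (X 2 ^ 2 * X 3 : MvPolynomial (Fin 5) ℂ)) =
      2 * x 2 * x 3 * ev 2 i + x 2 ^ 2 * ev 3 i
    simp [eS]; ring
  · show eval x (pderiv i (-(X 1 * X 2 * X 3) : MvPolynomial (Fin 5) ℂ)) =
      -(x 2 * x 3 * ev 1 i) - x 1 * x 3 * ev 2 i - x 1 * x 2 * ev 3 i
    simp [eS]; ring
  · show eval x (pderiv i (X 1 ^ 2 * X 3 : MvPolynomial (Fin 5) ℂ)) =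
      2 * x 1 * x 3 * ev 1 i + x 1 ^ 2 * ev 3 i
    simp [eS]; ring
  · show eval x (pderiv i (X 1 ^ 2 * X 4 - X 0 * X 1 * X 3 - X 0 * X 2 * X 4 : MvPolynomial (Fin 5) ℂ)) =
      -(x 1 * x 3 * ev 0 i) - x 0 * x 3 * ev 1 i - x 0 * x 1 * ev 3 i - x 2 * x 4 * ev 0 i - x 0 * x 4 * ev 2 i - x 0 * x 2 * ev 4 i + 2 * x 1 * x 4 * ev 1 i + x 1 ^ 2 * ev 4 i
    simp [eS]; ring
  · show eval x (pderiv i (-(X 1 * X 3 ^ 2) - X 2 * X 3 * X 4 : MvPolynomial (Fin 5) ℂ)) =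
      -(x 3 ^ 2 * ev 1 i) - 2 * x 1 * x 3 * ev 3 i - x 3 * x 4 * ev 2 i - x 2 * x 4 * ev 3 i - x 2 * x 3 * ev 4 i
    simp [eS]; ring
  · show eval x (pderiv i (-(X 1 ^ 2 * X 3 - X 0 * X 2 * X 3 - X 1 * X 2 * X 4) : MvPolynomial (Fin 5) ℂ)) =
      -(-(x 2 * x 3 * ev 0 i) - x 0 * x 3 * ev 2 i - x 0 * x 2 * ev 3 i + 2 * x 1 * x 3 * ev 1 i + x 1 ^ 2 * ev 3 i - x 2 * x 4 * ev 1 i - x 1 * x 4 * ev 2 i - x 1 * x 2 * ev 4 i)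
    simp [eS]; ring
  · show eval x (pderiv i (-(X 1 * X 2 * X 3 - X 2 ^ 2 * X 4) : MvPolynomial (Fin 5) ℂ)) =
      -(x 2 * x 3 * ev 1 i + x 1 * x 3 * ev 2 i + x 1 * x 2 * ev 3 i - 2 * x 2 * x 4 * ev 2 i - x 2 ^ 2 * ev 4 i)
    simp [eS]; ring
  · show eval x (pderiv i (-(X 2 ^ 2 * X 3) : MvPolynomial (Fin 5) ℂ)) =
      -(2 * x 2 * x 3 * ev 2 i + x 2 ^ 2 * ev 3 i)
    simp [eS]; ring
  · show eval x (pderiv i (0 : MvPolynomial (Fin 5) ℂ)) = 0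
    rw [map_zero, map_zero]
  · show eval x (pderiv i (X 2 * X 3 ^ 2 : MvPolynomial (Fin 5) ℂ)) =
      x 3 ^ 2 * ev 2 i + 2 * x 2 * x 3 * ev 3 i
    simp [eS]; ring
  · show eval x (pderiv i (X 2 * X 3 * X 4 - X 1 * X 3 ^ 2 : MvPolynomial (Fin 5) ℂ)) =
      -(x 3 ^ 2 * ev 1 i) - 2 * x 1 * x 3 * ev 3 i + x 3 * x 4 * ev 2 i + x 2 * x 4 * ev 3 i + x 2 * x 3 * ev 4 i
    simp [eS]; ring
  · show eval x (pderiv i (X 0 * X 3 ^ 2 - X 1 * X 3 * X 4 + X 2 * X 4 ^ 2 : MvPolynomial (Fin 5) ℂ)) =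
      x 3 ^ 2 * ev 0 i + 2 * x 0 * x 3 * ev 3 i - x 3 * x 4 * ev 1 i - x 1 * x 4 * ev 3 i - x 1 * x 3 * ev 4 i + x 4 ^ 2 * ev 2 i + 2 * x 2 * x 4 * ev 4 i
    simp [eS]; ring
  · show eval x (pderiv i (X 3 ^ 3 : MvPolynomial (Fin 5) ℂ)) =
      3 * x 3 ^ 2 * ev 3 i
    simp [eS]; ring
  · show eval x (pderiv i (-(X 1 ^ 2 * X 4) : MvPolynomial (Fin 5) ℂ)) =
      -(2 * x 1 * x 4 * ev 1 i + x 1 ^ 2 * ev 4 i)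
    simp [eS]; ring
  · show eval x (pderiv i (-(X 1 * X 2 * X 4 - X 0 * X 2 * X 3) : MvPolynomial (Fin 5) ℂ)) =
      -(-(x 2 * x 3 * ev 0 i) - x 0 * x 3 * ev 2 i - x 0 * x 2 * ev 3 i + x 2 * x 4 * ev 1 i + x 1 * x 4 * ev 2 i + x 1 * x 2 * ev 4 i)
    simp [eS]; ring
  · show eval x (pderiv i (X 1 * X 2 * X 3 : MvPolynomial (Fin 5) ℂ)) =
      -(-(x 2 * x 3 * ev 1 i) - x 1 * x 3 * ev 2 i - x 1 * x 2 * ev 3 i)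
    simp [eS]; ring
  · show eval x (pderiv i (-(X 2 * X 3 ^ 2) : MvPolynomial (Fin 5) ℂ)) =
      -(x 3 ^ 2 * ev 2 i + 2 * x 2 * x 3 * ev 3 i)
    simp [eS]; ring
  · show eval x (pderiv i (0 : MvPolynomial (Fin 5) ℂ)) = 0
    rw [map_zero, map_zero]
  · show eval x (pderiv i (-(X 1 * X 3 * X 4) : MvPolynomial (Fin 5) ℂ)) =
      -(x 3 * x 4 * ev 1 i) - x 1 * x 4 * ev 3 i - x 1 * x 3 * ev 4 i
    simp [eS]; ring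
  · show eval x (pderiv i (X 0 * X 3 * X 4 - X 1 * X 4 ^ 2 : MvPolynomial (Fin 5) ℂ)) =
      x 3 * x 4 * ev 0 i + x 0 * x 4 * ev 3 i + x 0 * x 3 * ev 4 i - x 4 ^ 2 * ev 1 i - 2 * x 1 * x 4 * ev 4 i
    simp [eS]; ring
  · show eval x (pderiv i (X 3 ^ 2 * X 4 : MvPolynomial (Fin 5) ℂ)) =
      2 * x 3 * x 4 * ev 3 i + x 3 ^ 2 * ev 4 i
    simp [eS]; ring
  · show eval x (pderiv i (X 0 * X 1 * X 4 : MvPolynomial (Fin 5) ℂ)) =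
      -(-(x 1 * x 4 * ev 0 i) - x 0 * x 4 * ev 1 i - x 0 * x 1 * ev 4 i)
    simp [eS]; ring
  · show eval x (pderiv i (-(X 0 * X 1 * X 3 - X 0 * X 2 * X 4) : MvPolynomial (Fin 5) ℂ)) =
      -(x 1 * x 3 * ev 0 i + x 0 * x 3 * ev 1 i + x 0 * x 1 * ev 3 i - x 2 * x 4 * ev 0 i - x 0 * x 4 * ev 2 i - x 0 * x 2 * ev 4 i)
    simp [eS]; ring
  · show eval x (pderiv i (-(X 1 ^ 2 * X 3) : MvPolynomial (Fin 5) ℂ)) =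
      -(2 * x 1 * x 3 * ev 1 i + x 1 ^ 2 * ev 3 i)
    simp [eS]; ring
  · show eval x (pderiv i (-(X 2 * X 3 * X 4 - X 1 * X 3 ^ 2) : MvPolynomial (Fin 5) ℂ)) =
      -(-(x 3 ^ 2 * ev 1 i) - 2 * x 1 * x 3 * ev 3 i + x 3 * x 4 * ev 2 i + x 2 * x 4 * ev 3 i + x 2 * x 3 * ev 4 i)
    simp [eS]; ring
  · show eval x (pderiv i (X 1 * X 3 * X 4 : MvPolynomial (Fin 5) ℂ)) =
      -(-(x 3 * x 4 * ev 1 i) - x 1 * x 4 * ev 3 i - x 1 * x 3 * ev 4 i)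
    simp [eS]; ring
  · show eval x (pderiv i (0 : MvPolynomial (Fin 5) ℂ)) = 0
    rw [map_zero, map_zero]
  · show eval x (pderiv i (X 0 * X 4 ^ 2 : MvPolynomial (Fin 5) ℂ)) =
      x 4 ^ 2 * ev 0 i + 2 * x 0 * x 4 * ev 4 i
    simp [eS]; ring
  · show eval x (pderiv i (X 3 * X 4 ^ 2 : MvPolynomial (Fin 5) ℂ)) =
      x 4 ^ 2 * ev 3 i + 2 * x 3 * x 4 * ev 4 i
    simp [eS]; ring
  · show eval x (pderiv i (-(X 0 ^ 2 * X 4) : MvPolynomial (Fin 5) ℂ)) =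
      -(2 * x 0 * x 4 * ev 0 i + x 0 ^ 2 * ev 4 i)
    simp [eS]; ring
  · show eval x (pderiv i (-(X 0 * X 1 * X 4 - X 0 ^ 2 * X 3) : MvPolynomial (Fin 5) ℂ)) =
      -(-(2 * x 0 * x 3 * ev 0 i) - x 0 ^ 2 * ev 3 i + x 1 * x 4 * ev 0 i + x 0 * x 4 * ev 1 i + x 0 * x 1 * ev 4 i)
    simp [eS]; ring
  · show eval x (pderiv i (-(X 1 ^ 2 * X 4 - X 0 * X 1 * X 3 - X 0 * X 2 * X 4) : MvPolynomial (Fin 5) ℂ)) =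
      -(-(x 1 * x 3 * ev 0 i) - x 0 * x 3 * ev 1 i - x 0 * x 1 * ev 3 i - x 2 * x 4 * ev 0 i - x 0 * x 4 * ev 2 i - x 0 * x 2 * ev 4 i + 2 * x 1 * x 4 * ev 1 i + x 1 ^ 2 * ev 4 i)
    simp [eS]; ring
  · show eval x (pderiv i (-(X 0 * X 3 ^ 2 - X 1 * X 3 * X 4 + X 2 * X 4 ^ 2) : MvPolynomial (Fin 5) ℂ)) =
      -(x 3 ^ 2 * ev 0 i + 2 * x 0 * x 3 * ev 3 i - x 3 * x 4 * ev 1 i - x 1 * x 4 * ev 3 i - x 1 * x 3 * ev 4 i + x 4 ^ 2 * ev 2 i + 2 * x 2 * x 4 * ev 4 i)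
    simp [eS]; ring
  · show eval x (pderiv i (-(X 0 * X 3 * X 4 - X 1 * X 4 ^ 2) : MvPolynomial (Fin 5) ℂ)) =
      -(x 3 * x 4 * ev 0 i + x 0 * x 4 * ev 3 i + x 0 * x 3 * ev 4 i - x 4 ^ 2 * ev 1 i - 2 * x 1 * x 4 * ev 4 i)
    simp [eS]; ring
  · show eval x (pderiv i (-(X 0 * X 4 ^ 2) : MvPolynomial (Fin 5) ℂ)) =
      -(x 4 ^ 2 * ev 0 i + 2 * x 0 * x 4 * ev 4 i)
    simp [eS]; ring
  · show eval x (pderiv i (0 : MvPolynomial (Fin 5) ℂ)) = 0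
    rw [map_zero, map_zero]
  · show eval x (pderiv i (X 4 ^ 3 : MvPolynomial (Fin 5) ℂ)) =
      3 * x 4 ^ 2 * ev 4 i
    simp [eS]; ring
  · show eval x (pderiv i (-(X 0 * X 3 * X 4 + X 1 * X 4 ^ 2) : MvPolynomial (Fin 5) ℂ)) =
      -(x 3 * x 4 * ev 0 i + x 0 * x 4 * ev 3 i + x 0 * x 3 * ev 4 i + x 4 ^ 2 * ev 1 i + 2 * x 1 * x 4 * ev 4 i)
    simp [eS]; ring
  · show eval x (pderiv i (-(X 2 * X 4 ^ 2 - X 0 * X 3 ^ 2) : MvPolynomial (Fin 5) ℂ)) =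
      -(-(x 3 ^ 2 * ev 0 i) - 2 * x 0 * x 3 * ev 3 i + x 4 ^ 2 * ev 2 i + 2 * x 2 * x 4 * ev 4 i)
    simp [eS]; ring
  · show eval x (pderiv i (-(-(X 1 * X 3 ^ 2) - X 2 * X 3 * X 4) : MvPolynomial (Fin 5) ℂ)) =
      -(-(x 3 ^ 2 * ev 1 i) - 2 * x 1 * x 3 * ev 3 i - x 3 * x 4 * ev 2 i - x 2 * x 4 * ev 3 i - x 2 * x 3 * ev 4 i)
    simp [eS]; ring
  · show eval x (pderiv i (-(X 3 ^ 3) : MvPolynomial (Fin 5) ℂ)) =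
      -(3 * x 3 ^ 2 * ev 3 i)
    simp [eS]; ring
  · show eval x (pderiv i (-(X 3 ^ 2 * X 4) : MvPolynomial (Fin 5) ℂ)) =
      -(2 * x 3 * x 4 * ev 3 i + x 3 ^ 2 * ev 4 i)
    simp [eS]; ring
  · show eval x (pderiv i (-(X 3 * X 4 ^ 2) : MvPolynomial (Fin 5) ℂ)) =
      -(x 4 ^ 2 * ev 3 i + 2 * x 3 * x 4 * ev 4 i)
    simp [eS]; ring
  · show eval x (pderiv i (-(X 4 ^ 3) : MvPolynomial (Fin 5) ℂ)) =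
      -(3 * x 4 ^ 2 * ev 4 i)
    simp [eS]; ring
  · show eval x (pderiv i (0 : MvPolynomial (Fin 5) ℂ)) = 0
    rw [map_zero, map_zero]

/-- the identities -/
def Ids (φ : Fin 8 → Fin 5 → ℂ) : Prop := ∀ (x : Fin 5 → ℂ) (i j k : Fin 5),
  ∑ p, ∑ r, (dD x (fun m => ev m i) p r * (φ p j * φ r k) +
    dD x (fun m => ev m j) p r * (φ p k * φ r i) + dD x (fun m => ev m k) p r * (φ p i * φ r j)) = 0

theorem Ids_of_closed {θ : F2 5} (hcl : Closed θ) {κ : ℂ} (hκ : κ ≠ 0) {φ : Fin 8 → Fin 5 → ℂ}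
    (hθ : ∀ i j, θ i j = C κ * ∑ p, ∑ r, DP p r * C (φ p i * φ r j)) : Ids φ := by
  intro x i j k
  have key : ∀ i j k, eval x (pderiv i (θ j k)) =
      κ * ∑ p, ∑ r, dD x (fun m => ev m i) p r * (φ p j * φ r k) := by
    intro i j k
    rw [hθ j k, pderiv_C_mul, map_mul, eval_C]
    congr 1
    rw [map_sum, map_sum]
    apply Finset.sum_congr rfl
    intro p _
    rw [map_sum, map_sum]
    apply Finset.sum_congr rfl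
    intro r _
    rw [mul_comm (DP p r), pderiv_C_mul, map_mul, eval_C, eval_pderiv_DP]
    ring
  have h := congrArg (eval x) (hcl i j k)
  rw [map_add, map_add, key, key, key, map_zero, ← mul_add, ← mul_add] at h
  have h2 := (mul_eq_zero.1 h).resolve_left hκ
  rw [← h2, ← Finset.sum_add_distrib, ← Finset.sum_add_distrib]
  apply Finset.sum_congr rfl
  intro p _
  rw [← Finset.sum_add_distrib, ← Finset.sum_add_distrib]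

set_option maxHeartbeats 4000000 in
private theorem clo_id_q1q1 {φ : Fin 8 → Fin 5 → ℂ} (H : Ids φ) (i j k : Fin 5) :
    d3 (ev 2) (φ 0) (φ 1) i j k + d3 (ev 4) (φ 0) (φ 6) i j k - d3 (ev 3) (φ 1) (φ 6) i j k = 0 := by
  have h := H ![1, 0, 0, 0, 0] i j k
  simp [Fin.sum_univ_succ, dD] at h
  simp only [d3]
  linear_combination h

set_option maxHeartbeats 4000000 in
private theorem clo_id_q2q2 {φ : Fin 8 → Fin 5 → ℂ} (H : Ids φ) (i j k : Fin 5) :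
    -(d3 (ev 0) (φ 0) (φ 1) i j k) - 3 * d3 (ev 1) (φ 0) (φ 2) i j k + d3 (ev 3) (φ 0) (φ 3) i j k + d3 (ev 4) (φ 0) (φ 4) i j k - d3 (ev 2) (φ 1) (φ 2) i j k + d3 (ev 3) (φ 2) (φ 5) i j k + d3 (ev 4) (φ 2) (φ 6) i j k = 0 := by
  have h := H ![0, 1, 0, 0, 0] i j k
  simp [Fin.sum_univ_succ, dD] at h
  simp only [d3]
  linear_combination h

set_option maxHeartbeats 4000000 in
private theorem clo_id_q3q3 {φ : Fin 8 → Fin 5 → ℂ} (H : Ids φ) (i j k : Fin 5) :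
    d3 (ev 0) (φ 1) (φ 2) i j k - d3 (ev 4) (φ 1) (φ 3) i j k + d3 (ev 3) (φ 2) (φ 3) i j k = 0 := by
  have h := H ![0, 0, 1, 0, 0] i j k
  simp [Fin.sum_univ_succ, dD] at h
  simp only [d3]
  linear_combination h

set_option maxHeartbeats 4000000 in
private theorem clo_id_l5l5 {φ : Fin 8 → Fin 5 → ℂ} (H : Ids φ) (i j k : Fin 5) :
    d3 (ev 1) (φ 0) (φ 7) i j k + d3 (ev 2) (φ 1) (φ 7) i j k + d3 (ev 2) (φ 3) (φ 6) i j k - d3 (ev 1) (φ 4) (φ 6) i j k + d3 (ev 0) (φ 5) (φ 6) i j k + d3 (ev 3) (φ 5) (φ 7) i j k + 3 * d3 (ev 4) (φ 6) (φ 7) i j k = 0 := by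
  have h := H ![0, 0, 0, 0, 1] i j k
  simp [Fin.sum_univ_succ, dD] at h
  simp only [d3]
  linear_combination h

set_option maxHeartbeats 4000000 in
private theorem clo_id_l4l4 {φ : Fin 8 → Fin 5 → ℂ} (H : Ids φ) (i j k : Fin 5) :
    -(d3 (ev 0) (φ 1) (φ 7) i j k) - d3 (ev 1) (φ 2) (φ 7) i j k + d3 (ev 2) (φ 3) (φ 4) i j k -
      d3 (ev 1) (φ 3) (φ 5) i j k + d3 (ev 0) (φ 3) (φ 6) i j k + 3 * d3 (ev 3) (φ 3) (φ 7) i j k +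
      d3 (ev 4) (φ 4) (φ 7) i j k = 0 := by
  have h := H ![0, 0, 0, 1, 0] i j k
  simp [Fin.sum_univ_succ, dD] at h
  simp only [d3]
  linear_combination h

set_option maxHeartbeats 4000000 in
theorem cmu {φ : Fin 8 → Fin 5 → ℂ} (H : Ids φ) (s t : ℂ) (i j k : Fin 5) :
    d3 (fun l => s * φ 0 l + t * φ 1 l) (fun l => s * φ 1 l + t * φ 2 l)
      (fun l => t ^ 2 * ev 0 l - 2 * s * t * ev 1 l + s ^ 2 * ev 2 l) i j k =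
    d3 (fun l => s * φ 0 l + t * φ 1 l) (ev 4)
      (fun l => s ^ 3 * φ 6 l - s ^ 2 * t * φ 5 l + s * t ^ 2 * φ 4 l - t ^ 3 * φ 3 l) i j k -
    d3 (fun l => s * φ 1 l + t * φ 2 l) (ev 3)
      (fun l => s ^ 3 * φ 6 l - s ^ 2 * t * φ 5 l + s * t ^ 2 * φ 4 l - t ^ 3 * φ 3 l) i j k := by
  have h := H ![s ^ 2, s * t, t ^ 2, 0, 0] i j k
  simp [Fin.sum_univ_succ, dD] at h
  simp only [d3]
  linear_combination h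

theorem id_q1q1 {φ : Fin 8 → Fin 5 → ℂ} (H : Ids φ) (i j k : Fin 5) :
    d3 (ev 2) (φ 0) (φ 1) i j k + d3 (ev 4) (φ 0) (φ 6) i j k - d3 (ev 3) (φ 1) (φ 6) i j k = 0 :=
  clo_id_q1q1 H i j k

set_option maxHeartbeats 4000000 in
theorem id_q1q2 {φ : Fin 8 → Fin 5 → ℂ} (H : Ids φ) (i j k : Fin 5) :
    -(2 * d3 (ev 1) (φ 0) (φ 1) i j k) + d3 (ev 2) (φ 0) (φ 2) i j k - d3 (ev 4) (φ 0) (φ 5) i j k + d3 (ev 3) (φ 1) (φ 5) i j k + d3 (ev 4) (φ 1) (φ 6) i j k - d3 (ev 3) (φ 2) (φ 6) i j k = 0 := by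
  have h := H ![1, 1, 0, 0, 0] i j k
  have h1 := clo_id_q1q1 H i j k
  have h2 := clo_id_q2q2 H i j k
  simp [Fin.sum_univ_succ, dD] at h
  simp only [d3] at h1 h2 ⊢
  linear_combination h - h1 - h2

set_option maxHeartbeats 4000000 in
theorem id_q1q3 {φ : Fin 8 → Fin 5 → ℂ} (H : Ids φ) (i j k : Fin 5) :
    2 * d3 (ev 0) (φ 0) (φ 1) i j k + d3 (ev 1) (φ 0) (φ 2) i j k - d3 (ev 3) (φ 0) (φ 3) i j k + 2 * d3 (ev 2) (φ 1) (φ 2) i j k - d3 (ev 3) (φ 1) (φ 4) i j k - d3 (ev 4) (φ 1) (φ 5) i j k - d3 (ev 4) (φ 2) (φ 6) i j k = 0 := by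
  have h := H ![1, 0, 1, 0, 0] i j k
  have h1 := clo_id_q1q1 H i j k
  have h2 := clo_id_q3q3 H i j k
  simp [Fin.sum_univ_succ, dD] at h
  simp only [d3] at h1 h2 ⊢
  linear_combination h - h1 - h2

theorem id_q2q2 {φ : Fin 8 → Fin 5 → ℂ} (H : Ids φ) (i j k : Fin 5) :
    -(d3 (ev 0) (φ 0) (φ 1) i j k) - 3 * d3 (ev 1) (φ 0) (φ 2) i j k + d3 (ev 3) (φ 0) (φ 3) i j k + d3 (ev 4) (φ 0) (φ 4) i j k - d3 (ev 2) (φ 1) (φ 2) i j k + d3 (ev 3) (φ 2) (φ 5) i j k + d3 (ev 4) (φ 2) (φ 6) i j k = 0 :=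
  clo_id_q2q2 H i j k

set_option maxHeartbeats 4000000 in
theorem id_q2q3 {φ : Fin 8 → Fin 5 → ℂ} (H : Ids φ) (i j k : Fin 5) :
    d3 (ev 0) (φ 0) (φ 2) i j k - d3 (ev 4) (φ 0) (φ 3) i j k - 2 * d3 (ev 1) (φ 1) (φ 2) i j k + d3 (ev 3) (φ 1) (φ 3) i j k + d3 (ev 4) (φ 1) (φ 4) i j k - d3 (ev 3) (φ 2) (φ 4) i j k = 0 := by
  have h := H ![0, 1, 1, 0, 0] i j k
  have h1 := clo_id_q2q2 H i j k
  have h2 := clo_id_q3q3 H i j k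
  simp [Fin.sum_univ_succ, dD] at h
  simp only [d3] at h1 h2 ⊢
  linear_combination h - h1 - h2

theorem id_q3q3 {φ : Fin 8 → Fin 5 → ℂ} (H : Ids φ) (i j k : Fin 5) :
    d3 (ev 0) (φ 1) (φ 2) i j k - d3 (ev 4) (φ 1) (φ 3) i j k + d3 (ev 3) (φ 2) (φ 3) i j k = 0 :=
  clo_id_q3q3 H i j k

set_option maxHeartbeats 4000000 in
theorem id_q1l4 {φ : Fin 8 → Fin 5 → ℂ} (H : Ids φ) (i j k : Fin 5) :
    -(d3 (ev 2) (φ 0) (φ 3) i j k) + d3 (ev 4) (φ 0) (φ 7) i j k - d3 (ev 2) (φ 1) (φ 4) i j k + d3 (ev 1) (φ 1) (φ 5) i j k - 2 * d3 (ev 0) (φ 1) (φ 6) i j k - 2 * d3 (ev 3) (φ 1) (φ 7) i j k - d3 (ev 1) (φ 2) (φ 6) i j k + 2 * d3 (ev 3) (φ 3) (φ 6) i j k + d3 (ev 4) (φ 4) (φ 6) i j k = 0 := by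
  have h := H ![1, 0, 0, 1, 0] i j k
  have h1 := clo_id_q1q1 H i j k
  have h2 := clo_id_l4l4 H i j k
  simp [Fin.sum_univ_succ, dD] at h
  simp only [d3] at h1 h2 ⊢
  linear_combination h - h1 - h2

set_option maxHeartbeats 4000000 in
theorem id_q1l5 {φ : Fin 8 → Fin 5 → ℂ} (H : Ids φ) (i j k : Fin 5) :
    -(d3 (ev 1) (φ 0) (φ 5) i j k) + 2 * d3 (ev 0) (φ 0) (φ 6) i j k + d3 (ev 3) (φ 0) (φ 7) i j k - d3 (ev 2) (φ 1) (φ 5) i j k + d3 (ev 1) (φ 1) (φ 6) i j k - d3 (ev 2) (φ 2) (φ 6) i j k + d3 (ev 3) (φ 4) (φ 6) i j k + 2 * d3 (ev 4) (φ 5) (φ 6) i j k = 0 := by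
  have h := H ![1, 0, 0, 0, 1] i j k
  have h1 := clo_id_q1q1 H i j k
  have h2 := clo_id_l5l5 H i j k
  simp [Fin.sum_univ_succ, dD] at h
  simp only [d3] at h1 h2 ⊢
  linear_combination h - h1 - h2

set_option maxHeartbeats 4000000 in
theorem id_q2l4 {φ : Fin 8 → Fin 5 → ℂ} (H : Ids φ) (i j k : Fin 5) :
    2 * d3 (ev 1) (φ 0) (φ 3) i j k + d3 (ev 2) (φ 1) (φ 3) i j k + d3 (ev 0) (φ 1) (φ 5) i j k - d3 (ev 2) (φ 2) (φ 4) i j k + 2 * d3 (ev 1) (φ 2) (φ 5) i j k - d3 (ev 0) (φ 2) (φ 6) i j k - 2 * d3 (ev 3) (φ 2) (φ 7) i j k - 2 * d3 (ev 3) (φ 3) (φ 5) i j k - d3 (ev 4) (φ 3) (φ 6) i j k - d3 (ev 4) (φ 4) (φ 5) i j k = 0 := by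
  have h := H ![0, 1, 0, 1, 0] i j k
  have h1 := clo_id_q2q2 H i j k
  have h2 := clo_id_l4l4 H i j k
  simp [Fin.sum_univ_succ, dD] at h
  simp only [d3] at h1 h2 ⊢
  linear_combination h - h1 - h2

set_option maxHeartbeats 4000000 in
theorem id_q2l5 {φ : Fin 8 → Fin 5 → ℂ} (H : Ids φ) (i j k : Fin 5) :
    -(d3 (ev 2) (φ 0) (φ 3) i j k) + 2 * d3 (ev 1) (φ 0) (φ 4) i j k - d3 (ev 0) (φ 0) (φ 5) i j k + 2 * d3 (ev 4) (φ 0) (φ 7) i j k + d3 (ev 2) (φ 1) (φ 4) i j k + d3 (ev 0) (φ 1) (φ 6) i j k + 2 * d3 (ev 1) (φ 2) (φ 6) i j k - d3 (ev 3) (φ 3) (φ 6) i j k - d3 (ev 3) (φ 4) (φ 5) i j k - 2 * d3 (ev 4) (φ 4) (φ 6) i j k = 0 := by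
  have h := H ![0, 1, 0, 0, 1] i j k
  have h1 := clo_id_q2q2 H i j k
  have h2 := clo_id_l5l5 H i j k
  simp [Fin.sum_univ_succ, dD] at h
  simp only [d3] at h1 h2 ⊢
  linear_combination h - h1 - h2

set_option maxHeartbeats 4000000 in
theorem id_q3l4 {φ : Fin 8 → Fin 5 → ℂ} (H : Ids φ) (i j k : Fin 5) :
    -(d3 (ev 0) (φ 0) (φ 3) i j k) + d3 (ev 1) (φ 1) (φ 3) i j k - d3 (ev 0) (φ 1) (φ 4) i j k + 2 * d3 (ev 2) (φ 2) (φ 3) i j k - d3 (ev 1) (φ 2) (φ 4) i j k - d3 (ev 4) (φ 2) (φ 7) i j k + 2 * d3 (ev 3) (φ 3) (φ 4) i j k + d3 (ev 4) (φ 3) (φ 5) i j k = 0 := by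
  have h := H ![0, 0, 1, 1, 0] i j k
  have h1 := clo_id_q3q3 H i j k
  have h2 := clo_id_l4l4 H i j k
  simp [Fin.sum_univ_succ, dD] at h
  simp only [d3] at h1 h2 ⊢
  linear_combination h - h1 - h2

theorem id_l5l5 {φ : Fin 8 → Fin 5 → ℂ} (H : Ids φ) (i j k : Fin 5) :
    d3 (ev 1) (φ 0) (φ 7) i j k + d3 (ev 2) (φ 1) (φ 7) i j k + d3 (ev 2) (φ 3) (φ 6) i j k - d3 (ev 1) (φ 4) (φ 6) i j k + d3 (ev 0) (φ 5) (φ 6) i j k + d3 (ev 3) (φ 5) (φ 7) i j k + 3 * d3 (ev 4) (φ 6) (φ 7) i j k = 0 :=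
  clo_id_l5l5 H i j k

end Pool.Agent.Helper35.LX
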