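import Pool.Agent.Helper71.FC.Sat

/-!
LEMMA X of the project on MP_45a28a (frozen statement S00166), helper35.
`θ` closed, decomposable, primitive, cubic on `ℂ^5`, not a cone, `E#_2 = 0`, `dim E#_3 ≤ 8`, `b` a 3-form with coefficients of degree 4,
`x_a b = ξ_a ∧ θ` for all `a`.  Claim: `b` is a multiple of `θ`.
Plan: `s(f) = Σ f_ij x_i ξ_j` for alternating `f`; `s(f) ∈ E#_3`; `s` is not zero on decomposable `f ≠ 0`; the kernel of `s` has dimension 2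
(Ker.lean) and is a pencil of constant rank 4 (normal form `N1, N2`, Lin.lean); so `a_i = i_{e_i} θ = s(α_i)` and `θ_ij = κ D(α_i, α_j)`
(GF.lean); `d θ = 0` gives trivector identities (Clo.lean) which force a cone (Alg.lean).
-/

set_option autoImplicit false

namespace Pool.Agent.Helper35.LX

open MvPolynomial
open scoped BigOperators
open Pool.Agent.Helper71.FL (w12 pf ct Dec Closed dd)
open Pool.Agent.Helper71.FC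
open Pool.Agent.Helper93 (lsub lmap OF pb)

/-- alternating matrices -/
def AltM (f : Fin 5 → Fin 5 → ℂ) : Prop := (∀ i, f i i = 0) ∧ ∀ i j, f i j = - f j i

/-- decomposable alternating matrices -/
def ww (y y' : Fin 5 → ℂ) : Fin 5 → Fin 5 → ℂ := fun i j => y i * y' j - y j * y' i

/-- independence of two vectors -/
def Ind2 (y y' : Fin 5 → ℂ) : Prop := ∀ c c' : ℂ, (∀ i, c * y i + c' * y' i = 0) → c = 0 ∧ c' = 0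

/-- contraction with a vector -/
def cx (x : Fin 5 → ℂ) (f : Fin 5 → Fin 5 → ℂ) (j : Fin 5) : ℂ := ∑ i, x i * f i j

/-- transformation of bilinear forms -/
def tr (g : Fin 5 → Fin 5 → ℂ) (f : Fin 5 → Fin 5 → ℂ) : Fin 5 → Fin 5 → ℂ :=
  fun i j => ∑ k, ∑ l, g k i * g l j * f k l

/-- the normal form of a pencil of constant rank 4: `e^1 ∧ e^4 + e^2 ∧ e^5` -/
def N1 : Fin 5 → Fin 5 → ℂ :=
  ![![0, 0, 0, 1, 0], ![0, 0, 0, 0, 1], ![0, 0, 0, 0, 0], ![-1, 0, 0, 0, 0], ![0, -1, 0, 0, 0]]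

/-- the normal form of a pencil of constant rank 4: `e^2 ∧ e^4 + e^3 ∧ e^5` -/
def N2 : Fin 5 → Fin 5 → ℂ :=
  ![![0, 0, 0, 0, 0], ![0, 0, 0, 1, 0], ![0, 0, 0, 0, 1], ![0, -1, 0, 0, 0], ![0, 0, -1, 0, 0]]

/-- `s(f) = Σ f_ij x_i ξ_j` -/
noncomputable def sF (ξ : Fin 5 → F1 5) (f : Fin 5 → Fin 5 → ℂ) : F1 5 :=
  fun l => ∑ i, ∑ j, C (f i j) * (X i * ξ j l)

/-- the situation of LEMMA X, for contradiction -/
structure Hyp (θ : F2 5) (b : F3 5) (ξ : Fin 5 → F1 5) : Prop where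
  fol : Fol θ
  nc : ¬ Cone θ
  e2 : EE θ 2 = ⊥
  e3 : Module.finrank ℂ (EE θ 3) ≤ 8
  hξ : ∀ a i, (ξ a i).IsHomogeneous 2
  hb : ∀ a i j k, X a * b i j k = w12 (ξ a) θ i j k
  nb : ¬ IsB θ b

/-- the coefficients `D(ω_p, ω_r)` for `ω = e12, e13, e23, e34, e35, e14, e15, e45` -/
noncomputable def DP : Fin 8 → Fin 8 → MvPolynomial (Fin 5) ℂ :=
  let q1 : MvPolynomial (Fin 5) ℂ := X 0
  let q2 : MvPolynomial (Fin 5) ℂ := X 1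
  let q3 : MvPolynomial (Fin 5) ℂ := X 2
  let l4 : MvPolynomial (Fin 5) ℂ := X 3
  let l5 : MvPolynomial (Fin 5) ℂ := X 4
  ![![0, q1 ^ 2 * q3 - q1 * q2 ^ 2, q1 * q2 * q3 - q2 ^ 3, q2 ^ 2 * l4 - q1 * q3 * l4 - q2 * q3 * l5,
      q2 ^ 2 * l5, -(q1 * q2 * l5), q1 ^ 2 * l5, q1 * l4 * l5 + q2 * l5 ^ 2],
    ![-(q1 ^ 2 * q3 - q1 * q2 ^ 2), 0, q1 * q3 ^ 2 - q2 ^ 2 * q3, q2 * q3 * l4 - q3 ^ 2 * l5,
      q2 * q3 * l5 - q1 * q3 * l4, q1 * q2 * l4 - q1 * q3 * l5, q1 * q2 * l5 - q1 ^ 2 * l4,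
      q3 * l5 ^ 2 - q1 * l4 ^ 2],
    ![-(q1 * q2 * q3 - q2 ^ 3), -(q1 * q3 ^ 2 - q2 ^ 2 * q3), 0, q3 ^ 2 * l4, -(q2 * q3 * l4),
      q2 ^ 2 * l4, q2 ^ 2 * l5 - q1 * q2 * l4 - q1 * q3 * l5, -(q2 * l4 ^ 2) - q3 * l4 * l5],
    ![-(q2 ^ 2 * l4 - q1 * q3 * l4 - q2 * q3 * l5), -(q2 * q3 * l4 - q3 ^ 2 * l5), -(q3 ^ 2 * l4), 0,
      q3 * l4 ^ 2, q3 * l4 * l5 - q2 * l4 ^ 2, q1 * l4 ^ 2 - q2 * l4 * l5 + q3 * l5 ^ 2, l4 ^ 3],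
    ![-(q2 ^ 2 * l5), -(q2 * q3 * l5 - q1 * q3 * l4), q2 * q3 * l4, -(q3 * l4 ^ 2), 0,
      -(q2 * l4 * l5), q1 * l4 * l5 - q2 * l5 ^ 2, l4 ^ 2 * l5],
    ![q1 * q2 * l5, -(q1 * q2 * l4 - q1 * q3 * l5), -(q2 ^ 2 * l4), -(q3 * l4 * l5 - q2 * l4 ^ 2),
      q2 * l4 * l5, 0, q1 * l5 ^ 2, l4 * l5 ^ 2],
    ![-(q1 ^ 2 * l5), -(q1 * q2 * l5 - q1 ^ 2 * l4), -(q2 ^ 2 * l5 - q1 * q2 * l4 - q1 * q3 * l5),
      -(q1 * l4 ^ 2 - q2 * l4 * l5 + q3 * l5 ^ 2), -(q1 * l4 * l5 - q2 * l5 ^ 2), -(q1 * l5 ^ 2), 0,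
      l5 ^ 3],
    ![-(q1 * l4 * l5 + q2 * l5 ^ 2), -(q3 * l5 ^ 2 - q1 * l4 ^ 2), -(-(q2 * l4 ^ 2) - q3 * l4 * l5),
      -(l4 ^ 3), -(l4 ^ 2 * l5), -(l4 * l5 ^ 2), -(l5 ^ 3), 0]]

/-- the coordinates (with respect to the `ω_p`) of a family of alternating matrices -/
def cov (α : Fin 5 → Fin 5 → Fin 5 → ℂ) : Fin 8 → Fin 5 → ℂ :=
  ![fun i => α i 0 1, fun i => α i 0 2, fun i => α i 1 2, fun i => α i 2 3, fun i => α i 2 4,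
    fun i => α i 0 3, fun i => α i 0 4, fun i => α i 3 4]

end Pool.Agent.Helper35.LX
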