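import Pool.Agent.Helper35.LX.Defs
import Pool.Agent.Helper71.FC.Rest

/-!
LX-5: the formula `θ_ij = κ ∑ D(ω_p, ω_r) φ_p(i) φ_r(j)` in the normalised coordinates.

Write `x_1, .., x_5`, `ξ_1, .., ξ_5` (indices 0..4 in Lean), `s_ij = x_i ξ_j - x_j ξ_i = sF ξ (ww e_i e_j)`, and
`Ω_ijk = x_i ξ_j∧ξ_k + x_j ξ_k∧ξ_i + x_k ξ_i∧ξ_j` (a 2-form).
(1) `s_ij ∧ s_ik = x_i Ω_ijk` and `s_ij ∧ s_kl = x_j Ω_ikl - x_i Ω_jkl` (ring identities in the components).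
(2) `Ω_ijk = G_ijk θ` with a polynomial `G_ijk`, homogeneous of degree 2: `s_ij, s_ik` are annihilated by the primitive decomposable `θ`, so
    `s_ij ∧ s_ik = c θ` (`wedge_eq_mul` in FC/Rest.lean; or: `θ_ab (s ∧ s')_cd = θ_cd (s ∧ s')_ab` and unique factorisation); `x_i` divides
    `c θ_ab` for all `a, b`, `x_i` is prime and does not divide all `θ_ab`, so `x_i ∣ c`.  `G` is alternating in `i, j, k` because `Ω` is and `θ ≠ 0`.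
(3) `sF ξ N1 = s_14 + s_25 = 0` and `sF ξ N2 = s_24 + s_35 = 0`; wedge with `s_kl`:
    N1: `x4 G_1kl - x1 G_4kl + x5 G_2kl - x2 G_5kl = 0`,  N2: `x4 G_2kl - x2 G_4kl + x5 G_3kl - x3 G_5kl = 0`.
    N1, kl = 24: `x4 G124 = x2 G245`, so `G124 = x2 m`, `G245 = x4 m`; kl = 14: `G145 = - x5 m`; kl = 25: `G125 = - x1 m`.
    N2, kl = 45: `x4 G245 + x5 G345 = 0`, so `m = c x5` (degree: `c` constant), `G345 = - c x4^2`; kl = 24: `G234 = - c x3 x4`;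
    kl = 25: `G235 = c x2 x4`; kl = 14: `G134 = c (x3 x5 - x2 x4)`; kl = 15: `G135 = c (x1 x4 - x2 x5)`; kl = 12: `G123 = c (x2^2 - x1 x3)`.
(4) `θ_ij θ = a_i ∧ a_j` for the rows `a_i = θ i` (from `pf θ = 0`), `a_i = sF ξ (α i)`, so by (1), (2)
    `θ_ij = ∑_{a<b, c<d} α_i^{ab} α_j^{cd} (x_b G_acd - x_a G_bcd)`, and with `α^{24} = α^{25} = 0` this is `-c ∑ DP p r φ_p(i) φ_r(j)`.
-/

set_option autoImplicit false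

namespace Pool.Agent.Helper35.LX

open MvPolynomial
open scoped BigOperators
open Pool.Agent.Helper71.FL (w12 pf ct Dec Closed dd)
open Pool.Agent.Helper71.FC
open Pool.Agent.Helper93 (lsub lmap OF pb)

/-- `s_ij` -/
private noncomputable def sv (ξ : Fin 5 → F1 5) (i j : Fin 5) : F1 5 :=
  fun l => X i * ξ j l - X j * ξ i l

private noncomputable def om (ξ : Fin 5 → F1 5) (i j k a b : Fin 5) : MvPolynomial (Fin 5) ℂ :=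
  X i * (ξ j a * ξ k b - ξ j b * ξ k a) + X j * (ξ k a * ξ i b - ξ k b * ξ i a) +
    X k * (ξ i a * ξ j b - ξ i b * ξ j a)

private lemma sv_ann {θ : F2 5} {b : F3 5} {ξ : Fin 5 → F1 5} (h : Hyp θ b ξ) (i j a c d : Fin 5) :
    w12 (sv ξ i j) θ a c d = 0 := by
  have h1 := h.hb i a c d
  have h2 := h.hb j a c d
  unfold w12 at *
  unfold sv
  linear_combination X j * h1 - X i * h2

private lemma ex_G {θ : F2 5} {b : F3 5} {ξ : Fin 5 → F1 5} (h : Hyp θ b ξ) (i j k : Fin 5) :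
    ∃ g, ∀ a c, om ξ i j k a c = g * θ a c := by
  obtain ⟨f, hf⟩ := wedge_eq_mul h.fol.dec h.fol.prim (sv_ann h i j) (sv_ann h i k)
  have h1 : ∀ a c, X i * om ξ i j k a c = f * θ a c := by
    intro a c
    rw [← hf a c]
    unfold w11 om sv
    ring
  have hp : Prime (X i : MvPolynomial (Fin 5) ℂ) := X_prime
  have h2 : (X i : MvPolynomial (Fin 5) ℂ) ∣ f := by
    by_contra hcon
    apply hp.not_isUnit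
    apply h.fol.prim
    intro a c
    exact (hp.dvd_or_dvd ⟨_, (h1 a c).symm⟩).resolve_left hcon
  obtain ⟨g, rfl⟩ := h2
  refine ⟨g, fun a c => ?_⟩
  apply mul_left_cancel₀ hp.ne_zero
  rw [h1 a c]; ring

private lemma X_not_dvd {i j : Fin 5} (hij : i ≠ j) : ¬ (X i : MvPolynomial (Fin 5) ℂ) ∣ X j := by
  rintro ⟨r, hr⟩
  have := congrArg (eval (fun k => if k = j then (1 : ℂ) else 0)) hr
  rw [map_mul, eval_X, eval_X, if_pos rfl, if_neg hij, zero_mul] at this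
  exact one_ne_zero this

private lemma x_dvd {i j : Fin 5} (hij : i ≠ j) {f : MvPolynomial (Fin 5) ℂ}
    (h : (X i : MvPolynomial (Fin 5) ℂ) ∣ X j * f) : (X i : MvPolynomial (Fin 5) ℂ) ∣ f :=
  (X_prime.dvd_or_dvd h).resolve_left (X_not_dvd hij)

/-- the eight `s` -/
private noncomputable def SS (ξ : Fin 5 → F1 5) : Fin 8 → F1 5 :=
  ![sv ξ 0 1, sv ξ 0 2, sv ξ 1 2, sv ξ 2 3, sv ξ 2 4, sv ξ 0 3, sv ξ 0 4, sv ξ 3 4]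

private lemma table {θ : F2 5} {ξ : Fin 5 → F1 5} {a0 b0 : Fin 5} {c : ℂ}
    (q012 : om ξ 0 1 2 a0 b0 = C c * (X 1 ^ 2 - X 0 * X 2) * θ a0 b0)
    (q013 : om ξ 0 1 3 a0 b0 = C c * (X 1 * X 4) * θ a0 b0)
    (q014 : om ξ 0 1 4 a0 b0 = C c * (-(X 0 * X 4)) * θ a0 b0)
    (q023 : om ξ 0 2 3 a0 b0 = C c * (X 2 * X 4 - X 1 * X 3) * θ a0 b0)
    (q024 : om ξ 0 2 4 a0 b0 = C c * (X 0 * X 3 - X 1 * X 4) * θ a0 b0)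
    (q034 : om ξ 0 3 4 a0 b0 = C c * (-(X 4 ^ 2)) * θ a0 b0)
    (q123 : om ξ 1 2 3 a0 b0 = C c * (-(X 2 * X 3)) * θ a0 b0)
    (q124 : om ξ 1 2 4 a0 b0 = C c * (X 1 * X 3) * θ a0 b0)
    (q134 : om ξ 1 3 4 a0 b0 = C c * (X 3 * X 4) * θ a0 b0)
    (q234 : om ξ 2 3 4 a0 b0 = C c * (-(X 3 ^ 2)) * θ a0 b0) (p r : Fin 8) :
    SS ξ p a0 * SS ξ r b0 - SS ξ p b0 * SS ξ r a0 = C (-c) * DP p r * θ a0 b0 := by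
  unfold om at q012 q013 q014 q023 q024 q034 q123 q124 q134 q234
  fin_cases p <;> fin_cases r
  · show (X 0 * ξ 1 a0 - X 1 * ξ 0 a0) * (X 0 * ξ 1 b0 - X 1 * ξ 0 b0) - (X 0 * ξ 1 b0 - X 1 * ξ 0 b0) * (X 0 * ξ 1 a0 - X 1 * ξ 0 a0) = C (-c) * (0) * θ a0 b0
    rw [map_neg]
    ring
  · show (X 0 * ξ 1 a0 - X 1 * ξ 0 a0) * (X 0 * ξ 2 b0 - X 2 * ξ 0 b0) - (X 0 * ξ 1 b0 - X 1 * ξ 0 b0) * (X 0 * ξ 2 a0 - X 2 * ξ 0 a0) = C (-c) * (X 0 ^ 2 * X 2 - X 0 * X 1 ^ 2) * θ a0 b0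
    rw [map_neg]
    linear_combination X 0 * q012
  · show (X 0 * ξ 1 a0 - X 1 * ξ 0 a0) * (X 1 * ξ 2 b0 - X 2 * ξ 1 b0) - (X 0 * ξ 1 b0 - X 1 * ξ 0 b0) * (X 1 * ξ 2 a0 - X 2 * ξ 1 a0) = C (-c) * (X 0 * X 1 * X 2 - X 1 ^ 3) * θ a0 b0
    rw [map_neg]
    linear_combination X 1 * q012
  · show (X 0 * ξ 1 a0 - X 1 * ξ 0 a0) * (X 2 * ξ 3 b0 - X 3 * ξ 2 b0) - (X 0 * ξ 1 b0 - X 1 * ξ 0 b0) * (X 2 * ξ 3 a0 - X 3 * ξ 2 a0) = C (-c) * (X 1 ^ 2 * X 3 - X 0 * X 2 * X 3 - X 1 * X 2 * X 4) * θ a0 b0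
    rw [map_neg]
    linear_combination X 1 * q023 - X 0 * q123
  · show (X 0 * ξ 1 a0 - X 1 * ξ 0 a0) * (X 2 * ξ 4 b0 - X 4 * ξ 2 b0) - (X 0 * ξ 1 b0 - X 1 * ξ 0 b0) * (X 2 * ξ 4 a0 - X 4 * ξ 2 a0) = C (-c) * (X 1 ^ 2 * X 4) * θ a0 b0
    rw [map_neg]
    linear_combination X 1 * q024 - X 0 * q124
  · show (X 0 * ξ 1 a0 - X 1 * ξ 0 a0) * (X 0 * ξ 3 b0 - X 3 * ξ 0 b0) - (X 0 * ξ 1 b0 - X 1 * ξ 0 b0) * (X 0 * ξ 3 a0 - X 3 * ξ 0 a0) = C (-c) * (-(X 0 * X 1 * X 4)) * θ a0 b0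
    rw [map_neg]
    linear_combination X 0 * q013
  · show (X 0 * ξ 1 a0 - X 1 * ξ 0 a0) * (X 0 * ξ 4 b0 - X 4 * ξ 0 b0) - (X 0 * ξ 1 b0 - X 1 * ξ 0 b0) * (X 0 * ξ 4 a0 - X 4 * ξ 0 a0) = C (-c) * (X 0 ^ 2 * X 4) * θ a0 b0
    rw [map_neg]
    linear_combination X 0 * q014
  · show (X 0 * ξ 1 a0 - X 1 * ξ 0 a0) * (X 3 * ξ 4 b0 - X 4 * ξ 3 b0) - (X 0 * ξ 1 b0 - X 1 * ξ 0 b0) * (X 3 * ξ 4 a0 - X 4 * ξ 3 a0) = C (-c) * (X 0 * X 3 * X 4 + X 1 * X 4 ^ 2) * θ a0 b0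
    rw [map_neg]
    linear_combination X 1 * q034 - X 0 * q134
  · show (X 0 * ξ 2 a0 - X 2 * ξ 0 a0) * (X 0 * ξ 1 b0 - X 1 * ξ 0 b0) - (X 0 * ξ 2 b0 - X 2 * ξ 0 b0) * (X 0 * ξ 1 a0 - X 1 * ξ 0 a0) = C (-c) * (-(X 0 ^ 2 * X 2 - X 0 * X 1 ^ 2)) * θ a0 b0
    rw [map_neg]
    linear_combination -X 0 * q012
  · show (X 0 * ξ 2 a0 - X 2 * ξ 0 a0) * (X 0 * ξ 2 b0 - X 2 * ξ 0 b0) - (X 0 * ξ 2 b0 - X 2 * ξ 0 b0) * (X 0 * ξ 2 a0 - X 2 * ξ 0 a0) = C (-c) * (0) * θ a0 b0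
    rw [map_neg]
    ring
  · show (X 0 * ξ 2 a0 - X 2 * ξ 0 a0) * (X 1 * ξ 2 b0 - X 2 * ξ 1 b0) - (X 0 * ξ 2 b0 - X 2 * ξ 0 b0) * (X 1 * ξ 2 a0 - X 2 * ξ 1 a0) = C (-c) * (X 0 * X 2 ^ 2 - X 1 ^ 2 * X 2) * θ a0 b0
    rw [map_neg]
    linear_combination X 2 * q012
  · show (X 0 * ξ 2 a0 - X 2 * ξ 0 a0) * (X 2 * ξ 3 b0 - X 3 * ξ 2 b0) - (X 0 * ξ 2 b0 - X 2 * ξ 0 b0) * (X 2 * ξ 3 a0 - X 3 * ξ 2 a0) = C (-c) * (X 1 * X 2 * X 3 - X 2 ^ 2 * X 4) * θ a0 b0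
    rw [map_neg]
    linear_combination X 2 * q023
  · show (X 0 * ξ 2 a0 - X 2 * ξ 0 a0) * (X 2 * ξ 4 b0 - X 4 * ξ 2 b0) - (X 0 * ξ 2 b0 - X 2 * ξ 0 b0) * (X 2 * ξ 4 a0 - X 4 * ξ 2 a0) = C (-c) * (X 1 * X 2 * X 4 - X 0 * X 2 * X 3) * θ a0 b0
    rw [map_neg]
    linear_combination X 2 * q024
  · show (X 0 * ξ 2 a0 - X 2 * ξ 0 a0) * (X 0 * ξ 3 b0 - X 3 * ξ 0 b0) - (X 0 * ξ 2 b0 - X 2 * ξ 0 b0) * (X 0 * ξ 3 a0 - X 3 * ξ 0 a0) = C (-c) * (X 0 * X 1 * X 3 - X 0 * X 2 * X 4) * θ a0 b0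
    rw [map_neg]
    linear_combination X 0 * q023
  · show (X 0 * ξ 2 a0 - X 2 * ξ 0 a0) * (X 0 * ξ 4 b0 - X 4 * ξ 0 b0) - (X 0 * ξ 2 b0 - X 2 * ξ 0 b0) * (X 0 * ξ 4 a0 - X 4 * ξ 0 a0) = C (-c) * (X 0 * X 1 * X 4 - X 0 ^ 2 * X 3) * θ a0 b0
    rw [map_neg]
    linear_combination X 0 * q024
  · show (X 0 * ξ 2 a0 - X 2 * ξ 0 a0) * (X 3 * ξ 4 b0 - X 4 * ξ 3 b0) - (X 0 * ξ 2 b0 - X 2 * ξ 0 b0) * (X 3 * ξ 4 a0 - X 4 * ξ 3 a0) = C (-c) * (X 2 * X 4 ^ 2 - X 0 * X 3 ^ 2) * θ a0 b0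
    rw [map_neg]
    linear_combination X 2 * q034 - X 0 * q234
  · show (X 1 * ξ 2 a0 - X 2 * ξ 1 a0) * (X 0 * ξ 1 b0 - X 1 * ξ 0 b0) - (X 1 * ξ 2 b0 - X 2 * ξ 1 b0) * (X 0 * ξ 1 a0 - X 1 * ξ 0 a0) = C (-c) * (-(X 0 * X 1 * X 2 - X 1 ^ 3)) * θ a0 b0
    rw [map_neg]
    linear_combination -X 1 * q012
  · show (X 1 * ξ 2 a0 - X 2 * ξ 1 a0) * (X 0 * ξ 2 b0 - X 2 * ξ 0 b0) - (X 1 * ξ 2 b0 - X 2 * ξ 1 b0) * (X 0 * ξ 2 a0 - X 2 * ξ 0 a0) = C (-c) * (-(X 0 * X 2 ^ 2 - X 1 ^ 2 * X 2)) * θ a0 b0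
    rw [map_neg]
    linear_combination -X 2 * q012
  · show (X 1 * ξ 2 a0 - X 2 * ξ 1 a0) * (X 1 * ξ 2 b0 - X 2 * ξ 1 b0) - (X 1 * ξ 2 b0 - X 2 * ξ 1 b0) * (X 1 * ξ 2 a0 - X 2 * ξ 1 a0) = C (-c) * (0) * θ a0 b0
    rw [map_neg]
    ring
  · show (X 1 * ξ 2 a0 - X 2 * ξ 1 a0) * (X 2 * ξ 3 b0 - X 3 * ξ 2 b0) - (X 1 * ξ 2 b0 - X 2 * ξ 1 b0) * (X 2 * ξ 3 a0 - X 3 * ξ 2 a0) = C (-c) * (X 2 ^ 2 * X 3) * θ a0 b0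
    rw [map_neg]
    linear_combination X 2 * q123
  · show (X 1 * ξ 2 a0 - X 2 * ξ 1 a0) * (X 2 * ξ 4 b0 - X 4 * ξ 2 b0) - (X 1 * ξ 2 b0 - X 2 * ξ 1 b0) * (X 2 * ξ 4 a0 - X 4 * ξ 2 a0) = C (-c) * (-(X 1 * X 2 * X 3)) * θ a0 b0
    rw [map_neg]
    linear_combination X 2 * q124
  · show (X 1 * ξ 2 a0 - X 2 * ξ 1 a0) * (X 0 * ξ 3 b0 - X 3 * ξ 0 b0) - (X 1 * ξ 2 b0 - X 2 * ξ 1 b0) * (X 0 * ξ 3 a0 - X 3 * ξ 0 a0) = C (-c) * (X 1 ^ 2 * X 3) * θ a0 b0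
    rw [map_neg]
    linear_combination -X 2 * q013 + X 1 * q023
  · show (X 1 * ξ 2 a0 - X 2 * ξ 1 a0) * (X 0 * ξ 4 b0 - X 4 * ξ 0 b0) - (X 1 * ξ 2 b0 - X 2 * ξ 1 b0) * (X 0 * ξ 4 a0 - X 4 * ξ 0 a0) = C (-c) * (X 1 ^ 2 * X 4 - X 0 * X 1 * X 3 - X 0 * X 2 * X 4) * θ a0 b0
    rw [map_neg]
    linear_combination -X 2 * q014 + X 1 * q024
  · show (X 1 * ξ 2 a0 - X 2 * ξ 1 a0) * (X 3 * ξ 4 b0 - X 4 * ξ 3 b0) - (X 1 * ξ 2 b0 - X 2 * ξ 1 b0) * (X 3 * ξ 4 a0 - X 4 * ξ 3 a0) = C (-c) * (-(X 1 * X 3 ^ 2) - X 2 * X 3 * X 4) * θ a0 b0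
    rw [map_neg]
    linear_combination X 2 * q134 - X 1 * q234
  · show (X 2 * ξ 3 a0 - X 3 * ξ 2 a0) * (X 0 * ξ 1 b0 - X 1 * ξ 0 b0) - (X 2 * ξ 3 b0 - X 3 * ξ 2 b0) * (X 0 * ξ 1 a0 - X 1 * ξ 0 a0) = C (-c) * (-(X 1 ^ 2 * X 3 - X 0 * X 2 * X 3 - X 1 * X 2 * X 4)) * θ a0 b0
    rw [map_neg]
    linear_combination X 3 * q012 - X 2 * q013
  · show (X 2 * ξ 3 a0 - X 3 * ξ 2 a0) * (X 0 * ξ 2 b0 - X 2 * ξ 0 b0) - (X 2 * ξ 3 b0 - X 3 * ξ 2 b0) * (X 0 * ξ 2 a0 - X 2 * ξ 0 a0) = C (-c) * (-(X 1 * X 2 * X 3 - X 2 ^ 2 * X 4)) * θ a0 b0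
    rw [map_neg]
    linear_combination -X 2 * q023
  · show (X 2 * ξ 3 a0 - X 3 * ξ 2 a0) * (X 1 * ξ 2 b0 - X 2 * ξ 1 b0) - (X 2 * ξ 3 b0 - X 3 * ξ 2 b0) * (X 1 * ξ 2 a0 - X 2 * ξ 1 a0) = C (-c) * (-(X 2 ^ 2 * X 3)) * θ a0 b0
    rw [map_neg]
    linear_combination -X 2 * q123
  · show (X 2 * ξ 3 a0 - X 3 * ξ 2 a0) * (X 2 * ξ 3 b0 - X 3 * ξ 2 b0) - (X 2 * ξ 3 b0 - X 3 * ξ 2 b0) * (X 2 * ξ 3 a0 - X 3 * ξ 2 a0) = C (-c) * (0) * θ a0 b0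
    rw [map_neg]
    ring
  · show (X 2 * ξ 3 a0 - X 3 * ξ 2 a0) * (X 2 * ξ 4 b0 - X 4 * ξ 2 b0) - (X 2 * ξ 3 b0 - X 3 * ξ 2 b0) * (X 2 * ξ 4 a0 - X 4 * ξ 2 a0) = C (-c) * (X 2 * X 3 ^ 2) * θ a0 b0
    rw [map_neg]
    linear_combination X 2 * q234
  · show (X 2 * ξ 3 a0 - X 3 * ξ 2 a0) * (X 0 * ξ 3 b0 - X 3 * ξ 0 b0) - (X 2 * ξ 3 b0 - X 3 * ξ 2 b0) * (X 0 * ξ 3 a0 - X 3 * ξ 0 a0) = C (-c) * (X 2 * X 3 * X 4 - X 1 * X 3 ^ 2) * θ a0 b0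
    rw [map_neg]
    linear_combination -X 3 * q023
  · show (X 2 * ξ 3 a0 - X 3 * ξ 2 a0) * (X 0 * ξ 4 b0 - X 4 * ξ 0 b0) - (X 2 * ξ 3 b0 - X 3 * ξ 2 b0) * (X 0 * ξ 4 a0 - X 4 * ξ 0 a0) = C (-c) * (X 0 * X 3 ^ 2 - X 1 * X 3 * X 4 + X 2 * X 4 ^ 2) * θ a0 b0
    rw [map_neg]
    linear_combination -X 3 * q024 + X 2 * q034
  · show (X 2 * ξ 3 a0 - X 3 * ξ 2 a0) * (X 3 * ξ 4 b0 - X 4 * ξ 3 b0) - (X 2 * ξ 3 b0 - X 3 * ξ 2 b0) * (X 3 * ξ 4 a0 - X 4 * ξ 3 a0) = C (-c) * (X 3 ^ 3) * θ a0 b0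
    rw [map_neg]
    linear_combination X 3 * q234
  · show (X 2 * ξ 4 a0 - X 4 * ξ 2 a0) * (X 0 * ξ 1 b0 - X 1 * ξ 0 b0) - (X 2 * ξ 4 b0 - X 4 * ξ 2 b0) * (X 0 * ξ 1 a0 - X 1 * ξ 0 a0) = C (-c) * (-(X 1 ^ 2 * X 4)) * θ a0 b0
    rw [map_neg]
    linear_combination X 4 * q012 - X 2 * q014
  · show (X 2 * ξ 4 a0 - X 4 * ξ 2 a0) * (X 0 * ξ 2 b0 - X 2 * ξ 0 b0) - (X 2 * ξ 4 b0 - X 4 * ξ 2 b0) * (X 0 * ξ 2 a0 - X 2 * ξ 0 a0) = C (-c) * (-(X 1 * X 2 * X 4 - X 0 * X 2 * X 3)) * θ a0 b0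
    rw [map_neg]
    linear_combination -X 2 * q024
  · show (X 2 * ξ 4 a0 - X 4 * ξ 2 a0) * (X 1 * ξ 2 b0 - X 2 * ξ 1 b0) - (X 2 * ξ 4 b0 - X 4 * ξ 2 b0) * (X 1 * ξ 2 a0 - X 2 * ξ 1 a0) = C (-c) * (X 1 * X 2 * X 3) * θ a0 b0
    rw [map_neg]
    linear_combination -X 2 * q124
  · show (X 2 * ξ 4 a0 - X 4 * ξ 2 a0) * (X 2 * ξ 3 b0 - X 3 * ξ 2 b0) - (X 2 * ξ 4 b0 - X 4 * ξ 2 b0) * (X 2 * ξ 3 a0 - X 3 * ξ 2 a0) = C (-c) * (-(X 2 * X 3 ^ 2)) * θ a0 b0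
    rw [map_neg]
    linear_combination -X 2 * q234
  · show (X 2 * ξ 4 a0 - X 4 * ξ 2 a0) * (X 2 * ξ 4 b0 - X 4 * ξ 2 b0) - (X 2 * ξ 4 b0 - X 4 * ξ 2 b0) * (X 2 * ξ 4 a0 - X 4 * ξ 2 a0) = C (-c) * (0) * θ a0 b0
    rw [map_neg]
    ring
  · show (X 2 * ξ 4 a0 - X 4 * ξ 2 a0) * (X 0 * ξ 3 b0 - X 3 * ξ 0 b0) - (X 2 * ξ 4 b0 - X 4 * ξ 2 b0) * (X 0 * ξ 3 a0 - X 3 * ξ 0 a0) = C (-c) * (-(X 1 * X 3 * X 4)) * θ a0 b0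
    rw [map_neg]
    linear_combination -X 4 * q023 - X 2 * q034
  · show (X 2 * ξ 4 a0 - X 4 * ξ 2 a0) * (X 0 * ξ 4 b0 - X 4 * ξ 0 b0) - (X 2 * ξ 4 b0 - X 4 * ξ 2 b0) * (X 0 * ξ 4 a0 - X 4 * ξ 0 a0) = C (-c) * (X 0 * X 3 * X 4 - X 1 * X 4 ^ 2) * θ a0 b0
    rw [map_neg]
    linear_combination -X 4 * q024
  · show (X 2 * ξ 4 a0 - X 4 * ξ 2 a0) * (X 3 * ξ 4 b0 - X 4 * ξ 3 b0) - (X 2 * ξ 4 b0 - X 4 * ξ 2 b0) * (X 3 * ξ 4 a0 - X 4 * ξ 3 a0) = C (-c) * (X 3 ^ 2 * X 4) * θ a0 b0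
    rw [map_neg]
    linear_combination X 4 * q234
  · show (X 0 * ξ 3 a0 - X 3 * ξ 0 a0) * (X 0 * ξ 1 b0 - X 1 * ξ 0 b0) - (X 0 * ξ 3 b0 - X 3 * ξ 0 b0) * (X 0 * ξ 1 a0 - X 1 * ξ 0 a0) = C (-c) * (X 0 * X 1 * X 4) * θ a0 b0
    rw [map_neg]
    linear_combination -X 0 * q013
  · show (X 0 * ξ 3 a0 - X 3 * ξ 0 a0) * (X 0 * ξ 2 b0 - X 2 * ξ 0 b0) - (X 0 * ξ 3 b0 - X 3 * ξ 0 b0) * (X 0 * ξ 2 a0 - X 2 * ξ 0 a0) = C (-c) * (-(X 0 * X 1 * X 3 - X 0 * X 2 * X 4)) * θ a0 b0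
    rw [map_neg]
    linear_combination -X 0 * q023
  · show (X 0 * ξ 3 a0 - X 3 * ξ 0 a0) * (X 1 * ξ 2 b0 - X 2 * ξ 1 b0) - (X 0 * ξ 3 b0 - X 3 * ξ 0 b0) * (X 1 * ξ 2 a0 - X 2 * ξ 1 a0) = C (-c) * (-(X 1 ^ 2 * X 3)) * θ a0 b0
    rw [map_neg]
    linear_combination X 3 * q012 - X 0 * q123
  · show (X 0 * ξ 3 a0 - X 3 * ξ 0 a0) * (X 2 * ξ 3 b0 - X 3 * ξ 2 b0) - (X 0 * ξ 3 b0 - X 3 * ξ 0 b0) * (X 2 * ξ 3 a0 - X 3 * ξ 2 a0) = C (-c) * (-(X 2 * X 3 * X 4 - X 1 * X 3 ^ 2)) * θ a0 b0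
    rw [map_neg]
    linear_combination X 3 * q023
  · show (X 0 * ξ 3 a0 - X 3 * ξ 0 a0) * (X 2 * ξ 4 b0 - X 4 * ξ 2 b0) - (X 0 * ξ 3 b0 - X 3 * ξ 0 b0) * (X 2 * ξ 4 a0 - X 4 * ξ 2 a0) = C (-c) * (X 1 * X 3 * X 4) * θ a0 b0
    rw [map_neg]
    linear_combination X 3 * q024 + X 0 * q234
  · show (X 0 * ξ 3 a0 - X 3 * ξ 0 a0) * (X 0 * ξ 3 b0 - X 3 * ξ 0 b0) - (X 0 * ξ 3 b0 - X 3 * ξ 0 b0) * (X 0 * ξ 3 a0 - X 3 * ξ 0 a0) = C (-c) * (0) * θ a0 b0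
    rw [map_neg]
    ring
  · show (X 0 * ξ 3 a0 - X 3 * ξ 0 a0) * (X 0 * ξ 4 b0 - X 4 * ξ 0 b0) - (X 0 * ξ 3 b0 - X 3 * ξ 0 b0) * (X 0 * ξ 4 a0 - X 4 * ξ 0 a0) = C (-c) * (X 0 * X 4 ^ 2) * θ a0 b0
    rw [map_neg]
    linear_combination X 0 * q034
  · show (X 0 * ξ 3 a0 - X 3 * ξ 0 a0) * (X 3 * ξ 4 b0 - X 4 * ξ 3 b0) - (X 0 * ξ 3 b0 - X 3 * ξ 0 b0) * (X 3 * ξ 4 a0 - X 4 * ξ 3 a0) = C (-c) * (X 3 * X 4 ^ 2) * θ a0 b0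
    rw [map_neg]
    linear_combination X 3 * q034
  · show (X 0 * ξ 4 a0 - X 4 * ξ 0 a0) * (X 0 * ξ 1 b0 - X 1 * ξ 0 b0) - (X 0 * ξ 4 b0 - X 4 * ξ 0 b0) * (X 0 * ξ 1 a0 - X 1 * ξ 0 a0) = C (-c) * (-(X 0 ^ 2 * X 4)) * θ a0 b0
    rw [map_neg]
    linear_combination -X 0 * q014
  · show (X 0 * ξ 4 a0 - X 4 * ξ 0 a0) * (X 0 * ξ 2 b0 - X 2 * ξ 0 b0) - (X 0 * ξ 4 b0 - X 4 * ξ 0 b0) * (X 0 * ξ 2 a0 - X 2 * ξ 0 a0) = C (-c) * (-(X 0 * X 1 * X 4 - X 0 ^ 2 * X 3)) * θ a0 b0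
    rw [map_neg]
    linear_combination -X 0 * q024
  · show (X 0 * ξ 4 a0 - X 4 * ξ 0 a0) * (X 1 * ξ 2 b0 - X 2 * ξ 1 b0) - (X 0 * ξ 4 b0 - X 4 * ξ 0 b0) * (X 1 * ξ 2 a0 - X 2 * ξ 1 a0) = C (-c) * (-(X 1 ^ 2 * X 4 - X 0 * X 1 * X 3 - X 0 * X 2 * X 4)) * θ a0 b0
    rw [map_neg]
    linear_combination X 4 * q012 - X 0 * q124
  · show (X 0 * ξ 4 a0 - X 4 * ξ 0 a0) * (X 2 * ξ 3 b0 - X 3 * ξ 2 b0) - (X 0 * ξ 4 b0 - X 4 * ξ 0 b0) * (X 2 * ξ 3 a0 - X 3 * ξ 2 a0) = C (-c) * (-(X 0 * X 3 ^ 2 - X 1 * X 3 * X 4 + X 2 * X 4 ^ 2)) * θ a0 b0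
    rw [map_neg]
    linear_combination X 4 * q023 - X 0 * q234
  · show (X 0 * ξ 4 a0 - X 4 * ξ 0 a0) * (X 2 * ξ 4 b0 - X 4 * ξ 2 b0) - (X 0 * ξ 4 b0 - X 4 * ξ 0 b0) * (X 2 * ξ 4 a0 - X 4 * ξ 2 a0) = C (-c) * (-(X 0 * X 3 * X 4 - X 1 * X 4 ^ 2)) * θ a0 b0
    rw [map_neg]
    linear_combination X 4 * q024
  · show (X 0 * ξ 4 a0 - X 4 * ξ 0 a0) * (X 0 * ξ 3 b0 - X 3 * ξ 0 b0) - (X 0 * ξ 4 b0 - X 4 * ξ 0 b0) * (X 0 * ξ 3 a0 - X 3 * ξ 0 a0) = C (-c) * (-(X 0 * X 4 ^ 2)) * θ a0 b0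
    rw [map_neg]
    linear_combination -X 0 * q034
  · show (X 0 * ξ 4 a0 - X 4 * ξ 0 a0) * (X 0 * ξ 4 b0 - X 4 * ξ 0 b0) - (X 0 * ξ 4 b0 - X 4 * ξ 0 b0) * (X 0 * ξ 4 a0 - X 4 * ξ 0 a0) = C (-c) * (0) * θ a0 b0
    rw [map_neg]
    ring
  · show (X 0 * ξ 4 a0 - X 4 * ξ 0 a0) * (X 3 * ξ 4 b0 - X 4 * ξ 3 b0) - (X 0 * ξ 4 b0 - X 4 * ξ 0 b0) * (X 3 * ξ 4 a0 - X 4 * ξ 3 a0) = C (-c) * (X 4 ^ 3) * θ a0 b0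
    rw [map_neg]
    linear_combination X 4 * q034
  · show (X 3 * ξ 4 a0 - X 4 * ξ 3 a0) * (X 0 * ξ 1 b0 - X 1 * ξ 0 b0) - (X 3 * ξ 4 b0 - X 4 * ξ 3 b0) * (X 0 * ξ 1 a0 - X 1 * ξ 0 a0) = C (-c) * (-(X 0 * X 3 * X 4 + X 1 * X 4 ^ 2)) * θ a0 b0
    rw [map_neg]
    linear_combination X 4 * q013 - X 3 * q014
  · show (X 3 * ξ 4 a0 - X 4 * ξ 3 a0) * (X 0 * ξ 2 b0 - X 2 * ξ 0 b0) - (X 3 * ξ 4 b0 - X 4 * ξ 3 b0) * (X 0 * ξ 2 a0 - X 2 * ξ 0 a0) = C (-c) * (-(X 2 * X 4 ^ 2 - X 0 * X 3 ^ 2)) * θ a0 b0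
    rw [map_neg]
    linear_combination X 4 * q023 - X 3 * q024
  · show (X 3 * ξ 4 a0 - X 4 * ξ 3 a0) * (X 1 * ξ 2 b0 - X 2 * ξ 1 b0) - (X 3 * ξ 4 b0 - X 4 * ξ 3 b0) * (X 1 * ξ 2 a0 - X 2 * ξ 1 a0) = C (-c) * (-(-(X 1 * X 3 ^ 2) - X 2 * X 3 * X 4)) * θ a0 b0
    rw [map_neg]
    linear_combination X 4 * q123 - X 3 * q124
  · show (X 3 * ξ 4 a0 - X 4 * ξ 3 a0) * (X 2 * ξ 3 b0 - X 3 * ξ 2 b0) - (X 3 * ξ 4 b0 - X 4 * ξ 3 b0) * (X 2 * ξ 3 a0 - X 3 * ξ 2 a0) = C (-c) * (-(X 3 ^ 3)) * θ a0 b0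
    rw [map_neg]
    linear_combination -X 3 * q234
  · show (X 3 * ξ 4 a0 - X 4 * ξ 3 a0) * (X 2 * ξ 4 b0 - X 4 * ξ 2 b0) - (X 3 * ξ 4 b0 - X 4 * ξ 3 b0) * (X 2 * ξ 4 a0 - X 4 * ξ 2 a0) = C (-c) * (-(X 3 ^ 2 * X 4)) * θ a0 b0
    rw [map_neg]
    linear_combination -X 4 * q234
  · show (X 3 * ξ 4 a0 - X 4 * ξ 3 a0) * (X 0 * ξ 3 b0 - X 3 * ξ 0 b0) - (X 3 * ξ 4 b0 - X 4 * ξ 3 b0) * (X 0 * ξ 3 a0 - X 3 * ξ 0 a0) = C (-c) * (-(X 3 * X 4 ^ 2)) * θ a0 b0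
    rw [map_neg]
    linear_combination -X 3 * q034
  · show (X 3 * ξ 4 a0 - X 4 * ξ 3 a0) * (X 0 * ξ 4 b0 - X 4 * ξ 0 b0) - (X 3 * ξ 4 b0 - X 4 * ξ 3 b0) * (X 0 * ξ 4 a0 - X 4 * ξ 0 a0) = C (-c) * (-(X 4 ^ 3)) * θ a0 b0
    rw [map_neg]
    linear_combination -X 4 * q034
  · show (X 3 * ξ 4 a0 - X 4 * ξ 3 a0) * (X 3 * ξ 4 b0 - X 4 * ξ 3 b0) - (X 3 * ξ 4 b0 - X 4 * ξ 3 b0) * (X 3 * ξ 4 a0 - X 4 * ξ 3 a0) = C (-c) * (0) * θ a0 b0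
    rw [map_neg]
    ring

private lemma sF_eq (ξ : Fin 5 → F1 5) {f : Fin 5 → Fin 5 → ℂ} (hf : AltM f) (h24 : f 1 3 = 0)
    (h25 : f 1 4 = 0) (l : Fin 5) :
    sF ξ f l = C (f 0 1) * sv ξ 0 1 l + C (f 0 2) * sv ξ 0 2 l + C (f 1 2) * sv ξ 1 2 l +
      C (f 2 3) * sv ξ 2 3 l + C (f 2 4) * sv ξ 2 4 l + C (f 0 3) * sv ξ 0 3 l +
      C (f 0 4) * sv ξ 0 4 l + C (f 3 4) * sv ξ 3 4 l := by
  have hs : ∀ i j, f i j = - f j i := hf.2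
  unfold sF sv
  simp only [Fin.sum_univ_five]
  rw [hs 1 0, hs 2 0, hs 2 1, hs 3 0, hs 3 1, hs 3 2, hs 4 0, hs 4 1, hs 4 2, hs 4 3, hf.1, hf.1,
    hf.1, hf.1, hf.1, h24, h25]
  simp only [map_neg, map_zero]
  ring

theorem gf {θ : F2 5} {b : F3 5} {ξ : Fin 5 → F1 5} (h : Hyp θ b ξ) (hN1 : sF ξ N1 = 0)
    (hN2 : sF ξ N2 = 0) {α : Fin 5 → Fin 5 → Fin 5 → ℂ} (hα : ∀ i, AltM (α i))
    (hs : ∀ i, sF ξ (α i) = θ i) (h24 : ∀ i, α i 1 3 = 0) (h25 : ∀ i, α i 1 4 = 0) :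
    ∃ κ : ℂ, ∀ i j, θ i j =
      C κ * ∑ p, ∑ r, DP p r * C (cov α p i * cov α r j) := by
  obtain ⟨a0, b0, hT⟩ : ∃ a0 b0, θ a0 b0 ≠ 0 := by
    by_contra hcon
    push Not at hcon
    exact not_isUnit_zero (h.fol.prim 0 (fun i j => by rw [hcon i j]))
  have n1 : ∀ l, X 0 * ξ 3 l - X 3 * ξ 0 l + (X 1 * ξ 4 l - X 4 * ξ 1 l) = 0 := by
    intro l
    have := congrFun hN1 l
    simp only [sF, N1, Fin.sum_univ_five, Pi.zero_apply] at this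
    simp at this
    linear_combination this
  have n2 : ∀ l, X 1 * ξ 3 l - X 3 * ξ 1 l + (X 2 * ξ 4 l - X 4 * ξ 2 l) = 0 := by
    intro l
    have := congrFun hN2 l
    simp only [sF, N2, Fin.sum_univ_five, Pi.zero_apply] at this
    simp at this
    linear_combination this
  obtain ⟨G012, g012⟩ := ex_G h 0 1 2
  obtain ⟨G013, g013⟩ := ex_G h 0 1 3
  obtain ⟨G014, g014⟩ := ex_G h 0 1 4
  obtain ⟨G023, g023⟩ := ex_G h 0 2 3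
  obtain ⟨G024, g024⟩ := ex_G h 0 2 4
  obtain ⟨G034, g034⟩ := ex_G h 0 3 4
  obtain ⟨G123, g123⟩ := ex_G h 1 2 3
  obtain ⟨G124, g124⟩ := ex_G h 1 2 4
  obtain ⟨G134, g134⟩ := ex_G h 1 3 4
  obtain ⟨G234, g234⟩ := ex_G h 2 3 4
  replace g012 := g012 a0 b0
  replace g013 := g013 a0 b0
  replace g014 := g014 a0 b0
  replace g023 := g023 a0 b0
  replace g024 := g024 a0 b0
  replace g034 := g034 a0 b0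
  replace g123 := g123 a0 b0
  replace g124 := g124 a0 b0
  replace g134 := g134 a0 b0
  replace g234 := g234 a0 b0
  have n1a := n1 a0
  have n1b := n1 b0
  have n2a := n2 a0
  have n2b := n2 b0
  have gg013 := g013
  unfold om at g012 g013 g014 g023 g024 g034 g123 g124 g134 g234
  have r1 : X 3 * G013 - X 1 * G134 = 0 := by
    apply mul_right_cancel₀ hT
    rw [zero_mul]
    linear_combination (-X 3) * g013 + X 1 * g134 + (X 1 * ξ 3 b0 - X 3 * ξ 1 b0) * n1a -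
      (X 1 * ξ 3 a0 - X 3 * ξ 1 a0) * n1b
  have r2 : -(X 4 * G013) - X 1 * G034 = 0 := by
    apply mul_right_cancel₀ hT
    rw [zero_mul]
    linear_combination (X 4) * g013 + X 1 * g034 + (X 0 * ξ 3 b0 - X 3 * ξ 0 b0) * n1a -
      (X 0 * ξ 3 a0 - X 3 * ξ 0 a0) * n1b
  have r3 : X 3 * G014 + X 0 * G134 = 0 := by
    apply mul_right_cancel₀ hT
    rw [zero_mul]
    linear_combination (-X 3) * g014 - X 0 * g134 + (X 1 * ξ 4 b0 - X 4 * ξ 1 b0) * n1a -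
      (X 1 * ξ 4 a0 - X 4 * ξ 1 a0) * n1b
  have r4 : X 3 * G134 + X 4 * G234 = 0 := by
    apply mul_right_cancel₀ hT
    rw [zero_mul]
    linear_combination (-X 3) * g134 - X 4 * g234 + (X 3 * ξ 4 b0 - X 4 * ξ 3 b0) * n2a -
      (X 3 * ξ 4 a0 - X 4 * ξ 3 a0) * n2b
  have r5 : -(X 4 * G123) - X 2 * G134 = 0 := by
    apply mul_right_cancel₀ hT
    rw [zero_mul]
    linear_combination (X 4) * g123 + X 2 * g134 + (X 1 * ξ 3 b0 - X 3 * ξ 1 b0) * n2a -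
      (X 1 * ξ 3 a0 - X 3 * ξ 1 a0) * n2b
  have r6 : X 1 * G134 - X 4 * G124 = 0 := by
    apply mul_right_cancel₀ hT
    rw [zero_mul]
    linear_combination (-X 1) * g134 + X 4 * g124 + (X 1 * ξ 4 b0 - X 4 * ξ 1 b0) * n2a -
      (X 1 * ξ 4 a0 - X 4 * ξ 1 a0) * n2b
  have r7 : -(X 3 * G013) - X 4 * G023 - X 2 * G034 = 0 := by
    apply mul_right_cancel₀ hT
    rw [zero_mul]
    linear_combination (X 3) * g013 + X 4 * g023 + X 2 * g034 +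
      (X 0 * ξ 3 b0 - X 3 * ξ 0 b0) * n2a - (X 0 * ξ 3 a0 - X 3 * ξ 0 a0) * n2b
  have r8 : -(X 3 * G014) + X 1 * G034 - X 4 * G024 = 0 := by
    apply mul_right_cancel₀ hT
    rw [zero_mul]
    linear_combination (X 3) * g014 - X 1 * g034 + X 4 * g024 +
      (X 0 * ξ 4 b0 - X 4 * ξ 0 b0) * n2a - (X 0 * ξ 4 a0 - X 4 * ξ 0 a0) * n2b
  have r9 : -(X 1 * G013) + X 4 * G012 - X 2 * G014 = 0 := by
    apply mul_right_cancel₀ hT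
    rw [zero_mul]
    linear_combination (X 1) * g013 - X 4 * g012 + X 2 * g014 +
      (X 0 * ξ 1 b0 - X 1 * ξ 0 b0) * n2a - (X 0 * ξ 1 a0 - X 1 * ξ 0 a0) * n2b
  have hx : ∀ i : Fin 5, (X i : MvPolynomial (Fin 5) ℂ) ≠ 0 := fun i => X_prime.ne_zero
  obtain ⟨m, hm⟩ : (X 1 : MvPolynomial (Fin 5) ℂ) ∣ G013 :=
    x_dvd (j := 3) (by decide) ⟨G134, by linear_combination r1⟩
  have s134 : G134 = X 3 * m := by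
    apply mul_left_cancel₀ (hx 1)
    rw [hm] at r1
    linear_combination -r1
  obtain ⟨c', hc'⟩ : (X 4 : MvPolynomial (Fin 5) ℂ) ∣ m := by
    apply x_dvd (j := 3) (by decide)
    apply x_dvd (j := 3) (by decide)
    refine ⟨-G234, ?_⟩
    rw [s134] at r4
    linear_combination r4
  rw [hc'] at hm s134
  have s034 : G034 = c' * (-(X 4 ^ 2)) := by
    apply mul_left_cancel₀ (hx 1)
    rw [hm] at r2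
    linear_combination -r2
  have s014 : G014 = c' * (-(X 0 * X 4)) := by
    apply mul_left_cancel₀ (hx 3)
    rw [s134] at r3
    linear_combination r3
  have s234 : G234 = c' * (-(X 3 ^ 2)) := by
    apply mul_left_cancel₀ (hx 4)
    rw [s134] at r4
    linear_combination r4
  have s123 : G123 = c' * (-(X 2 * X 3)) := by
    apply mul_left_cancel₀ (hx 4)
    rw [s134] at r5
    linear_combination -r5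
  have s124 : G124 = c' * (X 1 * X 3) := by
    apply mul_left_cancel₀ (hx 4)
    rw [s134] at r6
    linear_combination -r6
  have s023 : G023 = c' * (X 2 * X 4 - X 1 * X 3) := by
    apply mul_left_cancel₀ (hx 4)
    rw [hm, s034] at r7
    linear_combination -r7
  have s024 : G024 = c' * (X 0 * X 3 - X 1 * X 4) := by
    apply mul_left_cancel₀ (hx 4)
    rw [s014, s034] at r8
    linear_combination -r8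
  have s012 : G012 = c' * (X 1 ^ 2 - X 0 * X 2) := by
    apply mul_left_cancel₀ (hx 4)
    rw [hm, s014] at r9
    linear_combination r9
  obtain ⟨c, hc⟩ : ∃ c : ℂ, c' = C c := by
    by_cases h0 : c' = 0
    · exact ⟨0, by rw [h0, map_zero]⟩
    have e1 : om ξ 0 1 3 a0 b0 = (X 1 * X 4 * c') * θ a0 b0 := by
      rw [gg013, hm]; ring
    have hom : (om ξ 0 1 3 a0 b0).IsHomogeneous 5 := by
      have hw : ∀ i j k : Fin 5, (X i * (ξ j a0 * ξ k b0 - ξ j b0 * ξ k a0) :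
          MvPolynomial (Fin 5) ℂ).IsHomogeneous 5 := by
        intro i j k
        exact (isHomogeneous_X ℂ i).mul (((h.hξ j a0).mul (h.hξ k b0)).sub
          ((h.hξ j b0).mul (h.hξ k a0)))
      exact ((hw _ _ _).add (hw _ _ _)).add (hw _ _ _)
    have hne : X 1 * X 4 * c' ≠ 0 := mul_ne_zero (mul_ne_zero (hx 1) (hx 4)) h0
    have hne2 : om ξ 0 1 3 a0 b0 ≠ 0 := by rw [e1]; exact mul_ne_zero hne hT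
    have d1 := hom.totalDegree hne2
    rw [e1, totalDegree_mul_of_isDomain hne hT, (h.fol.hom a0 b0).totalDegree hT,
      totalDegree_mul_of_isDomain (mul_ne_zero (hx 1) (hx 4)) h0,
      totalDegree_mul_of_isDomain (hx 1) (hx 4), totalDegree_X, totalDegree_X] at d1
    have d2 : c'.totalDegree = 0 := by omega
    exact ⟨_, totalDegree_eq_zero_iff_eq_C.mp d2⟩
  rw [hc] at hm s134 s034 s014 s234 s123 s124 s023 s024 s012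
  have htab := table (θ := θ) (ξ := ξ) (a0 := a0) (b0 := b0) (c := c)
    (by rw [← s012]; exact g012) (by
      show _ = _
      rw [show C c * (X 1 * X 4) * θ a0 b0 = G013 * θ a0 b0 by rw [hm]; ring]; exact g013)
    (by rw [← s014]; exact g014) (by rw [← s023]; exact g023) (by rw [← s024]; exact g024)
    (by rw [← s034]; exact g034) (by rw [← s123]; exact g123) (by rw [← s124]; exact g124)
    (by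
      rw [show C c * (X 3 * X 4) * θ a0 b0 = G134 * θ a0 b0 by rw [s134]; ring]; exact g134)
    (by rw [← s234]; exact g234)
  have hrow : ∀ i l, θ i l = ∑ p, C (cov α p i) * SS ξ p l := by
    intro i l
    rw [← congrFun (hs i) l, sF_eq ξ (hα i) (h24 i) (h25 i) l, Fin.sum_univ_eight]
    rfl
  refine ⟨-c, fun i j => ?_⟩
  apply mul_right_cancel₀ hT
  have hpf := h.fol.dec.2.2 i j a0 b0
  unfold pf at hpf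
  have e2 : θ i j * θ a0 b0 = θ i a0 * θ j b0 - θ i b0 * θ j a0 := by
    linear_combination hpf
  rw [e2, hrow i a0, hrow j b0, hrow i b0, hrow j a0, Finset.sum_mul_sum, Finset.sum_mul_sum,
    ← Finset.sum_sub_distrib, Finset.mul_sum, Finset.sum_mul]
  refine Finset.sum_congr rfl fun p _ => ?_
  rw [← Finset.sum_sub_distrib, Finset.mul_sum, Finset.sum_mul]
  refine Finset.sum_congr rfl fun r _ => ?_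
  rw [map_mul]
  linear_combination (C (cov α p i) * C (cov α r j)) * htab p r

end Pool.Agent.Helper35.LX
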