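import Pool.Agent.Helper35.LX.Defs
import Pool.Agent.Helper71.FC.Rest

/-!
LX-3: the map `s`, first properties.

`sF_mem`: `w12 (sF ξ f) θ = ∑ f_ij x_i x_j b = 0`.
`sF_ww`: `sF ξ (ww y y') = y ξ_{y'} - y' ξ_y` with `y = lf y` etc.; `ann_lemma` (FC/Sat.lean).
`sF_rank`: with `S12 = sF ξ (ww e0 e1)`, `S13 = sF ξ (ww e0 e2)`, `S12 ∧ S13 ≠ 0`.  Otherwise: `S12` has no non constant common factor `p`
(`S12 = p T`, `deg T ≤ 2`, `T ∈ E#`, so `x_0^(2 - deg T) T ∈ EE θ 2 = ⊥`, `T = 0`, contradiction to `sF_ww`; `p` may be taken irreducible, a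
factor of a homogeneous polynomial is homogeneous, or take the homogeneous components of `T` which lie in `E#`), so `S13 = c S12` with
`c` a polynomial (unique factorisation), of degree 0, and `sF ξ (ww e0 (e2 - c e1)) = 0`, contradiction to `sF_ww`.
-/

set_option autoImplicit false

namespace Pool.Agent.Helper35.LX

open MvPolynomial
open scoped BigOperators
open Pool.Agent.Helper71.FL (w12 pf ct Dec Closed dd)
open Pool.Agent.Helper71.FC
open Pool.Agent.Helper93 (lsub lmap OF pb)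

theorem sF_add (ξ : Fin 5 → F1 5) (f f' : Fin 5 → Fin 5 → ℂ) :
    sF ξ (fun i j => f i j + f' i j) = sF ξ f + sF ξ f' := by
  funext l
  unfold sF
  simp only [Pi.add_apply, map_add, add_mul, Finset.sum_add_distrib]

theorem sF_smul (ξ : Fin 5 → F1 5) (c : ℂ) (f : Fin 5 → Fin 5 → ℂ) :
    sF ξ (fun i j => c * f i j) = c • sF ξ f := by
  funext l
  unfold sF
  simp only [Pi.smul_apply, smul_eq_C_mul, map_mul, Finset.mul_sum, mul_assoc]

theorem sF_mem {θ : F2 5} {b : F3 5} {ξ : Fin 5 → F1 5} (h : Hyp θ b ξ) {f : Fin 5 → Fin 5 → ℂ}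
    (hf : AltM f) : sF ξ f ∈ EE θ 3 := by
  refine ⟨fun l => ?_, fun i j k => ?_⟩
  · refine IsHomogeneous.sum _ _ _ fun a _ => IsHomogeneous.sum _ _ _ fun c _ => ?_
    have h1 := (isHomogeneous_C (Fin 5) (f a c)).mul ((isHomogeneous_X ℂ a).mul (h.hξ c l))
    exact h1
  · have h1 : w12 (sF ξ f) θ i j k = ∑ a, ∑ c, C (f a c) * (X a * (X c * b i j k)) := by
      unfold w12 sF
      simp only [Finset.sum_mul]
      rw [← Finset.sum_add_distrib, ← Finset.sum_add_distrib]
      refine Finset.sum_congr rfl fun a _ => ?_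
      rw [← Finset.sum_add_distrib, ← Finset.sum_add_distrib]
      refine Finset.sum_congr rfl fun c _ => ?_
      have h2 := h.hb c i j k
      unfold w12 at h2
      rw [h2]
      ring
    rw [h1]
    have h2 : ∑ a : Fin 5, ∑ c : Fin 5, C (f a c) * ((X a : MvPolynomial (Fin 5) ℂ) * (X c * b i j k)) =
        -∑ a : Fin 5, ∑ c : Fin 5, C (f a c) * ((X a : MvPolynomial (Fin 5) ℂ) * (X c * b i j k)) := by
      conv_lhs => rw [Finset.sum_comm]
      rw [← Finset.sum_neg_distrib]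
      refine Finset.sum_congr rfl fun a _ => ?_
      rw [← Finset.sum_neg_distrib]
      refine Finset.sum_congr rfl fun c _ => ?_
      rw [hf.2 c a, map_neg]
      ring
    have h3 : (2 : MvPolynomial (Fin 5) ℂ) *
        ∑ a : Fin 5, ∑ c : Fin 5, C (f a c) * (X a * (X c * b i j k)) = 0 := by
      linear_combination h2
    exact (mul_eq_zero.mp h3).resolve_left two_ne_zero

private noncomputable def ka_L (y : Fin 5 → ℂ) : MvPolynomial (Fin 5) ℂ := ∑ i, C (y i) * X i

private theorem ka_hom (y : Fin 5 → ℂ) : (ka_L y).IsHomogeneous 1 := by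
  refine IsHomogeneous.sum _ _ _ fun i _ => ?_
  have h1 := (isHomogeneous_C (Fin 5) (y i)).mul (isHomogeneous_X ℂ i)
  exact h1

private theorem ka_eval (y : Fin 5 → ℂ) (i : Fin 5) : eval (Pi.single i 1) (ka_L y) = y i := by
  unfold ka_L
  rw [map_sum, Finset.sum_eq_single i]
  · simp
  · intro j _ hj
    simp [Pi.single_eq_of_ne hj]
  · simp

private theorem ka_w12 {θ : F2 5} {b : F3 5} {ξ : Fin 5 → F1 5} (h : Hyp θ b ξ) (y : Fin 5 → ℂ)
    (i j k : Fin 5) : ka_L y * b i j k = w12 (fun l => ∑ a, C (y a) * ξ a l) θ i j k := by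
  unfold w12 ka_L
  simp only [Finset.sum_mul]
  rw [← Finset.sum_add_distrib, ← Finset.sum_add_distrib]
  refine Finset.sum_congr rfl fun a _ => ?_
  have h2 := h.hb a i j k
  unfold w12 at h2
  linear_combination (C (y a)) * h2

private theorem ka_ww (ξ : Fin 5 → F1 5) (y y' : Fin 5 → ℂ) (l : Fin 5) :
    sF ξ (ww y y') l = ka_L y * (∑ a, C (y' a) * ξ a l) - ka_L y' * (∑ a, C (y a) * ξ a l) := by
  unfold sF ka_L ww
  rw [Finset.sum_mul, Finset.sum_mul, ← Finset.sum_sub_distrib]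
  refine Finset.sum_congr rfl fun i _ => ?_
  rw [Finset.mul_sum, Finset.mul_sum, ← Finset.sum_sub_distrib]
  refine Finset.sum_congr rfl fun j _ => ?_
  rw [map_sub, map_mul, map_mul]
  ring

theorem sF_ww {θ : F2 5} {b : F3 5} {ξ : Fin 5 → F1 5} (h : Hyp θ b ξ) {y y' : Fin 5 → ℂ}
    (hy : Ind2 y y') : sF ξ (ww y y') ≠ 0 := by
  intro h0
  obtain ⟨-, l, hl⟩ := ann_lemma h.nb (ka_hom y) (ka_hom y') (fun c c' hc => hy c c' fun i => by
    have h1 := congrArg (eval (Pi.single i 1)) hc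
    rw [map_add, map_mul, map_mul, ka_eval, ka_eval, eval_C, eval_C, map_zero] at h1
    exact h1) (ka_w12 h y) (ka_w12 h y')
  apply hl
  rw [← ka_ww, h0]
  rfl

private theorem ka_low {θ : F2 5} {b : F3 5} {ξ : Fin 5 → F1 5} (h : Hyp θ b ξ) {T : F1 5}
    (hT : ∀ i j k, w12 T θ i j k = 0) {d : ℕ} (hd : d ≤ 2) (l : Fin 5) :
    homogeneousComponent d (T l) = 0 := by
  have h1 : (fun l => X 0 ^ (2 - d) * homogeneousComponent d (T l)) ∈ EE θ 2 := by
    refine ⟨fun i => ?_, fun i j k => ?_⟩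
    · have h2 := ((isHomogeneous_X ℂ (0 : Fin 5)).pow (2 - d)).mul
        (homogeneousComponent_isHomogeneous d (T i))
      rw [show 1 * (2 - d) + d = 2 by omega] at h2
      exact h2
    · have h3 := hc_w12 h.fol.hom T d i j k
      rw [hT, map_zero] at h3
      have h4 : w12 (fun l => X 0 ^ (2 - d) * homogeneousComponent d (T l)) θ i j k =
          X 0 ^ (2 - d) * w12 (fun l => homogeneousComponent d (T l)) θ i j k := by
        unfold w12
        ring
      rw [h4, ← h3, mul_zero]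
  rw [h.e2, Submodule.mem_bot] at h1
  have h5 := congrFun h1 l
  simp only [Pi.zero_apply] at h5
  exact (mul_eq_zero.mp h5).resolve_left (pow_ne_zero _ (X_ne_zero 0))

private theorem ka_deg {θ : F2 5} {b : F3 5} {ξ : Fin 5 → F1 5} (h : Hyp θ b ξ) {T : F1 5}
    (hT : ∀ i j k, w12 T θ i j k = 0) {l : Fin 5} (hl : T l ≠ 0) : 3 ≤ (T l).totalDegree := by
  by_contra hcon
  apply hl
  rw [← sum_homogeneousComponent (T l)]
  refine Finset.sum_eq_zero fun d hd => ?_
  rw [Finset.mem_range] at hd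
  exact ka_low h hT (by omega) l

private theorem ka_alt (y y' : Fin 5 → ℂ) : AltM (ww y y') :=
  ⟨fun i => by unfold ww; ring, fun i j => by unfold ww; ring⟩

/-- proportional members of `E#_3` are proportional over `ℂ` -/
private theorem ka_prop {θ : F2 5} {b : F3 5} {ξ : Fin 5 → F1 5} (h : Hyp θ b ξ) {S S' : F1 5}
    (hS : S ∈ EE θ 3) (hS' : S' ∈ EE θ 3) (h0 : S ≠ 0) (hw : ∀ l m, w11 S S' l m = 0) :
    ∃ a0 b0 : ℂ, a0 ≠ 0 ∧ ∀ l, C a0 * S' l = C b0 * S l := by
  obtain ⟨l0, hl0⟩ : ∃ l, S l ≠ 0 := by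
    by_contra hcon
    push Not at hcon
    exact h0 (funext hcon)
  obtain ⟨a', b', c', hrel, ha, hb⟩ :=
    UniqueFactorizationMonoid.exists_reduced_factors (S l0) hl0 (S' l0)
  have hc0 : c' ≠ 0 := by
    rintro rfl
    rw [zero_mul] at ha
    exact hl0 ha.symm
  have ha0 : a' ≠ 0 := by
    rintro rfl
    rw [mul_zero] at ha
    exact hl0 ha.symm
  have h1 : ∀ l, a' * S' l = b' * S l := by
    intro l
    have h2 := hw l0 l
    unfold w11 at h2
    rw [← ha, ← hb] at h2
    apply mul_left_cancel₀ hc0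
    linear_combination h2
  have h3 : ∀ l, a' ∣ S l := fun l =>
    hrel.dvd_of_dvd_mul_left ⟨S' l, (h1 l).symm⟩
  choose T hT using h3
  have hTw : ∀ i j k, w12 T θ i j k = 0 := by
    intro i j k
    apply mul_left_cancel₀ ha0
    have h4 := hS.2 i j k
    rw [mul_zero, ← h4]
    unfold w12
    rw [hT i, hT j, hT k]
    ring
  have hTl : T l0 ≠ 0 := by
    intro h4
    apply hl0
    rw [hT, h4, mul_zero]
  have hd1 := ka_deg h hTw hTl
  have hd2 : (S l0).totalDegree = 3 := (hS.1 l0).totalDegree hl0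
  have hd3 : a'.totalDegree = 0 := by
    rw [hT l0, totalDegree_mul_of_isDomain ha0 hTl] at hd2
    omega
  rw [totalDegree_eq_zero_iff_eq_C] at hd3
  set a0 := coeff 0 a' with hadef
  have hb0 : ∃ b0, b' = C b0 := by
    by_cases hb' : b' = 0
    · exact ⟨0, by rw [hb', map_zero]⟩
    · refine ⟨coeff 0 b', ?_⟩
      rw [← totalDegree_eq_zero_iff_eq_C]
      have h5 := h1 l0
      have h6 : S' l0 ≠ 0 := by
        intro h7
        rw [h7, mul_zero] at h5
        exact mul_ne_zero hb' hl0 h5.symm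
      have h8 := congrArg totalDegree h5
      rw [totalDegree_mul_of_isDomain ha0 h6, totalDegree_mul_of_isDomain hb' hl0, hd2,
        (hS'.1 l0).totalDegree h6, hd3, totalDegree_C] at h8
      omega
  obtain ⟨b0, hb0⟩ := hb0
  refine ⟨a0, b0, ?_, fun l => ?_⟩
  · intro h9
    rw [h9, map_zero] at hd3
    exact ha0 hd3
  · rw [← hd3, ← hb0]
    exact h1 l

theorem sF_rank {θ : F2 5} {b : F3 5} {ξ : Fin 5 → F1 5} (h : Hyp θ b ξ) :
    ∃ l m, w11 (sF ξ (ww (Pi.single 0 1) (Pi.single 1 1))) (sF ξ (ww (Pi.single 0 1) (Pi.single 2 1)))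
      l m ≠ 0 := by
  by_contra hcon
  push Not at hcon
  have hne : sF ξ (ww (Pi.single 0 1) (Pi.single 1 1)) ≠ 0 := by
    refine sF_ww h fun c c' hc => ⟨?_, ?_⟩
    · simpa using hc 0
    · simpa using hc 1
  obtain ⟨a0, b0, ha0, hab⟩ := ka_prop h (sF_mem h (ka_alt _ _)) (sF_mem h (ka_alt _ _)) hne hcon
  have h1 : sF ξ (ww (Pi.single 0 1) (fun i => a0 * (Pi.single 2 1 : Fin 5 → ℂ) i +
      (-b0) * (Pi.single 1 1 : Fin 5 → ℂ) i)) = 0 := by
    have h2 : ww (Pi.single 0 1) (fun i => a0 * (Pi.single 2 1 : Fin 5 → ℂ) i +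
        (-b0) * (Pi.single 1 1 : Fin 5 → ℂ) i) =
        fun i j => (fun i j => a0 * ww (Pi.single 0 1) (Pi.single 2 1) i j) i j +
          (fun i j => (-b0) * ww (Pi.single 0 1) (Pi.single 1 1) i j) i j := by
      funext i j
      unfold ww
      ring
    rw [h2, sF_add, sF_smul, sF_smul]
    funext l
    have h3 := hab l
    simp only [Pi.add_apply, Pi.smul_apply, smul_eq_C_mul, Pi.zero_apply, map_neg]
    linear_combination h3
  refine sF_ww h (fun c c' hc => ?_) h1
  have h4 := hc 0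
  have h5 := hc 2
  simp [Pi.single_apply] at h4 h5
  exact ⟨h4, h5.resolve_right ha0⟩

end Pool.Agent.Helper35.LX
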