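import Pool.Agent.Helper35.LX.Defs

/-!
LX-1: linear algebra of alternating `5 × 5` matrices.

`pl`: `f ≠ 0` with vanishing Pfaffians `pf f i j k l = 0` is decomposable: take `f i j ≠ 0`, `y = f i ·`, `y' = f j ·`, then
`f i j * f k l = f i k * f j l - f i l * f j k`, so `f = (1 / f i j) • ww y y'`.

`pfv f`: the vector of the five Pfaffians (with signs): `∑ j, f i j * pfv f j = 0`, and `pfv f = 0` iff all `pf f i j k l` vanish.
`pfv_unique`: if `f` is alternating and `∑ j, f i j * k j = 0` for all `i`, then `pfv f i * k j = pfv f j * k i` (polynomial identity, or: if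
`pfv f ≠ 0` then `f` has rank 4).

`no3`: three alternating matrices without a decomposable non zero combination: there is `x` with `i_x f1, i_x f2, i_x f3` independent.
Proof. Otherwise all `3 × 3` minors of `(i_x f1, i_x f2, i_x f3)` vanish for all `x`.  Let `k = pfv f1 ≠ 0` (`pl`), `i_k f1 = 0`.  Put `x = k + t y`,
`t = 1, -1, 2`, divide by `t`: `i_y f1 ∧ u ∧ w = 0` for all `y`, `u = i_k f2`, `w = i_k f3`.  If `u, w` are independent then `i_y f1` is in the span
of `u, w` for all `y`, so `f1 = c • ww u w` is decomposable, contradiction.  So `i_k f' = 0` for some `f' = l f2 + m f3`, `(l, m) ≠ 0`.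
Choose `i0` with `k i0 ≠ 0`: `pfv (f' + t f1) i0` is a polynomial of degree 2 in `t` with leading coefficient `k i0 ≠ 0`; let `t` be a root;
`pfv (f' + t f1)` is proportional to `k` (`pfv_unique`) and has `i0`-coordinate 0, so it is 0, and `f' + t f1 ≠ 0` is decomposable.
-/

set_option autoImplicit false

namespace Pool.Agent.Helper35.LX

open MvPolynomial
open scoped BigOperators
open Pool.Agent.Helper71.FL (w12 pf ct Dec Closed dd)
open Pool.Agent.Helper71.FC
open Pool.Agent.Helper93 (lsub lmap OF pb)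

/-- the vector of Pfaffians -/
def pfv (f : Fin 5 → Fin 5 → ℂ) : Fin 5 → ℂ :=
  ![pf f 1 2 3 4, - pf f 0 2 3 4, pf f 0 1 3 4, - pf f 0 1 2 4, pf f 0 1 2 3]

private theorem pf_s1 {f : Fin 5 → Fin 5 → ℂ} (hf : AltM f) (i j k l : Fin 5) :
    pf f i j k l = - pf f j i k l := by
  unfold pf
  rw [hf.2 i j]
  ring

private theorem pf_s2 {f : Fin 5 → Fin 5 → ℂ} (hf : AltM f) (i j k l : Fin 5) :
    pf f i j k l = - pf f i k j l := by
  unfold pf
  rw [hf.2 j k]
  ring

private theorem pf_s3 {f : Fin 5 → Fin 5 → ℂ} (hf : AltM f) (i j k l : Fin 5) :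
    pf f i j k l = - pf f i j l k := by
  unfold pf
  rw [hf.2 k l]
  ring

private theorem pf_e1 {f : Fin 5 → Fin 5 → ℂ} (hf : AltM f) (i k l : Fin 5) :
    pf f i i k l = 0 := by
  unfold pf
  rw [hf.1 i]
  ring

private theorem pf_e2 {f : Fin 5 → Fin 5 → ℂ} (hf : AltM f) (i j l : Fin 5) :
    pf f i j j l = 0 := by
  unfold pf
  rw [hf.1 j]
  ring

private theorem pf_e3 {f : Fin 5 → Fin 5 → ℂ} (hf : AltM f) (i j k : Fin 5) :
    pf f i j k k = 0 := by
  unfold pf
  rw [hf.1 k]
  ring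

theorem pfv_zero {f : Fin 5 → Fin 5 → ℂ} (hf : AltM f) (h : pfv f = 0) (i j k l : Fin 5) :
    pf f i j k l = 0 := by
  have h0 : pf f 1 2 3 4 = 0 := congrFun h 0
  have h1 : pf f 0 2 3 4 = 0 := neg_eq_zero.1 (congrFun h 1)
  have h2 : pf f 0 1 3 4 = 0 := congrFun h 2
  have h3 : pf f 0 1 2 4 = 0 := neg_eq_zero.1 (congrFun h 3)
  have h4 : pf f 0 1 2 3 = 0 := congrFun h 4
  have hs : ∀ i j k l : Fin 5, i < j → j < k → k < l → pf f i j k l = 0 := by
    rintro ⟨i, hi⟩ ⟨j, hj⟩ ⟨k, hk⟩ ⟨l, hl⟩ hij hjk hkl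
    rw [Fin.mk_lt_mk] at hij hjk hkl
    have hi1 : i ≤ 1 := by omega
    have hj1 : j ≤ 2 := by omega
    have hk1 : k ≤ 3 := by omega
    interval_cases i <;> interval_cases j <;> interval_cases k <;> interval_cases l <;>
      first
        | exact h0
        | exact h1
        | exact h2
        | exact h3
        | exact h4
  have ha : ∀ i j k l : Fin 5, i < j → j < k → pf f i j k l = 0 := by
    intro i j k l hij hjk
    rcases lt_trichotomy k l with h | h | h
    · exact hs i j k l hij hjk h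
    · rw [h]; exact pf_e3 hf i j l
    · rw [pf_s3 hf, neg_eq_zero]
      rcases lt_trichotomy j l with h' | h' | h'
      · exact hs i j l k hij h' h
      · rw [h']; exact pf_e2 hf i l k
      · rw [pf_s2 hf, neg_eq_zero]
        rcases lt_trichotomy i l with h'' | h'' | h''
        · exact hs i l j k h'' h' hjk
        · rw [h'']; exact pf_e1 hf l j k
        · rw [pf_s1 hf, neg_eq_zero]
          exact hs l i j k h'' hij hjk
  have hb : ∀ i j k l : Fin 5, i < j → pf f i j k l = 0 := by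
    intro i j k l hij
    rcases lt_trichotomy j k with h | h | h
    · exact ha i j k l hij h
    · rw [h]; exact pf_e2 hf i k l
    · rw [pf_s2 hf, neg_eq_zero]
      rcases lt_trichotomy i k with h' | h' | h'
      · exact ha i k j l h' h
      · rw [h']; exact pf_e1 hf k j l
      · rw [pf_s1 hf, neg_eq_zero]
        exact ha k i j l h' hij
  rcases lt_trichotomy i j with h | h | h
  · exact hb i j k l h
  · rw [h]; exact pf_e1 hf j k l
  · rw [pf_s1 hf, neg_eq_zero]
    exact hb j i k l h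

private theorem pfv0 (f : Fin 5 → Fin 5 → ℂ) :
    pfv f 0 = f 1 2 * f 3 4 - f 1 3 * f 2 4 + f 1 4 * f 2 3 := rfl
private theorem pfv1 (f : Fin 5 → Fin 5 → ℂ) :
    pfv f 1 = - (f 0 2 * f 3 4 - f 0 3 * f 2 4 + f 0 4 * f 2 3) := rfl
private theorem pfv2 (f : Fin 5 → Fin 5 → ℂ) :
    pfv f 2 = f 0 1 * f 3 4 - f 0 3 * f 1 4 + f 0 4 * f 1 3 := rfl
private theorem pfv3 (f : Fin 5 → Fin 5 → ℂ) :
    pfv f 3 = - (f 0 1 * f 2 4 - f 0 2 * f 1 4 + f 0 4 * f 1 2) := rfl
private theorem pfv4 (f : Fin 5 → Fin 5 → ℂ) :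
    pfv f 4 = f 0 1 * f 2 3 - f 0 2 * f 1 3 + f 0 3 * f 1 2 := rfl

theorem pfv_ker {f : Fin 5 → Fin 5 → ℂ} (hf : AltM f) (i : Fin 5) : ∑ j, f i j * pfv f j = 0 := by
  rw [Fin.sum_univ_five, pfv0, pfv1, pfv2, pfv3, pfv4]
  fin_cases i
  · show f 0 0 * _ + f 0 1 * _ + f 0 2 * _ + f 0 3 * _ + f 0 4 * _ = 0
    rw [hf.1 0]; ring
  · show f 1 0 * _ + f 1 1 * _ + f 1 2 * _ + f 1 3 * _ + f 1 4 * _ = 0
    rw [hf.1 1, hf.2 1 0]; ring
  · show f 2 0 * _ + f 2 1 * _ + f 2 2 * _ + f 2 3 * _ + f 2 4 * _ = 0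
    rw [hf.1 2, hf.2 2 0, hf.2 2 1]; ring
  · show f 3 0 * _ + f 3 1 * _ + f 3 2 * _ + f 3 3 * _ + f 3 4 * _ = 0
    rw [hf.1 3, hf.2 3 0, hf.2 3 1, hf.2 3 2]; ring
  · show f 4 0 * _ + f 4 1 * _ + f 4 2 * _ + f 4 3 * _ + f 4 4 * _ = 0
    rw [hf.1 4, hf.2 4 0, hf.2 4 1, hf.2 4 2, hf.2 4 3]; ring

theorem pfv_unique {f : Fin 5 → Fin 5 → ℂ} (hf : AltM f) {k : Fin 5 → ℂ}
    (hk : ∀ i, ∑ j, f i j * k j = 0) (i j : Fin 5) : pfv f i * k j = pfv f j * k i := by
  have e0 := hk 0
  have e1 := hk 1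
  have e2 := hk 2
  have e3 := hk 3
  have e4 := hk 4
  rw [Fin.sum_univ_five] at e0 e1 e2 e3 e4
  rw [hf.1 0] at e0
  rw [hf.1 1, hf.2 1 0] at e1
  rw [hf.1 2, hf.2 2 0, hf.2 2 1] at e2
  rw [hf.1 3, hf.2 3 0, hf.2 3 1, hf.2 3 2] at e3
  rw [hf.1 4, hf.2 4 0, hf.2 4 1, hf.2 4 2, hf.2 4 3] at e4
  have h01 : pfv f 0 * k 1 = pfv f 1 * k 0 := by
    rw [pfv0, pfv1]
    first
      | linear_combination f 3 4 * e2 - f 2 4 * e3 + f 2 3 * e4
      | linear_combination -(f 3 4 * e2 - f 2 4 * e3 + f 2 3 * e4)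
  have h02 : pfv f 0 * k 2 = pfv f 2 * k 0 := by
    rw [pfv0, pfv2]
    first
      | linear_combination f 3 4 * e1 - f 1 4 * e3 + f 1 3 * e4
      | linear_combination -(f 3 4 * e1 - f 1 4 * e3 + f 1 3 * e4)
  have h03 : pfv f 0 * k 3 = pfv f 3 * k 0 := by
    rw [pfv0, pfv3]
    first
      | linear_combination f 2 4 * e1 - f 1 4 * e2 + f 1 2 * e4
      | linear_combination -(f 2 4 * e1 - f 1 4 * e2 + f 1 2 * e4)
  have h04 : pfv f 0 * k 4 = pfv f 4 * k 0 := by
    rw [pfv0, pfv4]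
    first
      | linear_combination f 2 3 * e1 - f 1 3 * e2 + f 1 2 * e3
      | linear_combination -(f 2 3 * e1 - f 1 3 * e2 + f 1 2 * e3)
  have h12 : pfv f 1 * k 2 = pfv f 2 * k 1 := by
    rw [pfv1, pfv2]
    first
      | linear_combination f 3 4 * e0 - f 0 4 * e3 + f 0 3 * e4
      | linear_combination -(f 3 4 * e0 - f 0 4 * e3 + f 0 3 * e4)
  have h13 : pfv f 1 * k 3 = pfv f 3 * k 1 := by
    rw [pfv1, pfv3]
    first
      | linear_combination f 2 4 * e0 - f 0 4 * e2 + f 0 2 * e4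
      | linear_combination -(f 2 4 * e0 - f 0 4 * e2 + f 0 2 * e4)
  have h14 : pfv f 1 * k 4 = pfv f 4 * k 1 := by
    rw [pfv1, pfv4]
    first
      | linear_combination f 2 3 * e0 - f 0 3 * e2 + f 0 2 * e3
      | linear_combination -(f 2 3 * e0 - f 0 3 * e2 + f 0 2 * e3)
  have h23 : pfv f 2 * k 3 = pfv f 3 * k 2 := by
    rw [pfv2, pfv3]
    first
      | linear_combination f 1 4 * e0 - f 0 4 * e1 + f 0 1 * e4
      | linear_combination -(f 1 4 * e0 - f 0 4 * e1 + f 0 1 * e4)
  have h24 : pfv f 2 * k 4 = pfv f 4 * k 2 := by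
    rw [pfv2, pfv4]
    first
      | linear_combination f 1 3 * e0 - f 0 3 * e1 + f 0 1 * e3
      | linear_combination -(f 1 3 * e0 - f 0 3 * e1 + f 0 1 * e3)
  have h34 : pfv f 3 * k 4 = pfv f 4 * k 3 := by
    rw [pfv3, pfv4]
    first
      | linear_combination f 1 2 * e0 - f 0 2 * e1 + f 0 1 * e2
      | linear_combination -(f 1 2 * e0 - f 0 2 * e1 + f 0 1 * e2)
  fin_cases i <;> fin_cases j <;>
    first
      | rfl
      | exact h01
      | exact h02
      | exact h03
      | exact h04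
      | exact h12
      | exact h13
      | exact h14
      | exact h23
      | exact h24
      | exact h34
      | exact h01.symm
      | exact h02.symm
      | exact h03.symm
      | exact h04.symm
      | exact h12.symm
      | exact h13.symm
      | exact h14.symm
      | exact h23.symm
      | exact h24.symm
      | exact h34.symm

/-- vanishing Pfaffians imply decomposable -/
theorem pl {f : Fin 5 → Fin 5 → ℂ} (hf : AltM f) (h : pfv f = 0) (h0 : ∃ i j, f i j ≠ 0) :
    ∃ y y', Ind2 y y' ∧ ∀ i j, f i j = ww y y' i j := by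
  obtain ⟨i, j, hij⟩ := h0
  refine ⟨fun k => f i k, fun k => f j k / f i j, ?_, ?_⟩
  · intro c c' hc
    have e1 := hc j
    have e2 := hc i
    simp only [hf.1, zero_div, mul_zero, add_zero, zero_add] at e1 e2
    refine ⟨(mul_eq_zero.1 e1).resolve_right hij, ?_⟩
    rw [hf.2 j i, neg_div, div_self hij] at e2
    linear_combination -e2
  · intro k l
    have e := pfv_zero hf h i j k l
    unfold pf at e
    unfold ww
    show f k l = f i k * (f j l / f i j) - f i l * (f j k / f i j)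
    field_simp
    linear_combination e

/-- a `3 × 3` minor -/
private def dt (p q r : Fin 5 → ℂ) (a b c : Fin 5) : ℂ :=
  p a * (q b * r c - q c * r b) - p b * (q a * r c - q c * r a) + p c * (q a * r b - q b * r a)

theorem no3 {f1 f2 f3 : Fin 5 → Fin 5 → ℂ} (h1 : AltM f1) (h2 : AltM f2) (h3 : AltM f3)
    (hi : ∀ c1 c2 c3 : ℂ, (∀ i j, c1 * f1 i j + c2 * f2 i j + c3 * f3 i j = 0) →
      c1 = 0 ∧ c2 = 0 ∧ c3 = 0)
    (hd : ∀ (c1 c2 c3 : ℂ) (y y' : Fin 5 → ℂ), Ind2 y y' →
      (∀ i j, c1 * f1 i j + c2 * f2 i j + c3 * f3 i j = ww y y' i j) → False) :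
    ∃ x : Fin 5 → ℂ, ∀ c1 c2 c3 : ℂ, (∀ j, c1 * cx x f1 j + c2 * cx x f2 j + c3 * cx x f3 j = 0) →
      c1 = 0 ∧ c2 = 0 ∧ c3 = 0 := by
  by_contra hcon
  push Not at hcon
  -- all minors vanish
  have hmin : ∀ (x : Fin 5 → ℂ) (a b c : Fin 5), dt (cx x f1) (cx x f2) (cx x f3) a b c = 0 := by
    intro x a b c
    obtain ⟨c1, c2, c3, hc, hne⟩ := hcon x
    by_contra hd'
    have ea := hc a
    have eb := hc b
    have ec := hc c
    have k1 : c1 * dt (cx x f1) (cx x f2) (cx x f3) a b c = 0 := by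
      unfold dt
      linear_combination (cx x f2 b * cx x f3 c - cx x f2 c * cx x f3 b) * ea
        - (cx x f2 a * cx x f3 c - cx x f2 c * cx x f3 a) * eb
        + (cx x f2 a * cx x f3 b - cx x f2 b * cx x f3 a) * ec
    have k2 : c2 * dt (cx x f1) (cx x f2) (cx x f3) a b c = 0 := by
      unfold dt
      linear_combination -(cx x f1 b * cx x f3 c - cx x f1 c * cx x f3 b) * ea
        + (cx x f1 a * cx x f3 c - cx x f1 c * cx x f3 a) * eb
        - (cx x f1 a * cx x f3 b - cx x f1 b * cx x f3 a) * ec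
    have k3 : c3 * dt (cx x f1) (cx x f2) (cx x f3) a b c = 0 := by
      unfold dt
      linear_combination (cx x f1 b * cx x f2 c - cx x f1 c * cx x f2 b) * ea
        - (cx x f1 a * cx x f2 c - cx x f1 c * cx x f2 a) * eb
        + (cx x f1 a * cx x f2 b - cx x f1 b * cx x f2 a) * ec
    exact hne ((mul_eq_zero.1 k1).resolve_right hd') ((mul_eq_zero.1 k2).resolve_right hd')
      ((mul_eq_zero.1 k3).resolve_right hd')
  -- the kernel vector of `f1`
  have hf1 : ∃ i j, f1 i j ≠ 0 := by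
    by_contra h
    push Not at h
    have := (hi 1 0 0 (fun i j => by rw [h i j]; ring)).1
    exact one_ne_zero this
  have hk0 : pfv f1 ≠ 0 := by
    intro h
    obtain ⟨y, y', hy, hyy⟩ := pl h1 h hf1
    exact hd 1 0 0 y y' hy (fun i j => by rw [← hyy i j]; ring)
  set k := pfv f1 with hk
  have hk1 : ∀ j, cx k f1 j = 0 := by
    intro j
    have := pfv_ker h1 j
    rw [← hk] at this
    unfold cx
    have h2 : ∑ i, k i * f1 i j = - ∑ i, f1 j i * k i := by
      rw [← Finset.sum_neg_distrib]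
      exact Finset.sum_congr rfl (fun i _ => by rw [h1.2 i j]; ring)
    rw [h2, this, neg_zero]
  have hlin : ∀ (f : Fin 5 → Fin 5 → ℂ) (y : Fin 5 → ℂ) (t : ℂ) (j : Fin 5),
      cx (fun i => k i + t * y i) f j = cx k f j + t * cx y f j := by
    intro f y t j
    unfold cx
    rw [Finset.mul_sum, ← Finset.sum_add_distrib]
    exact Finset.sum_congr rfl (fun i _ => by ring)
  have hmix : ∀ (y : Fin 5 → ℂ) (a b c : Fin 5), dt (cx y f1) (cx k f2) (cx k f3) a b c = 0 := by
    intro y a b c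
    have e1 := hmin (fun i => k i + 1 * y i) a b c
    have e2 := hmin (fun i => k i + (-1) * y i) a b c
    have e3 := hmin (fun i => k i + 2 * y i) a b c
    unfold dt at e1 e2 e3 ⊢
    simp only [hlin, hk1] at e1 e2 e3
    linear_combination e1 - (1 / 3) * e2 - (1 / 6) * e3
  by_cases hδ : ∃ a b, cx k f2 a * cx k f3 b - cx k f2 b * cx k f3 a ≠ 0
  · obtain ⟨a, b, hab⟩ := hδ
    set δ := cx k f2 a * cx k f3 b - cx k f2 b * cx k f3 a with hδ
    set u := cx k f2 with hu
    set w := cx k f3 with hw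
    have hrow : ∀ i c, δ * f1 i c = f1 i a * (u c * w b - u b * w c) + f1 i b * (u a * w c - u c * w a) := by
      intro i c
      have e := hmix (Pi.single i 1) a b c
      have hs : ∀ j, cx (Pi.single i 1) f1 j = f1 i j := by
        intro j
        unfold cx
        rw [Finset.sum_eq_single i]
        · simp
        · intro l _ hl
          simp [Pi.single_eq_of_ne hl]
        · intro h; exact absurd (Finset.mem_univ i) h
      unfold dt at e
      rw [hs a, hs b, hs c] at e
      rw [hδ]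
      linear_combination e
    apply hk0
    have hall : ∀ i j, δ * δ * f1 i j = f1 a b * ((u i * w b - u b * w i) * (u a * w j - u j * w a)
        - (u j * w b - u b * w j) * (u a * w i - u i * w a)) := by
      intro i j
      have r1 := hrow i j
      have r2 := hrow a i
      have r3 := hrow b i
      rw [h1.1 a] at r2
      rw [h1.1 b, h1.2 b a] at r3
      rw [h1.2 i a, h1.2 i b] at r1
      linear_combination δ * r1 - (u j * w b - u b * w j) * r2 - (u a * w j - u j * w a) * r3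
    have hpf : ∀ i j l m, pf f1 i j l m = 0 := by
      intro i j l m
      have h4 : δ * δ * (δ * δ) * pf f1 i j l m = 0 := by
        unfold pf
        have e1 := hall i j
        have e2 := hall l m
        have e3 := hall i l
        have e4 := hall j m
        have e5 := hall i m
        have e6 := hall j l
        have : δ * δ * (δ * δ) * (f1 i j * f1 l m - f1 i l * f1 j m + f1 i m * f1 j l)
            = (δ * δ * f1 i j) * (δ * δ * f1 l m) - (δ * δ * f1 i l) * (δ * δ * f1 j m)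
              + (δ * δ * f1 i m) * (δ * δ * f1 j l) := by ring
        rw [this, e1, e2, e3, e4, e5, e6]
        ring
      have h5 : δ * δ * (δ * δ) ≠ 0 := mul_ne_zero (mul_ne_zero hab hab) (mul_ne_zero hab hab)
      exact (mul_eq_zero.1 h4).resolve_left h5
    funext i
    fin_cases i
    · exact hpf 1 2 3 4
    · show - pf f1 0 2 3 4 = 0
      rw [hpf, neg_zero]
    · exact hpf 0 1 3 4
    · show - pf f1 0 1 2 4 = 0
      rw [hpf, neg_zero]
    · exact hpf 0 1 2 3
  · push Not at hδ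
    obtain ⟨l, m, hlm, hlm0⟩ : ∃ l m : ℂ, (∀ a, l * cx k f2 a + m * cx k f3 a = 0) ∧ ¬ (l = 0 ∧ m = 0) := by
      by_cases hw : ∃ b, cx k f3 b ≠ 0
      · obtain ⟨b, hb⟩ := hw
        refine ⟨cx k f3 b, -cx k f2 b, fun a => ?_, fun h => hb h.1⟩
        linear_combination hδ a b
      · push Not at hw
        exact ⟨0, 1, fun a => by rw [hw a]; ring, fun h => one_ne_zero h.2⟩
    obtain ⟨i0, hi0⟩ := Function.ne_iff.1 hk0
    have hi0' : k i0 ≠ 0 := hi0
    have hq : ∀ t : ℂ, pfv (fun i j => (l * f2 i j + m * f3 i j) + t * f1 i j) i0 =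
        k i0 * (t * t) + (pfv (fun i j => (l * f2 i j + m * f3 i j) + f1 i j) i0
          - pfv (fun i j => l * f2 i j + m * f3 i j) i0 - k i0) * t
          + pfv (fun i j => l * f2 i j + m * f3 i j) i0 := by
      intro t
      rw [hk]
      fin_cases i0
      · show pfv _ 0 = pfv _ 0 * (t * t) + (pfv _ 0 - pfv _ 0 - pfv _ 0) * t + pfv _ 0
        simp only [pfv0]; ring
      · show pfv _ 1 = pfv _ 1 * (t * t) + (pfv _ 1 - pfv _ 1 - pfv _ 1) * t + pfv _ 1
        simp only [pfv1]; ring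
      · show pfv _ 2 = pfv _ 2 * (t * t) + (pfv _ 2 - pfv _ 2 - pfv _ 2) * t + pfv _ 2
        simp only [pfv2]; ring
      · show pfv _ 3 = pfv _ 3 * (t * t) + (pfv _ 3 - pfv _ 3 - pfv _ 3) * t + pfv _ 3
        simp only [pfv3]; ring
      · show pfv _ 4 = pfv _ 4 * (t * t) + (pfv _ 4 - pfv _ 4 - pfv _ 4) * t + pfv _ 4
        simp only [pfv4]; ring
    obtain ⟨t, ht⟩ := exists_quadratic_eq_zero (a := k i0)
      (b := pfv (fun i j => (l * f2 i j + m * f3 i j) + f1 i j) i0
          - pfv (fun i j => l * f2 i j + m * f3 i j) i0 - k i0)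
      (c := pfv (fun i j => l * f2 i j + m * f3 i j) i0) hi0' (by
        obtain ⟨s, hs⟩ := IsAlgClosed.exists_pow_nat_eq (discrim (k i0)
          (pfv (fun i j => (l * f2 i j + m * f3 i j) + f1 i j) i0
          - pfv (fun i j => l * f2 i j + m * f3 i j) i0 - k i0)
          (pfv (fun i j => l * f2 i j + m * f3 i j) i0)) (n := 2) (by norm_num)
        exact ⟨s, by rw [← hs]; ring⟩)
    rw [← hq t] at ht
    set F : Fin 5 → Fin 5 → ℂ := fun i j => (l * f2 i j + m * f3 i j) + t * f1 i j with hF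
    have hFalt : AltM F := by
      refine ⟨fun i => ?_, fun i j => ?_⟩
      · show (l * f2 i i + m * f3 i i) + t * f1 i i = 0
        rw [h1.1, h2.1, h3.1]; ring
      · show (l * f2 i j + m * f3 i j) + t * f1 i j = -((l * f2 j i + m * f3 j i) + t * f1 j i)
        rw [h1.2 i j, h2.2 i j, h3.2 i j]; ring
    have hFk : ∀ i, ∑ j, F i j * k j = 0 := by
      intro i
      have e : ∑ j, F i j * k j = -(l * cx k f2 i + m * cx k f3 i) - t * cx k f1 i := by
        unfold cx
        rw [Finset.mul_sum, Finset.mul_sum, Finset.mul_sum, ← Finset.sum_add_distrib,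
          ← Finset.sum_neg_distrib, ← Finset.sum_sub_distrib]
        refine Finset.sum_congr rfl (fun j _ => ?_)
        show ((l * f2 i j + m * f3 i j) + t * f1 i j) * k j = _
        rw [h1.2 i j, h2.2 i j, h3.2 i j]; ring
      rw [e, hlm, hk1]; ring
    have hF0 : pfv F = 0 := by
      funext j
      have := pfv_unique hFalt hFk j i0
      rw [ht, zero_mul] at this
      exact (mul_eq_zero.1 this).resolve_right hi0'
    have hFne : ∃ i j, F i j ≠ 0 := by
      by_contra h
      push Not at h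
      have := hi t l m (fun i j => by
        have := h i j
        rw [hF] at this
        linear_combination this)
      exact hlm0 this.2
    obtain ⟨y, y', hy, hyy⟩ := pl hFalt hF0 hFne
    refine hd t l m y y' hy (fun i j => ?_)
    rw [← hyy i j, hF]
    ring

end Pool.Agent.Helper35.LX
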