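import Pool.Agent.Helper35.LX.KerA
import Pool.Agent.Helper35.LX.Lin

/-!
LX-4: the kernel of `s` is two-dimensional and `s` is onto `E#_3`.

`no3x`: `f1, f2, f3` in the kernel: `i_x f1, i_x f2, i_x f3` are dependent for all `x ∈ ℂ^5`.  Otherwise some `3 × 3` minor `m` (a cubic polynomial in
`x`) is not 0; for all numerical `x` with `m(x) ≠ 0`: `w ↦ ∑ w_j ξ_j(x)` kills the three independent vectors `i_x f_a ∈ x^⊥`, and
`w = i_x (ww e0 e1)`, `w' = i_x (ww e0 e2) ∈ x^⊥` (dimension 4) so a combination of `w, w'` is in their span and `S12(x), S13(x)` are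
dependent: `m * (S12 ∧ S13) = 0` at all points, so as polynomials, contradiction to `sF_rank`.
`ker2`: the linear map `Fin 10 → ℂ → F1 5`, `a ↦ sF ξ (alternating matrix with entries a)` has its range in `EE θ 3`, of dimension at most 8, so its
kernel has dimension at least 2; if the dimension is at least 3, `no3` (Lin.lean) contradicts `no3x`; so it is 2, the range has dimension
8 and is `EE θ 3`.
-/

set_option autoImplicit false

namespace Pool.Agent.Helper35.LX

open MvPolynomial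
open scoped BigOperators
open Pool.Agent.Helper71.FL (w12 pf ct Dec Closed dd)
open Pool.Agent.Helper71.FC
open Pool.Agent.Helper93 (lsub lmap OF pb)

private theorem kb_eval (ξ : Fin 5 → F1 5) (f : Fin 5 → Fin 5 → ℂ) (l : Fin 5) (x : Fin 5 → ℂ) :
    eval x (sF ξ f l) = ∑ j, cx x f j * eval x (ξ j l) := by
  unfold sF cx
  rw [map_sum, Finset.sum_congr rfl (fun j _ => Finset.sum_mul _ _ _), Finset.sum_comm]
  refine Finset.sum_congr rfl fun i _ => ?_
  rw [map_sum]
  refine Finset.sum_congr rfl fun j _ => ?_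
  rw [map_mul, map_mul, eval_C, eval_X]
  ring

private theorem kb_ww (y y' : Fin 5 → ℂ) : AltM (ww y y') := by
  refine ⟨fun i => ?_, fun i j => ?_⟩
  · unfold ww
    ring
  · unfold ww
    ring

private theorem kb_perp {f : Fin 5 → Fin 5 → ℂ} (hf : AltM f) (x : Fin 5 → ℂ) :
    ∑ j, cx x f j * x j = 0 := by
  have h1 : ∑ j, cx x f j * x j = ∑ j, ∑ i, x i * f i j * x j := by
    refine Finset.sum_congr rfl fun j _ => ?_
    unfold cx
    rw [Finset.sum_mul]
  have h2 : ∑ j, ∑ i, x i * f i j * x j = - ∑ j, ∑ i, x i * f i j * x j := by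
    conv_lhs => rw [Finset.sum_comm]
    rw [← Finset.sum_neg_distrib]
    refine Finset.sum_congr rfl fun j _ => ?_
    rw [← Finset.sum_neg_distrib]
    refine Finset.sum_congr rfl fun i _ => ?_
    rw [hf.2 j i]
    ring
  rw [h1]
  have h3 : (2 : ℂ) * ∑ j, ∑ i, x i * f i j * x j = 0 := by linear_combination h2
  exact (mul_eq_zero.1 h3).resolve_left two_ne_zero

/-- three vectors orthogonal to `x` and two more: a relation -/
private theorem kb_rel {x : Fin 5 → ℂ} (hx : x ≠ 0) (v : Fin 5 → Fin 5 → ℂ)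
    (hv : ∀ a, ∑ j, v a j * x j = 0) : ∃ u : Fin 5 → ℂ, u ≠ 0 ∧ ∀ j, ∑ a, u a * v a j = 0 := by
  have h1 : (Matrix.of v).det = 0 := by
    apply Matrix.exists_mulVec_eq_zero_iff.1
    refine ⟨x, hx, ?_⟩
    funext a
    exact hv a
  obtain ⟨u, hu, hu2⟩ := Matrix.exists_vecMul_eq_zero_iff.2 h1
  exact ⟨u, hu, fun j => congrFun hu2 j⟩

/-- the polynomial `det (φ_b (i_x f_a))` -/
private noncomputable def kbM (F : Fin 3 → Fin 5 → Fin 5 → ℂ) (G : Fin 5 → Fin 3 → ℂ) :
    Matrix (Fin 3) (Fin 3) (MvPolynomial (Fin 5) ℂ) :=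
  Matrix.of fun a b => ∑ j, (∑ i, X i * C (F a i j)) * C (G j b)

private theorem kbM_eval (F : Fin 3 → Fin 5 → Fin 5 → ℂ) (G : Fin 5 → Fin 3 → ℂ) (x : Fin 5 → ℂ) :
    eval x (kbM F G).det = (Matrix.of fun a b => ∑ j, cx x (F a) j * G j b).det := by
  rw [RingHom.map_det]
  congr 1
  ext a b
  show eval x (∑ j, (∑ i, X i * C (F a i j)) * C (G j b)) = ∑ j, cx x (F a) j * G j b
  rw [map_sum]
  refine Finset.sum_congr rfl fun j _ => ?_
  rw [map_mul, map_sum, eval_C]
  unfold cx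
  congr 1
  refine Finset.sum_congr rfl fun i _ => ?_
  rw [map_mul, eval_X, eval_C]

private theorem kb_left {v : Fin 3 → Fin 5 → ℂ}
    (hv : ∀ c : Fin 3 → ℂ, (∀ j, ∑ a, c a * v a j = 0) → c = 0) :
    ∃ G : Fin 5 → Fin 3 → ℂ, (Matrix.of fun a b => ∑ j, v a j * G j b).det ≠ 0 := by
  classical
  let L : (Fin 3 → ℂ) →ₗ[ℂ] (Fin 5 → ℂ) := Matrix.vecMulLinear (Matrix.of v)
  have hL : LinearMap.ker L = ⊥ := by
    rw [LinearMap.ker_eq_bot']
    intro c hc
    exact hv c (fun j => congrFun hc j)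
  obtain ⟨g, hg⟩ := L.exists_leftInverse_of_injective hL
  refine ⟨fun j b => g (Pi.single j 1) b, ?_⟩
  have h1 : (Matrix.of fun a b => ∑ j, v a j * g (Pi.single j 1) b) = (1 : Matrix (Fin 3) (Fin 3) ℂ) := by
    ext a b
    have h2 : g (L (Pi.single a 1)) b = (Pi.single a (1 : ℂ) : Fin 3 → ℂ) b := by
      have h3 := LinearMap.congr_fun hg (Pi.single a 1)
      exact congrFun h3 b
    have h4 : L (Pi.single a 1) = v a := by
      funext j
      show Matrix.vecMul (Pi.single a 1) (Matrix.of v) j = v a j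
      rw [Matrix.single_one_vecMul]
      rfl
    rw [h4] at h2
    have h5 : v a = ∑ j, v a j • (Pi.single j (1 : ℂ) : Fin 5 → ℂ) := by
      funext k
      rw [Finset.sum_apply, Finset.sum_eq_single k]
      · rw [Pi.smul_apply, Pi.single_eq_same, smul_eq_mul, mul_one]
      · intro j _ hj
        rw [Pi.smul_apply, Pi.single_eq_of_ne (Ne.symm hj), smul_zero]
      · intro hk
        exact absurd (Finset.mem_univ k) hk
    rw [Matrix.of_apply, Matrix.one_apply]
    rw [h5, map_sum] at h2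
    rw [Finset.sum_apply] at h2
    have h6 : ∑ j, v a j * g (Pi.single j 1) b = ∑ j, (g (v a j • Pi.single j (1 : ℂ))) b := by
      refine Finset.sum_congr rfl fun j _ => ?_
      rw [map_smul, Pi.smul_apply, smul_eq_mul]
    rw [h6, h2]
    by_cases hab : a = b
    · subst hab
      rw [Pi.single_eq_same, if_pos rfl]
    · rw [Pi.single_eq_of_ne (Ne.symm hab), if_neg hab]
  rw [h1, Matrix.det_one]
  exact one_ne_zero

theorem no3x {θ : F2 5} {b : F3 5} {ξ : Fin 5 → F1 5} (h : Hyp θ b ξ)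
    {f1 f2 f3 : Fin 5 → Fin 5 → ℂ} (h1 : AltM f1) (h2 : AltM f2) (h3 : AltM f3)
    (k1 : sF ξ f1 = 0) (k2 : sF ξ f2 = 0) (k3 : sF ξ f3 = 0) (x : Fin 5 → ℂ) :
    ∃ c1 c2 c3 : ℂ, ¬ (c1 = 0 ∧ c2 = 0 ∧ c3 = 0) ∧
      ∀ j, c1 * cx x f1 j + c2 * cx x f2 j + c3 * cx x f3 j = 0 := by
  classical
  by_contra hcon
  set F : Fin 3 → Fin 5 → Fin 5 → ℂ := ![f1, f2, f3] with hF
  have hFa : ∀ a, AltM (F a) := by
    intro a
    fin_cases a
    · exact h1
    · exact h2
    · exact h3
  have hFk : ∀ a, sF ξ (F a) = 0 := by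
    intro a
    fin_cases a
    · exact k1
    · exact k2
    · exact k3
  have hv : ∀ c : Fin 3 → ℂ, (∀ j, ∑ a, c a * cx x (F a) j = 0) → c = 0 := by
    intro c hc
    by_contra hc0
    apply hcon
    refine ⟨c 0, c 1, c 2, ?_, fun j => ?_⟩
    · rintro ⟨e0, e1, e2⟩
      apply hc0
      funext a
      fin_cases a
      · exact e0
      · exact e1
      · exact e2
    · have := hc j
      rw [Fin.sum_univ_three] at this
      exact this
  obtain ⟨G, hG⟩ := kb_left hv
  have hm0 : (kbM F G).det ≠ 0 := by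
    intro h0
    apply hG
    rw [← kbM_eval, h0, map_zero]
  obtain ⟨l, m, hlm⟩ := sF_rank h
  apply mul_ne_zero hm0 hlm
  apply MvPolynomial.funext
  intro z
  rw [map_mul, map_zero, mul_eq_zero]
  by_cases hz : eval z (kbM F G).det = 0
  · exact Or.inl hz
  · right
    rw [kbM_eval] at hz
    have hz0 : z ≠ 0 := by
      rintro rfl
      apply hz
      apply Matrix.det_eq_zero_of_row_eq_zero 0
      intro b
      rw [Matrix.of_apply]
      refine Finset.sum_eq_zero fun j _ => ?_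
      unfold cx
      rw [Finset.sum_eq_zero (fun i _ => by rw [Pi.zero_apply, zero_mul]), zero_mul]
    set g12 := ww (Pi.single 0 1) (Pi.single 1 1) with hg12
    set g13 := ww (Pi.single 0 1) (Pi.single 2 1) with hg13
    obtain ⟨u, hu, hur⟩ := kb_rel hz0
      ![cx z (F 0), cx z (F 1), cx z (F 2), cx z g12, cx z g13] (by
        intro a
        fin_cases a
        · exact kb_perp (hFa 0) z
        · exact kb_perp (hFa 1) z
        · exact kb_perp (hFa 2) z
        · exact kb_perp (kb_ww _ _) z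
        · exact kb_perp (kb_ww _ _) z)
    have hur' : ∀ j, u 0 * cx z (F 0) j + u 1 * cx z (F 1) j + u 2 * cx z (F 2) j +
        u 3 * cx z g12 j + u 4 * cx z g13 j = 0 := by
      intro j
      have := hur j
      rw [Fin.sum_univ_five] at this
      exact this
    have h34 : ¬ (u 3 = 0 ∧ u 4 = 0) := by
      rintro ⟨e3, e4⟩
      apply hz
      apply Matrix.exists_vecMul_eq_zero_iff.1
      refine ⟨![u 0, u 1, u 2], ?_, ?_⟩
      · intro e
        apply hu
        have e0 : u 0 = 0 := congrFun e 0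
        have e1 : u 1 = 0 := congrFun e 1
        have e2 : u 2 = 0 := congrFun e 2
        funext a
        fin_cases a
        · exact e0
        · exact e1
        · exact e2
        · exact e3
        · exact e4
      · funext b
        show ∑ a, (![u 0, u 1, u 2] : Fin 3 → ℂ) a * (∑ j, cx z (F a) j * G j b) = 0
        rw [Fin.sum_univ_three]
        show u 0 * (∑ j, cx z (F 0) j * G j b) + u 1 * (∑ j, cx z (F 1) j * G j b) +
          u 2 * (∑ j, cx z (F 2) j * G j b) = 0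
        rw [Finset.mul_sum, Finset.mul_sum, Finset.mul_sum, ← Finset.sum_add_distrib,
          ← Finset.sum_add_distrib]
        refine Finset.sum_eq_zero fun j _ => ?_
        have := hur' j
        rw [e3, e4] at this
        linear_combination G j b * this
    have hS : ∀ k, u 3 * eval z (sF ξ g12 k) + u 4 * eval z (sF ξ g13 k) = 0 := by
      intro k
      have e0 : eval z (sF ξ (F 0) k) = 0 := by rw [hFk]; exact map_zero _
      have e1 : eval z (sF ξ (F 1) k) = 0 := by rw [hFk]; exact map_zero _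
      have e2 : eval z (sF ξ (F 2) k) = 0 := by rw [hFk]; exact map_zero _
      rw [kb_eval] at e0 e1 e2 ⊢
      rw [kb_eval]
      have e : ∑ j, (u 0 * cx z (F 0) j + u 1 * cx z (F 1) j + u 2 * cx z (F 2) j +
          u 3 * cx z g12 j + u 4 * cx z g13 j) * eval z (ξ j k) = 0 :=
        Finset.sum_eq_zero fun j _ => by rw [hur', zero_mul]
      have e' : ∑ j, (u 0 * cx z (F 0) j + u 1 * cx z (F 1) j + u 2 * cx z (F 2) j +
          u 3 * cx z g12 j + u 4 * cx z g13 j) * eval z (ξ j k) =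
          u 0 * (∑ j, cx z (F 0) j * eval z (ξ j k)) + u 1 * (∑ j, cx z (F 1) j * eval z (ξ j k)) +
          u 2 * (∑ j, cx z (F 2) j * eval z (ξ j k)) + u 3 * (∑ j, cx z g12 j * eval z (ξ j k)) +
          u 4 * (∑ j, cx z g13 j * eval z (ξ j k)) := by
        simp only [Finset.mul_sum, ← Finset.sum_add_distrib]
        refine Finset.sum_congr rfl fun j _ => ?_
        ring
      rw [e', e0, e1, e2] at e
      linear_combination e
    unfold w11
    rw [map_sub, map_mul, map_mul]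
    have hl := hS l
    have hm := hS m
    by_cases e3 : u 3 = 0
    · have e4 : u 4 ≠ 0 := fun e4 => h34 ⟨e3, e4⟩
      apply mul_left_cancel₀ e4
      rw [e3] at hl hm
      linear_combination eval z (sF ξ g12 l) * hm - eval z (sF ξ g12 m) * hl
    · apply mul_left_cancel₀ e3
      linear_combination eval z (sF ξ g13 m) * hl - eval z (sF ξ g13 l) * hm

/-- alternating matrix with given entries -/
private def kbP (a : Fin 10 → ℂ) : Fin 5 → Fin 5 → ℂ :=
  ![![0, a 0, a 1, a 2, a 3], ![- a 0, 0, a 4, a 5, a 6], ![- a 1, - a 4, 0, a 7, a 8],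
    ![- a 2, - a 5, - a 7, 0, a 9], ![- a 3, - a 6, - a 8, - a 9, 0]]

private def kbQ (f : Fin 5 → Fin 5 → ℂ) : Fin 10 → ℂ :=
  ![f 0 1, f 0 2, f 0 3, f 0 4, f 1 2, f 1 3, f 1 4, f 2 3, f 2 4, f 3 4]

private theorem kbP_alt (a : Fin 10 → ℂ) : AltM (kbP a) := by
  refine ⟨fun i => ?_, fun i j => ?_⟩
  · fin_cases i <;> rfl
  · fin_cases i <;> fin_cases j <;> simp [kbP]

private theorem kbQP (a : Fin 10 → ℂ) : kbQ (kbP a) = a := by
  funext i
  fin_cases i <;> rfl

private theorem kbPQ {f : Fin 5 → Fin 5 → ℂ} (hf : AltM f) : kbP (kbQ f) = f := by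
  funext i j
  fin_cases i <;> fin_cases j
  · exact (hf.1 0).symm
  · rfl
  · rfl
  · rfl
  · rfl
  · exact (hf.2 1 0).symm
  · exact (hf.1 1).symm
  · rfl
  · rfl
  · rfl
  · exact (hf.2 2 0).symm
  · exact (hf.2 2 1).symm
  · exact (hf.1 2).symm
  · rfl
  · rfl
  · exact (hf.2 3 0).symm
  · exact (hf.2 3 1).symm
  · exact (hf.2 3 2).symm
  · exact (hf.1 3).symm
  · rfl
  · exact (hf.2 4 0).symm
  · exact (hf.2 4 1).symm
  · exact (hf.2 4 2).symm
  · exact (hf.2 4 3).symm
  · exact (hf.1 4).symm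

private theorem kbP_add (a b : Fin 10 → ℂ) : kbP (a + b) = fun i j => kbP a i j + kbP b i j := by
  funext i j
  fin_cases i <;> fin_cases j <;> simp [kbP] <;> ring

private theorem kbP_smul (c : ℂ) (a : Fin 10 → ℂ) : kbP (c • a) = fun i j => c * kbP a i j := by
  funext i j
  fin_cases i <;> fin_cases j <;> simp [kbP]

private noncomputable def kbS (ξ : Fin 5 → F1 5) : (Fin 10 → ℂ) →ₗ[ℂ] F1 5 where
  toFun a := sF ξ (kbP a)
  map_add' a b := by rw [kbP_add, sF_add]
  map_smul' c a := by rw [kbP_smul, sF_smul]; rfl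

theorem ker2 {θ : F2 5} {b : F3 5} {ξ : Fin 5 → F1 5} (h : Hyp θ b ξ) :
    ∃ A1 A2 : Fin 5 → Fin 5 → ℂ, AltM A1 ∧ AltM A2 ∧ sF ξ A1 = 0 ∧ sF ξ A2 = 0 ∧
      (∀ c1 c2 : ℂ, (∀ i j, c1 * A1 i j + c2 * A2 i j = 0) → c1 = 0 ∧ c2 = 0) ∧
      (∀ f, AltM f → sF ξ f = 0 → ∃ c1 c2 : ℂ, ∀ i j, f i j = c1 * A1 i j + c2 * A2 i j) ∧
      ∀ ζ ∈ EE θ 3, ∃ f, AltM f ∧ sF ξ f = ζ := by
  have hfin := finite_EE θ 3
  have hrange : LinearMap.range (kbS ξ) ≤ EE θ 3 := by
    rintro _ ⟨a, rfl⟩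
    exact sF_mem h (kbP_alt a)
  have hrn := LinearMap.finrank_range_add_finrank_ker (kbS ξ)
  rw [Module.finrank_fin_fun] at hrn
  have hr := Submodule.finrank_mono hrange
  have h8 := h.e3
  have hK3 : ¬ 3 ≤ Module.finrank ℂ (LinearMap.ker (kbS ξ)) := by
    intro h3
    obtain ⟨v, hv⟩ := exists_linearIndependent_of_le_finrank h3
    rw [Fintype.linearIndependent_iff] at hv
    have hcomb : ∀ c1 c2 c3 : ℂ, ∀ i j, c1 * kbP (v 0).1 i j + c2 * kbP (v 1).1 i j +
        c3 * kbP (v 2).1 i j = kbP (c1 • (v 0).1 + c2 • (v 1).1 + c3 • (v 2).1) i j := by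
      intro c1 c2 c3 i j
      rw [kbP_add, kbP_add, kbP_smul, kbP_smul, kbP_smul]
    have hv0 : ∀ a, sF ξ (kbP (v a).1) = 0 := fun a => LinearMap.mem_ker.1 (v a).2
    obtain ⟨x, hx⟩ := no3 (kbP_alt (v 0).1) (kbP_alt (v 1).1) (kbP_alt (v 2).1)
      (by
        intro c1 c2 c3 h0
        have h1 : kbP (c1 • (v 0).1 + c2 • (v 1).1 + c3 • (v 2).1) = fun _ _ => 0 := by
          funext i j
          rw [← hcomb]
          exact h0 i j
        have h2 : c1 • (v 0).1 + c2 • (v 1).1 + c3 • (v 2).1 = 0 := by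
          rw [← kbQP (c1 • (v 0).1 + c2 • (v 1).1 + c3 • (v 2).1), h1]
          funext i
          fin_cases i <;> rfl
        have h3 := hv ![c1, c2, c3] (by
          rw [Fin.sum_univ_three]
          apply Subtype.ext
          exact h2)
        exact ⟨h3 0, h3 1, h3 2⟩)
      (by
        intro c1 c2 c3 y y' hy h0
        apply sF_ww h hy
        have h1 : ww y y' = kbP (c1 • (v 0).1 + c2 • (v 1).1 + c3 • (v 2).1) := by
          funext i j
          rw [← hcomb, h0]
        rw [h1, kbP_add, sF_add, kbP_add, sF_add, kbP_smul, kbP_smul, kbP_smul, sF_smul, sF_smul,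
          sF_smul, hv0, hv0, hv0, smul_zero, smul_zero, smul_zero, add_zero, add_zero])
    obtain ⟨c1, c2, c3, hc, hc0⟩ := no3x h (kbP_alt (v 0).1) (kbP_alt (v 1).1) (kbP_alt (v 2).1)
      (hv0 0) (hv0 1) (hv0 2) x
    exact hc (hx c1 c2 c3 hc0)
  have hK : Module.finrank ℂ (LinearMap.ker (kbS ξ)) = 2 := by omega
  have hE : Module.finrank ℂ (LinearMap.range (kbS ξ)) = Module.finrank ℂ (EE θ 3) := by omega
  have hEq : LinearMap.range (kbS ξ) = EE θ 3 := Submodule.eq_of_le_of_finrank_eq hrange hE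
  let B := Module.finBasisOfFinrankEq ℂ (LinearMap.ker (kbS ξ)) hK
  have hB0 : ∀ a, sF ξ (kbP (B a).1) = 0 := fun a => LinearMap.mem_ker.1 (B a).2
  refine ⟨kbP (B 0).1, kbP (B 1).1, kbP_alt _, kbP_alt _, hB0 0, hB0 1, ?_, ?_, ?_⟩
  · intro c1 c2 h0
    have h1 : kbP (c1 • (B 0).1 + c2 • (B 1).1) = fun _ _ => 0 := by
      funext i j
      rw [kbP_add, kbP_smul, kbP_smul]
      exact h0 i j
    have h2 : c1 • (B 0).1 + c2 • (B 1).1 = 0 := by
      rw [← kbQP (c1 • (B 0).1 + c2 • (B 1).1), h1]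
      funext i
      fin_cases i <;> rfl
    have h3 := Fintype.linearIndependent_iff.1 B.linearIndependent ![c1, c2] (by
      rw [Fin.sum_univ_two]
      apply Subtype.ext
      exact h2)
    exact ⟨h3 0, h3 1⟩
  · intro f hf h0
    have h1 : kbQ f ∈ LinearMap.ker (kbS ξ) := by
      rw [LinearMap.mem_ker]
      show sF ξ (kbP (kbQ f)) = 0
      rw [kbPQ hf, h0]
    refine ⟨B.repr ⟨kbQ f, h1⟩ 0, B.repr ⟨kbQ f, h1⟩ 1, fun i j => ?_⟩
    have h2 := B.sum_repr ⟨kbQ f, h1⟩
    rw [Fin.sum_univ_two] at h2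
    have h3 := congrArg Subtype.val h2
    have h4 : B.repr ⟨kbQ f, h1⟩ 0 • (B 0).1 + B.repr ⟨kbQ f, h1⟩ 1 • (B 1).1 = kbQ f := h3
    have h5 := congrArg (fun a => kbP a i j) h4
    simp only [kbP_add, kbP_smul, kbPQ hf] at h5
    exact h5.symm
  · intro ζ hζ
    rw [← hEq] at hζ
    obtain ⟨a, ha⟩ := hζ
    exact ⟨kbP a, kbP_alt a, ha⟩

end Pool.Agent.Helper35.LX
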