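import Pool.Agent.Helper35.LX.Lin

/-!
LX-2: normal form of a pencil of alternating `5 × 5` matrices of constant rank 4.  `pfv`, `pfv_ker`, `pfv_unique`, `pl` are in Lin.lean.

`NF`: a pencil without decomposable elements has the normal form `N1, N2`.
Proof. Let `k(s,t) = pfv (t A1 - s A2) = t^2 k3 + s t k2 + s^2 k1` (coefficients: polarisation of the quadratic map `pfv`).  The identity
`(t A1 - s A2) k(s,t) = 0` gives (with `A(u, ·)` = contraction) `A1(k3,·) = 0`, `A2(k1,·) = 0`, `A1(k2,·) = A2(k3,·) =: e5`,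
`A1(k1,·) = A2(k2,·) =: e4`.  If `s e4 + t e5 = 0`, `(s,t) ≠ 0`, then `k(s,t) ≠ 0` is killed by `A1` and `A2` and some combination is
decomposable (as at the end of `no3`).  So `e4, e5` are independent, hence `k1, k2, k3` are independent, `e4, e5` vanish on them
(`e4 k2 = A2(k2,k2) = 0`, `e4 k3 = A1(k1,k3) = - A1(k3,k1) = 0`, ..).  Choose `v4, v5` dual to `e4, e5`; replace `v5` by
`v5 + A1(v4,v5) k1 + A2(v4,v5) k2`; `g` has the columns `k1, k2, k3, v4, v5`; `g` is invertible because `tr g A1 = N1`, `tr g A2 = N2` have no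
common kernel (or: the columns are independent).
-/

set_option autoImplicit false

namespace Pool.Agent.Helper35.LX

open MvPolynomial
open scoped BigOperators
open Pool.Agent.Helper71.FL (w12 pf ct Dec Closed dd)
open Pool.Agent.Helper71.FC
open Pool.Agent.Helper93 (lsub lmap OF pb)

private noncomputable def bl (f : Fin 5 → Fin 5 → ℂ) :
    (Fin 5 → ℂ) →ₗ[ℂ] (Fin 5 → ℂ) →ₗ[ℂ] ℂ :=
  LinearMap.mk₂ ℂ (fun x y => ∑ i, ∑ j, x i * y j * f i j)
    (by intro x x' y; simp only [Pi.add_apply, add_mul, Finset.sum_add_distrib])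
    (by
      intro c x y
      simp only [Pi.smul_apply, smul_eq_mul, Finset.mul_sum]
      exact Finset.sum_congr rfl fun i _ => Finset.sum_congr rfl fun j _ => by ring)
    (by intro x y y'; simp only [Pi.add_apply, add_mul, mul_add, Finset.sum_add_distrib])
    (by
      intro c x y
      simp only [Pi.smul_apply, smul_eq_mul, Finset.mul_sum]
      exact Finset.sum_congr rfl fun i _ => Finset.sum_congr rfl fun j _ => by ring)

private lemma bl_apply (f : Fin 5 → Fin 5 → ℂ) (x y : Fin 5 → ℂ) :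
    bl f x y = ∑ i, ∑ j, x i * y j * f i j := rfl

private lemma bl_swap {f : Fin 5 → Fin 5 → ℂ} (hf : AltM f) (x y : Fin 5 → ℂ) :
    bl f x y = - bl f y x := by
  rw [bl_apply, bl_apply, Finset.sum_comm, ← Finset.sum_neg_distrib]
  refine Finset.sum_congr rfl fun i _ => ?_
  rw [← Finset.sum_neg_distrib]
  refine Finset.sum_congr rfl fun j _ => ?_
  rw [hf.2 j i]; ring

private lemma bl_self {f : Fin 5 → Fin 5 → ℂ} (hf : AltM f) (x : Fin 5 → ℂ) : bl f x x = 0 := by
  have := bl_swap hf x x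
  linear_combination (1 / 2) * this

private lemma bl_ker {f : Fin 5 → Fin 5 → ℂ} {k : Fin 5 → ℂ}
    (hk : ∀ i, ∑ j, f i j * k j = 0) (x : Fin 5 → ℂ) : bl f x k = 0 := by
  rw [bl_apply]
  refine Finset.sum_eq_zero fun i _ => ?_
  calc ∑ j, x i * k j * f i j = x i * ∑ j, f i j * k j := by
        rw [Finset.mul_sum]; exact Finset.sum_congr rfl fun j _ => by ring
    _ = 0 := by rw [hk i, mul_zero]

private lemma ker_bl {f : Fin 5 → Fin 5 → ℂ} {k : Fin 5 → ℂ}
    (hk : ∀ x, bl f x k = 0) (i : Fin 5) : ∑ j, f i j * k j = 0 := by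
  have h := hk (Pi.single i 1)
  rw [bl_apply, Finset.sum_eq_single i] at h
  · rw [← h]
    refine Finset.sum_congr rfl fun j _ => ?_
    rw [Pi.single_eq_same]; ring
  · intro j _ hj
    refine Finset.sum_eq_zero fun l _ => ?_
    rw [Pi.single_eq_of_ne hj]; ring
  · intro h'; exact absurd (Finset.mem_univ i) h'

private lemma bl_cmb (A1 A2 : Fin 5 → Fin 5 → ℂ) (c1 c2 : ℂ) (x y : Fin 5 → ℂ) :
    bl (fun i j => c1 * A1 i j + c2 * A2 i j) x y = c1 * bl A1 x y + c2 * bl A2 x y := by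
  simp only [bl_apply, Finset.mul_sum]
  rw [← Finset.sum_add_distrib]
  refine Finset.sum_congr rfl fun i _ => ?_
  rw [← Finset.sum_add_distrib]
  exact Finset.sum_congr rfl fun j _ => by ring

private lemma alt_cmb {A1 A2 : Fin 5 → Fin 5 → ℂ} (h1 : AltM A1) (h2 : AltM A2) (c1 c2 : ℂ) :
    AltM (fun i j => c1 * A1 i j + c2 * A2 i j) := by
  refine ⟨fun i => ?_, fun i j => ?_⟩
  · show c1 * A1 i i + c2 * A2 i i = 0
    rw [h1.1, h2.1]; ring
  · show c1 * A1 i j + c2 * A2 i j = -(c1 * A1 j i + c2 * A2 j i)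
    rw [h1.2 i j, h2.2 i j]; ring

private noncomputable def kk (A1 A2 : Fin 5 → Fin 5 → ℂ) : Fin 5 → ℂ :=
  fun i => pfv (fun i j => 1 * A1 i j + (-1) * A2 i j) i - pfv A1 i - pfv A2 i

private lemma pfv_cmb (A1 A2 : Fin 5 → Fin 5 → ℂ) (c1 c2 : ℂ) (i : Fin 5) :
    pfv (fun i j => c1 * A1 i j + c2 * A2 i j) i =
      c1 ^ 2 * pfv A1 i - c1 * c2 * kk A1 A2 i + c2 ^ 2 * pfv A2 i := by
  fin_cases i <;> simp [pfv, pf, kk] <;> ring

theorem NF {A1 A2 : Fin 5 → Fin 5 → ℂ} (h1 : AltM A1) (h2 : AltM A2)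
    (hi : ∀ c1 c2 : ℂ, (∀ i j, c1 * A1 i j + c2 * A2 i j = 0) → c1 = 0 ∧ c2 = 0)
    (hd : ∀ (c1 c2 : ℂ) (y y' : Fin 5 → ℂ), Ind2 y y' →
      (∀ i j, c1 * A1 i j + c2 * A2 i j = ww y y' i j) → False) :
    ∃ g g' : Fin 5 → Fin 5 → ℂ, Inv g g' ∧ tr g A1 = N1 ∧ tr g A2 = N2 := by
  classical
  set k3 := pfv A1 with hk3
  set k1 := pfv A2 with hk1
  set k2 := kk A1 A2 with hk2
  have hpf : ∀ c1 c2 : ℂ, ¬ (c1 = 0 ∧ c2 = 0) →
      pfv (fun i j => c1 * A1 i j + c2 * A2 i j) ≠ 0 := by
    intro c1 c2 hc h0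
    have h3 : ∃ i j, (fun i j => c1 * A1 i j + c2 * A2 i j) i j ≠ 0 := by
      by_contra hcon
      push Not at hcon
      exact hc (hi c1 c2 hcon)
    obtain ⟨y, y', hy, hyy⟩ := pl (alt_cmb h1 h2 c1 c2) h0 h3
    exact hd c1 c2 y y' hy hyy
  have hker : ∀ k : Fin 5 → ℂ, k ≠ 0 → (∀ x, bl A1 x k = 0) → (∀ x, bl A2 x k = 0) → False := by
    intro k hk hb1 hb2
    obtain ⟨i0, hi0⟩ := Function.ne_iff.mp hk
    have hi0' : k i0 ≠ 0 := hi0
    have hu : ∀ c1 c2 : ℂ, pfv (fun i j => c1 * A1 i j + c2 * A2 i j) i0 = 0 →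
        c1 = 0 ∧ c2 = 0 := by
      intro c1 c2 h0
      by_contra hc
      apply hpf c1 c2 hc
      funext i
      have h4 := pfv_unique (alt_cmb h1 h2 c1 c2) (k := k)
        (ker_bl (fun x => by rw [bl_cmb, hb1, hb2]; ring)) i i0
      rw [h0, zero_mul] at h4
      exact (mul_eq_zero.mp h4).resolve_right hi0'
    by_cases hc : k1 i0 = 0
    · have := hu 0 1 (by rw [pfv_cmb, ← hk1, hc]; ring)
      exact one_ne_zero this.2
    · obtain ⟨d, hd'⟩ := IsAlgClosed.exists_pow_nat_eq
        ((k2 i0) ^ 2 - 4 * k3 i0 * k1 i0) (n := 2) (by norm_num)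
      have := hu 1 ((k2 i0 + d) / (2 * k1 i0)) (by
        rw [pfv_cmb, ← hk1, ← hk2, ← hk3]
        field_simp
        linear_combination hd')
      exact one_ne_zero this.1
  have e13 : ∀ x, bl A1 x k3 = 0 := bl_ker (pfv_ker h1)
  have e21 : ∀ x, bl A2 x k1 = 0 := bl_ker (pfv_ker h2)
  have hc : ∀ (c1 c2 : ℂ) (x), c1 ^ 2 * bl (fun i j => c1 * A1 i j + c2 * A2 i j) x k3 -
      c1 * c2 * bl (fun i j => c1 * A1 i j + c2 * A2 i j) x k2 +
      c2 ^ 2 * bl (fun i j => c1 * A1 i j + c2 * A2 i j) x k1 = 0 := by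
    intro c1 c2 x
    have h5 := bl_ker (pfv_ker (alt_cmb h1 h2 c1 c2)) x
    have h6 : pfv (fun i j => c1 * A1 i j + c2 * A2 i j) =
        c1 ^ 2 • k3 - (c1 * c2) • k2 + c2 ^ 2 • k1 := by
      funext i
      rw [pfv_cmb]; rfl
    rw [h6, map_add, map_sub, map_smul, map_smul, map_smul] at h5
    simpa only [smul_eq_mul] using h5
  have m1 : ∀ x, bl A1 x k2 = bl A2 x k3 := by
    intro x
    have p1 := hc 1 1 x
    have p2 := hc 1 (-1) x
    rw [bl_cmb, bl_cmb, bl_cmb, e13, e21] at p1 p2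
    linear_combination (1 / 2) * p2 - (1 / 2) * p1
  have m2 : ∀ x, bl A1 x k1 = bl A2 x k2 := by
    intro x
    have p1 := hc 1 1 x
    have p2 := hc 1 (-1) x
    rw [bl_cmb, bl_cmb, bl_cmb, e13, e21] at p1 p2
    linear_combination (1 / 2) * p2 + (1 / 2) * p1
  -- left versions
  have l13 : ∀ x, bl A1 k3 x = 0 := fun x => by rw [bl_swap h1, e13, neg_zero]
  have l21 : ∀ x, bl A2 k1 x = 0 := fun x => by rw [bl_swap h2, e21, neg_zero]
  have l23 : ∀ x, bl A2 k3 x = bl A1 k2 x := fun x => by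
    rw [bl_swap h2, ← m1, bl_swap h1 k2]
  have l22 : ∀ x, bl A2 k2 x = bl A1 k1 x := fun x => by
    rw [bl_swap h2, ← m2, bl_swap h1 k1]
  have hind : ∀ s t : ℂ, (∀ x, s * bl A1 k1 x + t * bl A1 k2 x = 0) → s = 0 ∧ t = 0 := by
    intro s t hst
    by_contra hcon
    have hne := hpf t (-s) (by
      rintro ⟨ht, hs⟩
      exact hcon ⟨neg_eq_zero.mp hs, ht⟩)
    have h6 : pfv (fun i j => t * A1 i j + (-s) * A2 i j) =
        t ^ 2 • k3 + (s * t) • k2 + s ^ 2 • k1 := by
      funext i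
      rw [pfv_cmb]
      show _ = t ^ 2 * k3 i + (s * t) * k2 i + s ^ 2 * k1 i
      rw [← hk1, ← hk2, ← hk3]
      ring
    apply hker _ hne
    · intro x
      rw [h6, map_add, map_add, map_smul, map_smul, map_smul, e13]
      simp only [smul_eq_mul]
      have := hst x
      rw [bl_swap h1 k1, bl_swap h1 k2] at this
      linear_combination (-s) * this
    · intro x
      rw [h6, map_add, map_add, map_smul, map_smul, map_smul, e21, ← m1, ← m2]
      simp only [smul_eq_mul]
      have := hst x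
      rw [bl_swap h1 k1, bl_swap h1 k2] at this
      linear_combination (-t) * this
  obtain ⟨v4, v5, a44, a45, a54, a55⟩ : ∃ v4 v5 : Fin 5 → ℂ, bl A1 k1 v4 = 1 ∧ bl A1 k1 v5 = 0 ∧
      bl A1 k2 v4 = 0 ∧ bl A1 k2 v5 = 1 := by
    obtain ⟨x0, hx0⟩ : ∃ x, bl A1 k1 x ≠ 0 := by
      by_contra hcon
      push Not at hcon
      exact one_ne_zero (hind 1 0 (fun x => by rw [hcon x]; ring)).1
    obtain ⟨y, hy⟩ : ∃ y, bl A1 k1 x0 * bl A1 k2 y - bl A1 k2 x0 * bl A1 k1 y ≠ 0 := by
      by_contra hcon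
      push Not at hcon
      exact hx0 (hind (-(bl A1 k2 x0)) (bl A1 k1 x0) (fun x => by linear_combination hcon x)).2
    set D := bl A1 k1 x0 * bl A1 k2 y - bl A1 k2 x0 * bl A1 k1 y with hD
    refine ⟨(D⁻¹ * bl A1 k2 y) • x0 - (D⁻¹ * bl A1 k2 x0) • y,
      (D⁻¹ * bl A1 k1 x0) • y - (D⁻¹ * bl A1 k1 y) • x0, ?_, ?_, ?_, ?_⟩
    · rw [map_sub, map_smul, map_smul, smul_eq_mul, smul_eq_mul]
      have : D⁻¹ * D = 1 := inv_mul_cancel₀ hy
      linear_combination this + D⁻¹ * (-hD)
    · rw [map_sub, map_smul, map_smul, smul_eq_mul, smul_eq_mul]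
      ring
    · rw [map_sub, map_smul, map_smul, smul_eq_mul, smul_eq_mul]
      ring
    · rw [map_sub, map_smul, map_smul, smul_eq_mul, smul_eq_mul]
      have : D⁻¹ * D = 1 := inv_mul_cancel₀ hy
      linear_combination this + D⁻¹ * (-hD)
  set u := v5 + (bl A1 v4 v5) • k1 + (bl A2 v4 v5) • k2 with hu
  have z12 : bl A1 k1 k2 = 0 := by rw [← l22]; exact bl_self h2 _
  have z21 : bl A1 k2 k1 = 0 := by rw [bl_swap h1, z12, neg_zero]
  have b14 : bl A1 v4 k1 = -1 := by rw [bl_swap h1, a44]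
  have b15 : bl A1 v4 k2 = 0 := by rw [bl_swap h1, a54, neg_zero]
  have u1 : bl A1 k1 u = 0 := by
    rw [hu, map_add, map_add, map_smul, map_smul, a45, bl_self h1, z12]; simp
  have u2 : bl A1 k2 u = 1 := by
    rw [hu, map_add, map_add, map_smul, map_smul, a55, bl_self h1, z21]; simp
  have w1 : bl A1 v4 u = 0 := by
    rw [hu, map_add, map_add, map_smul, map_smul, b14, b15]
    simp
  have b24 : bl A2 v4 k2 = -1 := by rw [← m2, b14]
  have w2 : bl A2 v4 u = 0 := by
    rw [hu, map_add, map_add, map_smul, map_smul, e21, b24]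
    simp
  have u1' : bl A1 u k1 = 0 := by rw [bl_swap h1, u1, neg_zero]
  have u2' : bl A1 u k2 = -1 := by rw [bl_swap h1, u2]
  have w1' : bl A1 u v4 = 0 := by rw [bl_swap h1, w1, neg_zero]
  have w2' : bl A2 u v4 = 0 := by rw [bl_swap h2, w2, neg_zero]
  set G : Fin 5 → Fin 5 → ℂ := ![k1, k2, k3, v4, u] with hG
  have t1 : ∀ i j, bl A1 (G i) (G j) = N1 i j := by
    intro i j
    fin_cases i <;> fin_cases j
    · exact bl_self h1 _
    · exact z12
    · exact e13 _
    · exact a44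
    · exact u1
    · exact z21
    · exact bl_self h1 _
    · exact e13 _
    · exact a54
    · exact u2
    · exact l13 _
    · exact l13 _
    · exact l13 _
    · exact l13 _
    · exact l13 _
    · exact b14
    · exact b15
    · exact e13 _
    · exact bl_self h1 _
    · exact w1
    · exact u1'
    · exact u2'
    · exact e13 _
    · exact w1'
    · exact bl_self h1 _
  have t2 : ∀ i j, bl A2 (G i) (G j) = N2 i j := by
    intro i j
    fin_cases i <;> fin_cases j
    · exact bl_self h2 _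
    · exact l21 _
    · exact l21 _
    · exact l21 _
    · exact l21 _
    · exact e21 _
    · exact bl_self h2 _
    · exact (l22 _).trans (e13 _)
    · exact (l22 _).trans a44
    · exact (l22 _).trans u1
    · exact e21 _
    · exact (l23 _).trans (bl_self h1 _)
    · exact bl_self h2 _
    · exact (l23 _).trans a54
    · exact (l23 _).trans u2
    · exact e21 _
    · exact b24
    · exact (m1 _).symm.trans b15
    · exact bl_self h2 _
    · exact w2
    · exact e21 _
    · exact (m2 _).symm.trans u1'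
    · exact (m1 _).symm.trans u2'
    · exact w2'
    · exact bl_self h2 _
  set g : Matrix (Fin 5) (Fin 5) ℂ := Matrix.of (fun k i => G i k) with hg
  have hinj : Function.Injective g.mulVec := by
    have : Function.Injective g.mulVecLin := by
      rw [← LinearMap.ker_eq_bot, LinearMap.ker_eq_bot']
      intro c hcz
      have hz : ∑ i, c i • G i = 0 := by
        funext k
        have := congrFun hcz k
        rw [Matrix.mulVecLin_apply] at this
        rw [Finset.sum_apply]
        rw [← this]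
        show _ = ∑ i, G i k * c i
        exact Finset.sum_congr rfl fun i _ => by rw [Pi.smul_apply, smul_eq_mul, mul_comm]
      have q1 : ∀ j, ∑ i, c i * N1 i j = 0 := by
        intro j
        have := congrArg (fun x => bl A1 x (G j)) hz
        simp only [map_sum, map_smul, map_zero, LinearMap.sum_apply, LinearMap.smul_apply,
          LinearMap.zero_apply, smul_eq_mul, t1] at this
        exact this
      have q2 : ∀ j, ∑ i, c i * N2 i j = 0 := by
        intro j
        have := congrArg (fun x => bl A2 x (G j)) hz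
        simp only [map_sum, map_smul, map_zero, LinearMap.sum_apply, LinearMap.smul_apply,
          LinearMap.zero_apply, smul_eq_mul, t2] at this
        exact this
      have r0 := q1 0
      have r1 := q1 1
      have r3 := q1 3
      have r4 := q1 4
      have s4 := q2 4
      rw [Fin.sum_univ_five] at r0 r1 r3 r4 s4
      simp [N1, N2] at r0 r1 r3 r4 s4
      funext i
      fin_cases i
      · exact r3
      · exact r4
      · exact s4
      · exact r0
      · exact r1
    exact this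
  have hunit : IsUnit g := Matrix.mulVec_injective_iff_isUnit.mp hinj
  obtain ⟨gu, hgu⟩ := hunit
  refine ⟨g, (↑gu⁻¹ : Matrix (Fin 5) (Fin 5) ℂ), ⟨?_, ?_⟩, ?_, ?_⟩
  · funext i j
    have := gu.mul_inv
    rw [hgu] at this
    have h7 := congrFun (congrFun this i) j
    rw [Matrix.mul_apply] at h7
    show ∑ l, g i l * (↑gu⁻¹ : Matrix (Fin 5) (Fin 5) ℂ) l j = if i = j then 1 else 0
    rw [h7, Matrix.one_apply]
  · funext i j
    have := gu.inv_mul
    rw [hgu] at this
    have h7 := congrFun (congrFun this i) j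
    rw [Matrix.mul_apply] at h7
    show ∑ l, (↑gu⁻¹ : Matrix (Fin 5) (Fin 5) ℂ) i l * g l j = if i = j then 1 else 0
    rw [h7, Matrix.one_apply]
  · funext i j
    rw [← t1]; rfl
  · funext i j
    rw [← t2]; rfl

end Pool.Agent.Helper35.LX
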