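import Pool.Agent.Helper35.LX.Defs

/-!
LX-6: change of coordinates.  `θ' = pb2 g θ`, `b'` the pullback of `b`, `ξ'_a = pb g (∑ c, g'_ac ξ_c)` (so that `x_a b' = ξ'_a ∧ θ'`,
because `lsub g (∑ c, g'_ac x_c) = x_a`).  Then `sF ξ' f = pb g (sF ξ (tr g' f))`.
Everything about `pb`, `pb2`, `lsub` is in `FC/GL.lean`, `FC/GL2.lean` (`Fol_pb2`, `Cone_pb2`, `finrank_EE_pb2`, `IsB_pb` in `FC/Sat.lean`);
`EE θ' 2 = ⊥` from `finrank`.
-/

set_option autoImplicit false

namespace Pool.Agent.Helper35.LX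

open MvPolynomial
open scoped BigOperators
open Pool.Agent.Helper71.FL (w12 pf ct Dec Closed dd)
open Pool.Agent.Helper71.FC
open Pool.Agent.Helper93 (lsub lmap OF pb)

/-- the transformed `ξ` -/
noncomputable def xi' (g g' : Fin 5 → Fin 5 → ℂ) (ξ : Fin 5 → F1 5) (a : Fin 5) : F1 5 :=
  pb g (fun i => ∑ c, C (g' a c) * ξ c i)

/-! ### sums -/

private theorem swap22 {A κ : Type} [AddCommMonoid A] [Fintype κ] (F : κ → κ → κ → κ → A) :
    ∑ p, ∑ q, ∑ a, ∑ c, F p q a c = ∑ a, ∑ c, ∑ p, ∑ q, F p q a c := by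
  have h : ∑ P : κ × κ, ∑ Q : κ × κ, F P.1 P.2 Q.1 Q.2 =
      ∑ Q : κ × κ, ∑ P : κ × κ, F P.1 P.2 Q.1 Q.2 := Finset.sum_comm
  simpa only [Fintype.sum_prod_type] using h

private theorem swap33 {A κ : Type} [AddCommMonoid A] [Fintype κ]
    (F : κ → κ → κ → κ → κ → κ → A) :
    ∑ p, ∑ q, ∑ r, ∑ a, ∑ c, ∑ e, F p q r a c e =
      ∑ a, ∑ c, ∑ e, ∑ p, ∑ q, ∑ r, F p q r a c e := by
  have h : ∑ P : κ × κ × κ, ∑ Q : κ × κ × κ, F P.1 P.2.1 P.2.2 Q.1 Q.2.1 Q.2.2 =
      ∑ Q : κ × κ × κ, ∑ P : κ × κ × κ, F P.1 P.2.1 P.2.2 Q.1 Q.2.1 Q.2.2 := Finset.sum_comm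
  simpa only [Fintype.sum_prod_type] using h

private theorem prod22 {A κ : Type} [CommRing A] [Fintype κ] (f g : κ → A) :
    (∑ p, f p) * (∑ q, g q) = ∑ p, ∑ q, f p * g q := Finset.sum_mul_sum _ _ _ _

private theorem prod33 {A κ : Type} [CommRing A] [Fintype κ] (f g h : κ → A) :
    (∑ p, f p) * (∑ q, g q) * (∑ r, h r) = ∑ p, ∑ q, ∑ r, f p * g q * h r := by
  rw [prod22, Finset.sum_mul]
  refine Finset.sum_congr rfl fun p _ => ?_
  rw [Finset.sum_mul]
  refine Finset.sum_congr rfl fun q _ => ?_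
  rw [Finset.mul_sum]

private theorem mm_apply {g g' : Fin 5 → Fin 5 → ℂ} (h : mm g g' = idm 5) (i j : Fin 5) :
    ∑ l, g i l * g' l j = if i = j then 1 else 0 := congrFun (congrFun h i) j

private theorem lsub_C' (φ : Fin 5 → Fin 5 → ℂ) (c : ℂ) : lsub φ (C c : Pn 5) = C c := by
  unfold lsub
  rw [aeval_C]
  rfl

private theorem lsub_X' (φ : Fin 5 → Fin 5 → ℂ) (i : Fin 5) :
    lsub φ (X i : Pn 5) = ∑ l, C (φ i l) * X l := by
  unfold lsub
  rw [aeval_X]

/-- `lsub g (∑ c, g'_ac x_c) = x_a` -/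
private theorem lsub_row {g g' : Fin 5 → Fin 5 → ℂ} (hg : Inv g g') (a : Fin 5) :
    ∑ c, C (g' a c) * lsub g (X c : Pn 5) = X a := by
  simp_rw [lsub_X', Finset.mul_sum]
  rw [Finset.sum_comm]
  have h1 : ∀ l : Fin 5, ∑ c, C (g' a c) * (C (g c l) * X l : Pn 5) =
      C (∑ c, g' a c * g c l) * X l := by
    intro l
    rw [map_sum, Finset.sum_mul]
    refine Finset.sum_congr rfl fun c _ => ?_
    rw [C_mul]
    ring
  simp_rw [h1, mm_apply hg.2]
  rw [Finset.sum_eq_single a]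
  · simp
  · intro b _ hb
    rw [if_neg (Ne.symm hb)]
    simp
  · intro h
    exact absurd (Finset.mem_univ _) h

theorem AltM_tr {f : Fin 5 → Fin 5 → ℂ} (hf : AltM f) (g : Fin 5 → Fin 5 → ℂ) : AltM (tr g f) := by
  have h2 : ∀ i j, tr g f i j = - tr g f j i := by
    intro i j
    unfold tr
    rw [Finset.sum_comm, ← Finset.sum_neg_distrib]
    refine Finset.sum_congr rfl fun l _ => ?_
    rw [← Finset.sum_neg_distrib]
    refine Finset.sum_congr rfl fun k _ => ?_
    rw [hf.2 k l]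
    ring
  refine ⟨fun i => ?_, h2⟩
  exact self_eq_neg.mp (h2 i i)

theorem tr_tr {g g' : Fin 5 → Fin 5 → ℂ} (hg : Inv g g') (f : Fin 5 → Fin 5 → ℂ) :
    tr g' (tr g f) = f := by
  funext i j
  unfold tr
  simp_rw [Finset.mul_sum]
  rw [swap22]
  have h1 : ∀ a c : Fin 5, ∑ p, ∑ q, g' p i * g' q j * (g a p * g c q * f a c) =
      (if a = i then 1 else 0) * (if c = j then 1 else 0) * f a c := by
    intro a c
    rw [← mm_apply hg.1 a i, ← mm_apply hg.1 c j, prod22, Finset.sum_mul]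
    refine Finset.sum_congr rfl fun p _ => ?_
    rw [Finset.sum_mul]
    refine Finset.sum_congr rfl fun q _ => ?_
    ring
  simp_rw [h1]
  rw [Finset.sum_eq_single i, Finset.sum_eq_single j]
  · simp
  · intro b _ hb
    rw [if_neg hb]
    ring
  · intro h
    exact absurd (Finset.mem_univ _) h
  · intro b _ hb
    refine Finset.sum_eq_zero fun c _ => ?_
    rw [if_neg hb]
    ring
  · intro h
    exact absurd (Finset.mem_univ _) h

/-- pullback of a 3-form -/
private noncomputable def p3 (φ : Fin 5 → Fin 5 → ℂ) (b : F3 5) : F3 5 :=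
  fun i j l => ∑ a, ∑ c, ∑ e, C (φ a i * φ c j * φ e l) * lsub φ (b a c e)

private theorem p3_inv {g g' : Fin 5 → Fin 5 → ℂ} (hg : Inv g g') (b : F3 5) :
    p3 g' (p3 g b) = b := by
  funext i j l
  unfold p3
  have h0 : ∀ p q r : Fin 5, C (g' p i * g' q j * g' r l) * lsub g' (∑ a, ∑ c, ∑ e,
      C (g a p * g c q * g e r) * lsub g (b a c e)) =
      ∑ a, ∑ c, ∑ e, C (g' p i * g' q j * g' r l) * (C (g a p * g c q * g e r) * b a c e) := by
    intro p q r
    simp_rw [map_sum, Finset.mul_sum, map_mul (lsub g'), lsub_C', lsub_mm, hg.1, lsub_idm]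
  simp_rw [h0]
  rw [swap33]
  have h1 : ∀ a c e : Fin 5, ∑ p, ∑ q, ∑ r,
      (C (g' p i * g' q j * g' r l) * (C (g a p * g c q * g e r) * b a c e) : Pn 5) =
      C ((if a = i then 1 else 0) * (if c = j then 1 else 0) * (if e = l then 1 else 0)) *
        b a c e := by
    intro a c e
    rw [← mm_apply hg.1 a i, ← mm_apply hg.1 c j, ← mm_apply hg.1 e l, prod33]
    simp_rw [map_sum, Finset.sum_mul]
    refine Finset.sum_congr rfl fun p _ => ?_
    refine Finset.sum_congr rfl fun q _ => ?_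
    refine Finset.sum_congr rfl fun r _ => ?_
    rw [← mul_assoc, ← C_mul]
    congr 2
    ring
  simp_rw [h1]
  rw [Finset.sum_eq_single i, Finset.sum_eq_single j, Finset.sum_eq_single l]
  · simp
  · intro e _ he
    rw [if_neg he]
    simp
  · intro h
    exact absurd (Finset.mem_univ _) h
  · intro c _ hc
    refine Finset.sum_eq_zero fun e _ => ?_
    rw [if_neg hc]
    simp
  · intro h
    exact absurd (Finset.mem_univ _) h
  · intro a _ ha
    refine Finset.sum_eq_zero fun c _ => Finset.sum_eq_zero fun e _ => ?_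
    rw [if_neg ha]
    simp
  · intro h
    exact absurd (Finset.mem_univ _) h

theorem Hyp_tr {θ : F2 5} {b : F3 5} {ξ : Fin 5 → F1 5} (h : Hyp θ b ξ)
    {g g' : Fin 5 → Fin 5 → ℂ} (hg : Inv g g') :
    Hyp (pb2 g θ) (fun i j l => ∑ a, ∑ c, ∑ e, C (g a i * g c j * g e l) * lsub g (b a c e))
      (xi' g g' ξ) where
  fol := Fol_pb2 h.fol hg
  nc := fun hc => h.nc ((Cone_pb2 θ hg).1 hc)
  e2 := by
    have h1 : Module.finrank ℂ (EE (pb2 g θ) 2) = 0 := by
      rw [finrank_EE_pb2 θ 2 hg, h.e2, finrank_bot]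
    have := finite_EE (pb2 g θ) 2
    exact Submodule.finrank_eq_zero.mp h1
  e3 := by
    rw [finrank_EE_pb2 θ 3 hg]
    exact h.e3
  hξ := by
    intro a i
    unfold xi'
    apply pb_hom
    intro i
    apply IsHomogeneous.sum
    intro c _
    have := (isHomogeneous_C (Fin 5) (g' a c)).mul (h.hξ c i)
    rwa [zero_add] at this
  hb := by
    intro a i j k
    unfold xi'
    rw [w12_pb]
    have h1 : ∀ p q r : Fin 5, w12 (fun i => ∑ c, C (g' a c) * ξ c i) θ p q r =
        (∑ c, C (g' a c) * X c) * b p q r := by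
      intro p q r
      rw [Finset.sum_mul]
      have h2 : ∀ c : Fin 5, (C (g' a c) * X c : Pn 5) * b p q r =
          C (g' a c) * w12 (ξ c) θ p q r := by
        intro c
        rw [← h.hb c p q r]
        ring
      simp_rw [h2]
      unfold w12
      simp_rw [Finset.sum_mul, ← Finset.sum_add_distrib]
      refine Finset.sum_congr rfl fun c _ => ?_
      ring
    simp_rw [h1, map_mul (lsub g), map_sum (lsub g), map_mul (lsub g), lsub_C', lsub_row hg,
      Finset.mul_sum]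
    refine Finset.sum_congr rfl fun p _ => ?_
    refine Finset.sum_congr rfl fun q _ => ?_
    refine Finset.sum_congr rfl fun r _ => ?_
    ring
  nb := by
    intro hB
    apply h.nb
    have h1 := IsB_pb hB g'
    rw [pb2_mm, hg.1, pb2_idm] at h1
    have h2 : IsB θ (p3 g' (p3 g b)) := h1
    rwa [p3_inv hg] at h2

theorem sF_tr {ξ : Fin 5 → F1 5} {g g' : Fin 5 → Fin 5 → ℂ} (hg : Inv g g')
    (f : Fin 5 → Fin 5 → ℂ) : sF (xi' g g' ξ) f = pb g (sF ξ (tr g' f)) := by
  funext l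
  have hx : ∀ j : Fin 5, xi' g g' ξ j l = ∑ c, C (g' j c) * pb g (ξ c) l := by
    intro j
    unfold xi' pb
    simp_rw [map_sum, map_mul (lsub g), lsub_C', Finset.mul_sum]
    rw [Finset.sum_comm]
    refine Finset.sum_congr rfl fun c _ => Finset.sum_congr rfl fun p _ => ?_
    ring
  have hl : ∀ i j : Fin 5, C (f i j) * (X i * xi' g g' ξ j l) =
      ∑ k, ∑ c, C (f i j) * (C (g' i k) * lsub g (X k) * (C (g' j c) * pb g (ξ c) l)) := by
    intro i j
    rw [hx, ← lsub_row hg i, prod22]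
    simp_rw [Finset.mul_sum]
  have hr : pb g (sF ξ (tr g' f)) l =
      ∑ k, ∑ c, C (tr g' f k c) * (lsub g (X k) * pb g (ξ c) l) := by
    unfold pb sF
    simp_rw [map_sum, map_mul (lsub g), lsub_C', Finset.mul_sum]
    rw [Finset.sum_comm]
    refine Finset.sum_congr rfl fun k _ => ?_
    rw [Finset.sum_comm]
    refine Finset.sum_congr rfl fun c _ => Finset.sum_congr rfl fun p _ => ?_
    ring
  rw [hr]
  unfold sF
  simp_rw [hl]
  rw [swap22]
  refine Finset.sum_congr rfl fun k _ => Finset.sum_congr rfl fun c _ => ?_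
  unfold tr
  simp_rw [map_sum, Finset.sum_mul]
  refine Finset.sum_congr rfl fun i _ => Finset.sum_congr rfl fun j _ => ?_
  rw [C_mul, C_mul]
  ring

/-- rows of the pullback: `θ' i = pb g (i_v θ)`, `v` = column `i` of `g` -/
theorem row_tr (θ : F2 5) (g : Fin 5 → Fin 5 → ℂ) (i : Fin 5) :
    pb2 g θ i = pb g (av θ (fun k => g k i)) := by
  funext j
  change ∑ k, ∑ l, C (g k i * g l j) * lsub g (θ k l) =
    ∑ l, C (g l j) * lsub g (∑ k, C (g k i) * θ k l)
  simp_rw [map_sum, map_mul (lsub g), lsub_C', Finset.mul_sum]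
  rw [Finset.sum_comm]
  refine Finset.sum_congr rfl fun l _ => Finset.sum_congr rfl fun k _ => ?_
  rw [C_mul]
  ring

end Pool.Agent.Helper35.LX
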