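import Pool.Agent.Helper35.LX.AlgB
import Pool.Agent.Helper35.LX.NF
import Pool.Agent.Helper35.LX.KerB
import Pool.Agent.Helper35.LX.GF
import Pool.Agent.Helper35.LX.Tr

/-! LX-9: proof of LEMMA X. -/

set_option autoImplicit false

namespace Pool.Agent.Helper35.LX

open MvPolynomial
open scoped BigOperators
open Pool.Agent.Helper71.FL (w12 pf ct Dec Closed dd)
open Pool.Agent.Helper71.FC
open Pool.Agent.Helper93 (lsub lmap OF pb)

/-- `sF` as a linear map -/
noncomputable def sL (ξ : Fin 5 → F1 5) : (Fin 5 → Fin 5 → ℂ) →ₗ[ℂ] F1 5 where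
  toFun := sF ξ
  map_add' f f' := sF_add ξ f f'
  map_smul' c f := sF_smul ξ c f

theorem sL_apply (ξ : Fin 5 → F1 5) (f : Fin 5 → Fin 5 → ℂ) : sL ξ f = sF ξ f := rfl

theorem AltM_N1 : AltM N1 := by
  refine ⟨fun i => ?_, fun i j => ?_⟩
  · fin_cases i <;> simp [N1]
  · fin_cases i <;> fin_cases j <;> simp [N1]

theorem AltM_N2 : AltM N2 := by
  refine ⟨fun i => ?_, fun i j => ?_⟩
  · fin_cases i <;> simp [N2]
  · fin_cases i <;> fin_cases j <;> simp [N2]

theorem sum_rows (θ : F2 5) (v : Fin 5 → ℂ) : ∑ i, v i • θ i = av θ v := by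
  funext j
  show (∑ i, v i • θ i) j = ∑ i, C (v i) * θ i j
  rw [Finset.sum_apply]
  apply Finset.sum_congr rfl
  intro i _
  rw [Pi.smul_apply, smul_eq_C_mul]

theorem sF_comb {θ : F2 5} {ξ : Fin 5 → F1 5} {α : Fin 5 → Fin 5 → Fin 5 → ℂ}
    (hs : ∀ i, sF ξ (α i) = θ i) (v : Fin 5 → ℂ) :
    sF ξ (fun k l => ∑ i, v i * α i k l) = av θ v := by
  have h : (fun k l => ∑ i, v i * α i k l) = ∑ i, v i • α i := by
    funext k l
    rw [Finset.sum_apply, Finset.sum_apply]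
    rfl
  rw [h, ← sL_apply, map_sum, ← sum_rows]
  apply Finset.sum_congr rfl
  intro i _
  rw [map_smul, sL_apply, hs]

theorem norm_alpha {ξ : Fin 5 → F1 5} (hN1 : sF ξ N1 = 0) (hN2 : sF ξ N2 = 0)
    {α : Fin 5 → Fin 5 → Fin 5 → ℂ} (hα : ∀ i, AltM (α i)) :
    ∃ β : Fin 5 → Fin 5 → Fin 5 → ℂ, (∀ i, AltM (β i)) ∧ (∀ i, sF ξ (β i) = sF ξ (α i)) ∧
      (∀ i, β i 1 3 = 0) ∧ (∀ i, β i 1 4 = 0) ∧
      ∀ i, β i 0 1 = α i 0 1 ∧ β i 0 2 = α i 0 2 ∧ β i 1 2 = α i 1 2 := by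
  refine ⟨fun i => α i + ((-(α i 1 4)) • N1 + (-(α i 1 3)) • N2), ?_, ?_, ?_, ?_, ?_⟩
  · intro i
    refine ⟨fun j => ?_, fun j k => ?_⟩
    · show α i j j + ((-(α i 1 4)) * N1 j j + (-(α i 1 3)) * N2 j j) = 0
      rw [(hα i).1, AltM_N1.1, AltM_N2.1]
      ring
    · show α i j k + ((-(α i 1 4)) * N1 j k + (-(α i 1 3)) * N2 j k) =
        -(α i k j + ((-(α i 1 4)) * N1 k j + (-(α i 1 3)) * N2 k j))
      rw [(hα i).2 j k, AltM_N1.2 j k, AltM_N2.2 j k]
      ring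
  · intro i
    show sF ξ (α i + ((-(α i 1 4)) • N1 + (-(α i 1 3)) • N2)) = sF ξ (α i)
    rw [← sL_apply, map_add, map_add, map_smul, map_smul, sL_apply, sL_apply, sL_apply, hN1, hN2,
      smul_zero, smul_zero, add_zero, add_zero]
  · intro i
    show α i 1 3 + ((-(α i 1 4)) * N1 1 3 + (-(α i 1 3)) * N2 1 3) = 0
    simp [N1, N2]
  · intro i
    show α i 1 4 + ((-(α i 1 4)) * N1 1 4 + (-(α i 1 3)) * N2 1 4) = 0
    simp [N1, N2]
  · intro i
    refine ⟨?_, ?_, ?_⟩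
    · show α i 0 1 + ((-(α i 1 4)) * N1 0 1 + (-(α i 1 3)) * N2 0 1) = α i 0 1
      simp [N1, N2]
    · show α i 0 2 + ((-(α i 1 4)) * N1 0 2 + (-(α i 1 3)) * N2 0 2) = α i 0 2
      simp [N1, N2]
    · show α i 1 2 + ((-(α i 1 4)) * N1 1 2 + (-(α i 1 3)) * N2 1 2) = α i 1 2
      simp [N1, N2]

theorem ids_alpha {θ : F2 5} {b : F3 5} {ξ : Fin 5 → F1 5} (h : Hyp θ b ξ) (hN1 : sF ξ N1 = 0)
    (hN2 : sF ξ N2 = 0) {β : Fin 5 → Fin 5 → Fin 5 → ℂ} (hβ : ∀ i, AltM (β i))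
    (hs : ∀ i, sF ξ (β i) = θ i) (h24 : ∀ i, β i 1 3 = 0) (h25 : ∀ i, β i 1 4 = 0) :
    Ids (cov β) ∧ ¬ ∃ u : Fin 5 → ℂ, u ≠ 0 ∧ ∀ p, ∑ i, cov β p i * u i = 0 := by
  obtain ⟨κ, hκ⟩ := gf h hN1 hN2 hβ hs h24 h25
  refine ⟨Ids_of_closed h.fol.closed (κ := κ) ?_ hκ, ?_⟩
  · intro h0
    have h1 : IsUnit (0 : Pn 5) := by
      apply h.fol.prim
      intro i j
      rw [hκ i j, h0, C_0, zero_mul]
    exact not_isUnit_zero h1
  · rintro ⟨u, hu, hz⟩
    apply h.nc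
    refine ⟨u, hu, ?_⟩
    have hF : (fun k l => ∑ i, u i * β i k l) = 0 := by
      have half : ∀ k l : Fin 5, k < l → ∑ i, u i * β i k l = 0 := by
        have key : ∀ (k l : Fin 5) (p : Fin 8), (∀ i, cov β p i = β i k l) →
            ∑ i, u i * β i k l = 0 := by
          intro k l p hp
          rw [← hz p]
          apply Finset.sum_congr rfl
          intro i _
          rw [hp, mul_comm]
        intro k l hkl
        fin_cases k <;> fin_cases l <;> first | exact absurd hkl (by decide) | skip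
        · exact key 0 1 0 (fun _ => rfl)
        · exact key 0 2 1 (fun _ => rfl)
        · exact key 0 3 5 (fun _ => rfl)
        · exact key 0 4 6 (fun _ => rfl)
        · exact key 1 2 2 (fun _ => rfl)
        · exact Finset.sum_eq_zero fun i _ => by
            show u i * β i 1 3 = 0
            rw [h24, mul_zero]
        · exact Finset.sum_eq_zero fun i _ => by
            show u i * β i 1 4 = 0
            rw [h25, mul_zero]
        · exact key 2 3 3 (fun _ => rfl)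
        · exact key 2 4 4 (fun _ => rfl)
        · exact key 3 4 7 (fun _ => rfl)
      funext k l
      show ∑ i, u i * β i k l = 0
      rcases lt_trichotomy k l with hkl | hkl | hkl
      · exact half k l hkl
      · rw [hkl]
        exact Finset.sum_eq_zero fun i _ => by rw [(hβ i).1, mul_zero]
      · rw [← neg_eq_zero, ← Finset.sum_neg_distrib, ← half l k hkl]
        apply Finset.sum_congr rfl
        intro i _
        rw [(hβ i).2 k l]
        ring
    have h1 := sF_comb hs u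
    rw [hF, ← sL_apply, map_zero] at h1
    intro j
    rw [← h1]
    rfl

/-- the special position is impossible -/
theorem no_special {θ : F2 5} {b : F3 5} {ξ : Fin 5 → F1 5} (h : Hyp θ b ξ) (hN1 : sF ξ N1 = 0)
    (hN2 : sF ξ N2 = 0) {α : Fin 5 → Fin 5 → Fin 5 → ℂ} (hα : ∀ i, AltM (α i))
    (hs : ∀ i, sF ξ (α i) = θ i) (h02 : ∀ i, α i 0 2 = 0) (h12 : ∀ i, α i 1 2 = 0) : False := by
  obtain ⟨β, hβ, hβs, h24, h25, hab⟩ := norm_alpha hN1 hN2 hα
  obtain ⟨hI, hnc⟩ := ids_alpha h hN1 hN2 hβ (fun i => (hβs i).trans (hs i)) h24 h25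
  obtain ⟨⟨a0, a1, a2⟩, -, -, e1, -, -, -, -⟩ := alg1 hI hnc
  have h1 : ∀ i, cov β 1 i = 0 := fun i => ((hab i).2.1).trans (h02 i)
  have h2 : ∀ i, cov β 2 i = 0 := fun i => ((hab i).2.2).trans (h12 i)
  apply hnc
  apply alg2 hI h1 h2
  intro i hi
  have a3 : cov β 0 3 = 0 := by
    rw [h1] at e1
    linear_combination e1
  fin_cases i
  · exact a0
  · exact a1
  · exact a2
  · exact a3
  · exact absurd rfl hi

/-- general position: a common kernel vector of the restrictions -/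
theorem alg1_alpha {θ : F2 5} {b : F3 5} {ξ : Fin 5 → F1 5} (h : Hyp θ b ξ) (hN1 : sF ξ N1 = 0)
    (hN2 : sF ξ N2 = 0) {α : Fin 5 → Fin 5 → Fin 5 → ℂ} (hα : ∀ i, AltM (α i))
    (hs : ∀ i, sF ξ (α i) = θ i) :
    ∃ s t : ℂ, ¬ (s = 0 ∧ t = 0) ∧ ∀ i, s * α i 0 1 + t * α i 0 2 = 0 ∧
      s * α i 0 2 + t * α i 1 2 = 0 := by
  obtain ⟨β, hβ, hβs, h24, h25, hab⟩ := norm_alpha hN1 hN2 hα
  obtain ⟨hI, hnc⟩ := ids_alpha h hN1 hN2 hβ (fun i => (hβs i).trans (hs i)) h24 h25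
  obtain ⟨⟨a0, a1, a2⟩, ⟨b0, b1, b2⟩, ⟨c0, c1, c2⟩, e1, e2, e3, e4, e5⟩ := alg1 hI hnc
  have key : ∀ s t : ℂ, (∀ i, s * cov β 0 i + t * cov β 1 i = 0 ∧
      s * cov β 1 i + t * cov β 2 i = 0) → ∀ i, s * α i 0 1 + t * α i 0 2 = 0 ∧
      s * α i 0 2 + t * α i 1 2 = 0 := by
    intro s t hst i
    have h0 : cov β 0 i = α i 0 1 := (hab i).1
    have h1 : cov β 1 i = α i 0 2 := (hab i).2.1
    have h2 : cov β 2 i = α i 1 2 := (hab i).2.2
    rw [← h0, ← h1, ← h2]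
    exact hst i
  by_cases hb : cov β 0 4 = 0
  · refine ⟨1, 0, fun h => one_ne_zero h.1, key 1 0 ?_⟩
    rw [hb] at e3
    have z3 : cov β 0 3 = 0 := by
      have : cov β 0 3 ^ 2 = 0 := by linear_combination e3
      exact pow_eq_zero_iff (two_ne_zero) |>.1 this
    have z13 : cov β 1 3 = 0 := by
      have : cov β 1 3 ^ 2 = 0 := by rw [e5, z3, zero_mul]
      exact pow_eq_zero_iff (two_ne_zero) |>.1 this
    intro i
    fin_cases i
    · show 1 * cov β 0 0 + 0 * cov β 1 0 = 0 ∧ 1 * cov β 1 0 + 0 * cov β 2 0 = 0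
      rw [a0, b0]; constructor <;> ring
    · show 1 * cov β 0 1 + 0 * cov β 1 1 = 0 ∧ 1 * cov β 1 1 + 0 * cov β 2 1 = 0
      rw [a1, b1]; constructor <;> ring
    · show 1 * cov β 0 2 + 0 * cov β 1 2 = 0 ∧ 1 * cov β 1 2 + 0 * cov β 2 2 = 0
      rw [a2, b2]; constructor <;> ring
    · show 1 * cov β 0 3 + 0 * cov β 1 3 = 0 ∧ 1 * cov β 1 3 + 0 * cov β 2 3 = 0
      rw [z3, z13]; constructor <;> ring
    · show 1 * cov β 0 4 + 0 * cov β 1 4 = 0 ∧ 1 * cov β 1 4 + 0 * cov β 2 4 = 0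
      rw [hb, e1, z3]; constructor <;> ring
  · refine ⟨cov β 0 3, cov β 0 4, fun h => hb h.2, key _ _ ?_⟩
    intro i
    fin_cases i
    · show cov β 0 3 * cov β 0 0 + cov β 0 4 * cov β 1 0 = 0 ∧
        cov β 0 3 * cov β 1 0 + cov β 0 4 * cov β 2 0 = 0
      rw [a0, b0, c0]; constructor <;> ring
    · show cov β 0 3 * cov β 0 1 + cov β 0 4 * cov β 1 1 = 0 ∧
        cov β 0 3 * cov β 1 1 + cov β 0 4 * cov β 2 1 = 0
      rw [a1, b1, c1]; constructor <;> ring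
    · show cov β 0 3 * cov β 0 2 + cov β 0 4 * cov β 1 2 = 0 ∧
        cov β 0 3 * cov β 1 2 + cov β 0 4 * cov β 2 2 = 0
      rw [a2, b2, c2]; constructor <;> ring
    · show cov β 0 3 * cov β 0 3 + cov β 0 4 * cov β 1 3 = 0 ∧
        cov β 0 3 * cov β 1 3 + cov β 0 4 * cov β 2 3 = 0
      constructor
      · linear_combination e3
      · linear_combination e4
    · show cov β 0 3 * cov β 0 4 + cov β 0 4 * cov β 1 4 = 0 ∧
        cov β 0 3 * cov β 1 4 + cov β 0 4 * cov β 2 4 = 0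
      rw [e1, e2]
      constructor
      · ring
      · linear_combination -e3

/-- the action of `SL_2` -/
def Mm (a b c d : ℂ) : Fin 5 → Fin 5 → ℂ :=
  ![![a ^ 2, 2 * a * b, b ^ 2, 0, 0], ![a * c, a * d + b * c, b * d, 0, 0],
    ![c ^ 2, 2 * c * d, d ^ 2, 0, 0], ![0, 0, 0, d, -c], ![0, 0, 0, -b, a]]

theorem Mm_mul {a b c d : ℂ} (h : a * d - b * c = 1) :
    mm (Mm a b c d) (Mm d (-b) (-c) a) = idm 5 := by
  have h2 : (a * d - b * c) ^ 2 = 1 := by rw [h]; ring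
  funext i j
  unfold mm idm
  rw [Fin.sum_univ_five]
  fin_cases i <;> fin_cases j <;> simp [Mm] <;> first
    | ring1
    | linear_combination h
    | linear_combination h2

theorem Mm_inv {a b c d : ℂ} (h : a * d - b * c = 1) : Inv (Mm a b c d) (Mm d (-b) (-c) a) := by
  refine ⟨Mm_mul h, ?_⟩
  have h1 := Mm_mul (a := d) (b := -b) (c := -c) (d := a) (by linear_combination h)
  rwa [neg_neg, neg_neg] at h1

theorem tr_N1 {a b c d : ℂ} (h : a * d - b * c = 1) :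
    tr (Mm a b c d) N1 = a • N1 + b • N2 := by
  funext i j
  unfold tr
  simp only [Fin.sum_univ_five]
  fin_cases i <;> fin_cases j <;> simp [Mm, N1, N2] <;> first
    | ring1
    | linear_combination a * h
    | linear_combination b * h
    | linear_combination -a * h
    | linear_combination -b * h

theorem tr_N2 {a b c d : ℂ} (h : a * d - b * c = 1) :
    tr (Mm a b c d) N2 = c • N1 + d • N2 := by
  funext i j
  unfold tr
  simp only [Fin.sum_univ_five]
  fin_cases i <;> fin_cases j <;> simp [Mm, N1, N2] <;> first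
    | ring1
    | linear_combination c * h
    | linear_combination d * h
    | linear_combination -c * h
    | linear_combination -d * h

theorem tr_special {a b c d : ℂ} {F : Fin 5 → Fin 5 → ℂ} (hF : AltM F)
    (h1 : b * F 0 1 + d * F 0 2 = 0) (h2 : b * F 0 2 + d * F 1 2 = 0) :
    tr (Mm a b c d) F 0 2 = 0 ∧ tr (Mm a b c d) F 1 2 = 0 := by
  have f00 := hF.1 0
  have f11 := hF.1 1
  have f22 := hF.1 2
  have f10 := hF.2 1 0
  have f20 := hF.2 2 0
  have f21 := hF.2 2 1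
  unfold tr
  simp only [Fin.sum_univ_five]
  simp [Mm, f00, f11, f22, f10, f20, f21]
  constructor
  · linear_combination (a ^ 2 * d - a * b * c) * h1 + (a * c * d - c ^ 2 * b) * h2
  · linear_combination (2 * a * b * d - (a * d + b * c) * b) * h1 +
      ((a * d + b * c) * d - 2 * c * d * b) * h2

theorem exists_sl2 {s t : ℂ} (h : ¬ (s = 0 ∧ t = 0)) : ∃ a c : ℂ, a * t - s * c = 1 := by
  by_cases ht : t = 0
  · have hs : s ≠ 0 := fun hs => h ⟨hs, ht⟩
    exact ⟨0, -s⁻¹, by field_simp; ring⟩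
  · exact ⟨t⁻¹, 0, by field_simp; ring⟩

theorem pb_zero' (g : Fin 5 → Fin 5 → ℂ) : pb g (0 : F1 5) = 0 := by
  funext i
  show ∑ j, C (g j i) * lsub g (0 : Pn 5) = 0
  simp

theorem comb_alt {α : Fin 5 → Fin 5 → Fin 5 → ℂ} (hα : ∀ i, AltM (α i)) (v : Fin 5 → ℂ) :
    AltM (fun k l => ∑ j, v j * α j k l) := by
  refine ⟨fun k => ?_, fun k l => ?_⟩
  · exact Finset.sum_eq_zero fun j _ => by rw [(hα j).1, mul_zero]
  · show ∑ j, v j * α j k l = -∑ j, v j * α j l k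
    rw [← Finset.sum_neg_distrib]
    apply Finset.sum_congr rfl
    intro j _
    rw [(hα j).2 k l]
    ring

theorem comb_zero {s t : ℂ} {x y : Fin 5 → ℂ} (h : ∀ j, s * x j + t * y j = 0) (v : Fin 5 → ℂ) :
    s * ∑ j, v j * x j + t * ∑ j, v j * y j = 0 := by
  rw [Finset.mul_sum, Finset.mul_sum, ← Finset.sum_add_distrib]
  apply Finset.sum_eq_zero
  intro j _
  linear_combination v j * h j

/-- the normalised situation is impossible -/
theorem hyp_false {θ : F2 5} {b : F3 5} {ξ : Fin 5 → F1 5} (h : Hyp θ b ξ) (hN1 : sF ξ N1 = 0)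
    (hN2 : sF ξ N2 = 0) {α : Fin 5 → Fin 5 → Fin 5 → ℂ} (hα : ∀ i, AltM (α i))
    (hs : ∀ i, sF ξ (α i) = θ i) : False := by
  obtain ⟨s, t, hst, hk⟩ := alg1_alpha h hN1 hN2 hα hs
  obtain ⟨a, c, hac⟩ := exists_sl2 hst
  have hI := Mm_inv hac
  have hac' : t * a - (-s) * (-c) = 1 := by linear_combination hac
  have m1 := tr_N1 hac'
  have m2 := tr_N2 hac'
  have hsp : ∀ F : Fin 5 → Fin 5 → ℂ, AltM F → s * F 0 1 + t * F 0 2 = 0 →
      s * F 0 2 + t * F 1 2 = 0 → tr (Mm a s c t) F 0 2 = 0 ∧ tr (Mm a s c t) F 1 2 = 0 :=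
    fun F hF h1 h2 => tr_special hF h1 h2
  generalize Mm a s c t = M at hI hsp
  generalize Mm t (-s) (-c) a = M' at hI m1 m2
  have h' := Hyp_tr h hI
  have n1 : sF (xi' M M' ξ) N1 = 0 := by
    rw [sF_tr hI, m1, ← sL_apply, map_add, map_smul, map_smul, sL_apply, sL_apply, hN1, hN2,
      smul_zero, smul_zero, add_zero, pb_zero']
  have n2 : sF (xi' M M' ξ) N2 = 0 := by
    rw [sF_tr hI, m2, ← sL_apply, map_add, map_smul, map_smul, sL_apply, sL_apply, hN1, hN2,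
      smul_zero, smul_zero, add_zero, pb_zero']
  have hF : ∀ i, AltM (fun k l => ∑ j, M j i * α j k l) := fun i => comb_alt hα (fun j => M j i)
  have hF12 : ∀ i, tr M (fun k l => ∑ j, M j i * α j k l) 0 2 = 0 ∧
      tr M (fun k l => ∑ j, M j i * α j k l) 1 2 = 0 := by
    intro i
    apply hsp _ (hF i)
    · exact comb_zero (fun j => (hk j).1) (fun j => M j i)
    · exact comb_zero (fun j => (hk j).2) (fun j => M j i)
  have hend : ∀ i, sF (xi' M M' ξ) (tr M (fun k l => ∑ j, M j i * α j k l)) = pb2 M θ i := by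
    intro i
    have h5 := sF_comb hs (fun j => M j i)
    rw [sF_tr hI, tr_tr hI, row_tr, h5]
  exact no_special h' n1 n2 (α := fun i => tr M (fun k l => ∑ j, M j i * α j k l))
    (fun i => AltM_tr (hF i) M) hend (fun i => (hF12 i).1) (fun i => (hF12 i).2)

/-- LEMMA X -/
theorem lemma_X (θ : F2 5) (hF : Fol θ) (hC : ¬ Cone θ) (h2 : EE θ 2 = ⊥)
    (h3 : Module.finrank ℂ (EE θ 3) ≤ 8) (b : F3 5) (hb : ∀ i j k, (b i j k).IsHomogeneous 4)
    (hX : ∀ a : Fin 5, IsB θ (fun i j k => X a * b i j k)) : IsB θ b := by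
  by_contra hnb
  have hex : ∀ a : Fin 5, ∃ c : F1 5, (∀ i, (c i).IsHomogeneous 2) ∧
      ∀ i j k, X a * b i j k = w12 c θ i j k := by
    intro a
    apply (mem_BB_iff hF.hom (d := 2)).1
    refine ⟨fun i j k => ?_, hX a⟩
    have := (isHomogeneous_X ℂ a).mul (hb i j k)
    rwa [show 1 + 4 = 2 + 3 by norm_num] at this
  choose ξ hξ hbξ using hex
  have h : Hyp θ b ξ := ⟨hF, hC, h2, h3, hξ, hbξ, hnb⟩
  obtain ⟨A1, A2, hA1, hA2, hs1, hs2, hi, -, -⟩ := ker2 h
  have hd : ∀ (c1 c2 : ℂ) (y y' : Fin 5 → ℂ), Ind2 y y' →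
      (∀ i j, c1 * A1 i j + c2 * A2 i j = ww y y' i j) → False := by
    intro c1 c2 y y' hy he
    apply sF_ww h hy
    have : ww y y' = c1 • A1 + c2 • A2 := by
      funext i j
      exact (he i j).symm
    rw [this, ← sL_apply, map_add, map_smul, map_smul, sL_apply, sL_apply, hs1, hs2, smul_zero,
      smul_zero, add_zero]
  obtain ⟨g, g', hg, hgA1, hgA2⟩ := NF hA1 hA2 hi hd
  have h' := Hyp_tr h hg
  have n1 : sF (xi' g g' ξ) N1 = 0 := by
    rw [sF_tr hg, ← hgA1, tr_tr hg, hs1, pb_zero']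
  have n2 : sF (xi' g g' ξ) N2 = 0 := by
    rw [sF_tr hg, ← hgA2, tr_tr hg, hs2, pb_zero']
  obtain ⟨-, -, -, -, -, -, -, -, hsurj⟩ := ker2 h'
  have hrow : ∀ i, ∃ f, AltM f ∧ sF (xi' g g' ξ) f = pb2 g θ i := by
    intro i
    apply hsurj
    have h4 := av_mem_EE h'.fol.dec h'.fol.hom (Pi.single i 1)
    have h5 : av (pb2 g θ) (Pi.single i 1) = pb2 g θ i := by
      rw [← sum_rows, Finset.sum_eq_single i]
      · rw [Pi.single_eq_same, one_smul]
      · intro j _ hj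
        rw [Pi.single_eq_of_ne hj, zero_smul]
      · intro h
        exact absurd (Finset.mem_univ _) h
    rwa [h5] at h4
  choose α hα hαs using hrow
  exact hyp_false h' n1 n2 hα hαs

end Pool.Agent.Helper35.LX
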